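import Mathlib

/-!
MP_4f30eb_co: common definitions.  `D = d + 1` throughout.
-/

namespace MP4f30eb

open Finset MeasureTheory
open scoped BigOperators Matrix Classical

/-- The homogenised point `(1, c)`. -/
def hat {d : ℕ} (c : Fin d → ℝ) : Fin (d + 1) → ℝ := Fin.cons 1 c

/-- The sign `1` or `-1` of a Boolean. -/
def sg (b : Bool) : ℝ := if b then 1 else -1

/-- `x` is weakly consistent with the signs `σ`. -/
def Consis {ι V : Type} [AddCommGroup V] [Module ℝ V] (ℓ : ι → V →ₗ[ℝ] ℝ) (σ : ι → Bool)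
    (x : V) : Prop := ∀ i, 0 ≤ sg (σ i) * ℓ i x

/-- A set system with polynomially many traces. -/
def TB {ι : Type} (R : Set (Set ι)) (P : ℕ) : Prop :=
  ∀ A : Finset ι, (A.powerset.filter (fun B => ∃ r ∈ R, ∀ i ∈ A, (i ∈ B ↔ i ∈ r))).card
    ≤ (A.card + 1) ^ P

/-- General position on the finite set `F`. -/
def GP {ι : Type} {D : ℕ} (p : ι → Fin D → ℝ) (F : Finset ι) : Prop :=
  ∀ w : Fin D → ℝ, w ≠ 0 → (F.filter (fun i => p i ⬝ᵥ w = 0)).card < D

/-- The convex hull of the points `c g ± a g k`, `g ∈ G`. -/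
def Kset {ι : Type} {d : ℕ} (c : ι → Fin d → ℝ) (a : ι → Fin d → Fin d → ℝ) (G : Finset ι) :
    Set (Fin d → ℝ) :=
  convexHull ℝ {x | ∃ g ∈ G, ∃ k, x = c g + a g k ∨ x = c g - a g k}

end MP4f30eb
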