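import Pool.Agent.Lib.MP_4f30eb_co.Defs
/-! Task I: volume. -/
namespace MP4f30eb
open Finset MeasureTheory
open scoped BigOperators Matrix Classical

/-- a linear image of a cube, translated -/
theorem I_volume_image {d : ℕ} (M : Matrix (Fin d) (Fin d) ℝ) (r : ℝ) (hr : 0 ≤ r)
    (x0 : Fin d → ℝ) :
    volume ((fun y : Fin d → ℝ => y + (-x0)) ⁻¹'
      ((Matrix.toLin' M) '' (Set.Icc (fun _ => -r) (fun _ => r)))) =
      ENNReal.ofReal ((2 * r) ^ d * |M.det|) := by
  rw [measure_preimage_add_right, Measure.addHaar_image_linearMap, LinearMap.det_toLin',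
    Real.volume_Icc_pi]
  have h1 : ∀ i : Fin d, ENNReal.ofReal (r - -r) = ENNReal.ofReal (2 * r) := by
    intro i
    congr 1
    ring
  rw [Finset.prod_congr rfl (fun i _ => h1 i), Finset.prod_const, Finset.card_univ,
    Fintype.card_fin, ← ENNReal.ofReal_pow (by positivity), ← ENNReal.ofReal_mul (abs_nonneg _)]
  congr 1
  ring

/-- I2 -/
theorem volume_cross {d : ℕ} (hd : 1 ≤ d) (q : Fin d → ℝ) (u : Fin d → Fin d → ℝ) :
    ENNReal.ofReal ((2 / d) ^ d * |(Matrix.of u).det|) ≤
      volume (convexHull ℝ {x | ∃ k, x = q + u k ∨ x = q - u k}) := by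
  have hd0 : (0 : ℝ) < d := by exact_mod_cast hd
  have h1 := I_volume_image (Matrix.of u)ᵀ (1 / d) (by positivity) q
  rw [Matrix.det_transpose] at h1
  have h2 : (2 / d : ℝ) = 2 * (1 / d) := by ring
  rw [h2, ← h1]
  apply measure_mono
  rintro x ⟨t, ht, hx⟩
  simp only [Set.mem_Icc] at ht
  obtain ⟨ht1, ht2⟩ := ht
  -- weights
  have hx' : x = q + ∑ k, t k • u k := by
    have h3 : (Matrix.toLin' (Matrix.of u)ᵀ) t = ∑ k, t k • u k := by
      rw [Matrix.toLin'_apply]
      ext i
      simp only [Matrix.mulVec, dotProduct, Matrix.transpose_apply, Matrix.of_apply,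
        Finset.sum_apply, Pi.smul_apply, smul_eq_mul]
      exact Finset.sum_congr rfl (fun k _ => mul_comm _ _)
    rw [← h3, hx]
    simp only
    abel
  have hsum : x = ∑ p : Fin d × Bool, ((1 / d + sg p.2 * t p.1) / 2) • (q + sg p.2 • u p.1) := by
    rw [Fintype.sum_prod_type]
    simp only [Fintype.sum_bool, sg, if_true, Bool.false_eq_true, if_false]
    rw [hx']
    have h4 : ∀ k : Fin d, ((1 / (d : ℝ) + 1 * t k) / 2) • (q + (1 : ℝ) • u k) +
        ((1 / (d : ℝ) + -1 * t k) / 2) • (q + (-1 : ℝ) • u k) = (1 / (d : ℝ)) • q + t k • u k := by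
      intro k
      module
    rw [Finset.sum_congr rfl (fun k _ => h4 k), Finset.sum_add_distrib, Finset.sum_const,
      Finset.card_univ, Fintype.card_fin]
    have h5 : d • (1 / (d : ℝ)) • q = q := by
      rw [← Nat.cast_smul_eq_nsmul ℝ, smul_smul, mul_one_div_cancel hd0.ne', one_smul]
    rw [h5]
  rw [hsum]
  apply (convex_convexHull ℝ _).sum_mem
  · rintro ⟨k, b⟩ _
    have h5 := ht1 k
    have h6 := ht2 k
    simp only at h5 h6
    cases b
    · simp only [sg, Bool.false_eq_true, if_false]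
      linarith
    · simp only [sg, if_true]
      linarith
  · rw [Fintype.sum_prod_type]
    simp only [Fintype.sum_bool, sg, if_true, Bool.false_eq_true, if_false]
    have h4 : ∀ k : Fin d, ((1 / (d : ℝ) + 1 * t k) / 2) + ((1 / (d : ℝ) + -1 * t k) / 2) =
        1 / (d : ℝ) := by
      intro k
      ring
    rw [Finset.sum_congr rfl (fun k _ => h4 k), Finset.sum_const, Finset.card_univ,
      Fintype.card_fin, nsmul_eq_mul, mul_one_div_cancel hd0.ne']
  · rintro ⟨k, b⟩ _
    apply subset_convexHull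
    refine ⟨k, ?_⟩
    cases b
    · right
      simp only [sg, Bool.false_eq_true, if_false]
      module
    · left
      simp only [sg, if_true]
      module

/-- the determinant of the simplex -/
def I_sd {d : ℕ} (x0 : Fin d → ℝ) (x : Fin d → Fin d → ℝ) : ℝ :=
  |(Matrix.of fun i => x i - x0).det|

/-- a nonzero simplex -/
theorem I_pos {d : ℕ} (A : Set (Fin d → ℝ)) (hA : Convex ℝ A) (hv : volume A = 1) :
    ∃ x0 ∈ A, ∃ x : Fin d → Fin d → ℝ, (∀ i, x i ∈ A) ∧ 0 < I_sd x0 x := by
  have h1 : affineSpan ℝ A = ⊤ := by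
    by_contra hne
    have h2 := Measure.addHaar_affineSubspace (volume : Measure (Fin d → ℝ)) _ hne
    have h3 : volume A ≤ volume ((affineSpan ℝ A : AffineSubspace ℝ (Fin d → ℝ)) :
        Set (Fin d → ℝ)) := measure_mono (subset_affineSpan ℝ A)
    rw [h2, hv] at h3
    exact absurd h3 (by norm_num)
  have h2 : (interior A).Nonempty := hA.interior_nonempty_iff_affineSpan_eq_top.mpr h1
  obtain ⟨x0, hx0⟩ := h2
  rw [mem_interior_iff_mem_nhds, Metric.mem_nhds_iff] at hx0
  obtain ⟨ε, hε, hball⟩ := hx0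
  refine ⟨x0, hball (Metric.mem_ball_self hε), fun i => x0 + (ε / 2) • Pi.single i (1 : ℝ), ?_, ?_⟩
  · intro i
    apply hball
    rw [Metric.mem_ball, dist_eq_norm, add_sub_cancel_left, norm_smul]
    have h3 : ‖(Pi.single i (1 : ℝ) : Fin d → ℝ)‖ ≤ 1 := by
      rw [pi_norm_le_iff_of_nonneg zero_le_one]
      intro j
      rcases eq_or_ne j i with h | h
      · subst h; simp
      · rw [Pi.single_eq_of_ne h]; simp
    have h4 : ‖ε / 2‖ = ε / 2 := by rw [Real.norm_eq_abs, abs_of_pos (by positivity)]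
    rw [h4]
    nlinarith
  · unfold I_sd
    have h3 : (Matrix.of fun i => (x0 + (ε / 2) • Pi.single i (1 : ℝ)) - x0) =
        (ε / 2) • (1 : Matrix (Fin d) (Fin d) ℝ) := by
      ext i j
      simp only [Matrix.of_apply, add_sub_cancel_left, Pi.smul_apply, Matrix.smul_apply,
        Matrix.one_apply, Pi.single_apply, smul_eq_mul]
      by_cases h : i = j
      · subst h; simp
      · rw [if_neg h, if_neg (Ne.symm h)]
    rw [h3, Matrix.det_smul, Matrix.det_one, mul_one, abs_pos]
    positivity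

/-- a large simplex -/
theorem I_large {d : ℕ} (A : Set (Fin d → ℝ)) (hA : Convex ℝ A) (hv : volume A = 1) :
    ∃ x0 ∈ A, ∃ x : Fin d → Fin d → ℝ, (∀ i, x i ∈ A) ∧ (1 / 4 : ℝ) ^ d ≤ I_sd x0 x := by
  by_contra hcon
  push Not at hcon
  let Sset : Set ℝ := {s | ∃ x0 ∈ A, ∃ x : Fin d → Fin d → ℝ, (∀ i, x i ∈ A) ∧ s = I_sd x0 x}
  have hbdd : BddAbove Sset := by
    refine ⟨(1 / 4 : ℝ) ^ d, ?_⟩
    rintro s ⟨x0, hx0, x, hx, rfl⟩
    exact (hcon x0 hx0 x hx).le
  obtain ⟨y0, hy0, y, hy, hypos⟩ := I_pos A hA hv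
  have hne : Sset.Nonempty := ⟨_, y0, hy0, y, hy, rfl⟩
  have hspos : 0 < sSup Sset := lt_of_lt_of_le hypos (le_csSup hbdd ⟨y0, hy0, y, hy, rfl⟩)
  obtain ⟨s, ⟨x0, hx0, x, hx, rfl⟩, hs⟩ := exists_lt_of_lt_csSup hne
    (show sSup Sset / 2 < sSup Sset by linarith)
  set M : Matrix (Fin d) (Fin d) ℝ := Matrix.of fun i => x i - x0 with hM
  have hdet : 0 < |M.det| := by
    have : sSup Sset / 2 < |M.det| := hs
    linarith
  have hdet0 : M.det ≠ 0 := abs_pos.mp hdet
  have hsub : A ⊆ (fun y : Fin d → ℝ => y + (-x0)) ⁻¹'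
      ((Matrix.toLin' Mᵀ) '' (Set.Icc (fun _ => -(2 : ℝ)) (fun _ => (2 : ℝ)))) := by
    intro z hz
    have hb : ∀ i, |(M.updateRow i (z - x0)).det| ≤ 2 * |M.det| := by
      intro i
      have h1 : I_sd x0 (Function.update x i z) ≤ sSup Sset := by
        apply le_csSup hbdd
        refine ⟨x0, hx0, Function.update x i z, ?_, rfl⟩
        intro j
        rcases eq_or_ne j i with h | h
        · subst h; rw [Function.update_self]; exact hz
        · rw [Function.update_of_ne h]; exact hx j
      have h2 : (Matrix.of fun j => Function.update x i z j - x0) = M.updateRow i (z - x0) := by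
        ext j k
        rw [Matrix.updateRow_apply]
        by_cases h : j = i
        · subst h
          rw [if_pos rfl, Matrix.of_apply, Function.update_self]
        · rw [if_neg h, Matrix.of_apply, Function.update_of_ne h, hM, Matrix.of_apply]
      unfold I_sd at h1
      rw [h2] at h1
      have h3 : sSup Sset / 2 < |M.det| := hs
      linarith
    refine ⟨fun i => (M.updateRow i (z - x0)).det / M.det, ?_, ?_⟩
    · have h4 : ∀ i, |(M.updateRow i (z - x0)).det / M.det| ≤ 2 := by
        intro i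
        rw [abs_div, div_le_iff₀ hdet]
        exact hb i
      constructor
      · intro i
        exact (abs_le.mp (h4 i)).1
      · intro i
        exact (abs_le.mp (h4 i)).2
    · have h5 := Matrix.mulVec_cramer Mᵀ (z - x0)
      rw [Matrix.det_transpose] at h5
      have h6 : (fun i => (M.updateRow i (z - x0)).det / M.det) =
          (M.det)⁻¹ • (Mᵀ.cramer (z - x0)) := by
        ext i
        rw [Pi.smul_apply, Matrix.cramer_transpose_apply, smul_eq_mul]
        field_simp
      rw [h6, Matrix.toLin'_apply, Matrix.mulVec_smul, h5, smul_smul, inv_mul_cancel₀ hdet0,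
        one_smul]
      simp only
      abel
  have h7 := (measure_mono hsub).trans (I_volume_image Mᵀ 2 (by norm_num) x0).le
  rw [hv, Matrix.det_transpose] at h7
  have h8 : I_sd x0 x < (1 / 4 : ℝ) ^ d := hcon x0 hx0 x hx
  have h9 : (2 * 2 : ℝ) ^ d * |M.det| < 1 := by
    have h10 : |M.det| < (1 / 4 : ℝ) ^ d := h8
    have h11 : (0 : ℝ) < (2 * 2) ^ d := by positivity
    have h12 : (2 * 2 : ℝ) ^ d * (1 / 4) ^ d = 1 := by
      rw [← mul_pow]; norm_num
    calc (2 * 2 : ℝ) ^ d * |M.det| < (2 * 2) ^ d * (1 / 4) ^ d := by gcongr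
      _ = 1 := h12
  have h13 : ENNReal.ofReal ((2 * 2 : ℝ) ^ d * |M.det|) < 1 := by
    rw [← ENNReal.ofReal_one]
    exact (ENNReal.ofReal_lt_ofReal_iff one_pos).mpr h9
  exact absurd (lt_of_le_of_lt h7 h13) (lt_irrefl _)

/-- I1 -/
theorem exists_frame {d : ℕ} (hd : 1 ≤ d) (A : Set (Fin d → ℝ)) (hA : Convex ℝ A)
    (hv : volume A = 1) :
    ∃ (c : Fin d → ℝ) (a : Fin d → Fin d → ℝ), (∀ k, c + a k ∈ A ∧ c - a k ∈ A) ∧
      (1 / (8 * d) ^ d : ℝ) ≤ |(Matrix.of a).det| := by
  obtain ⟨x0, hx0, x, hx, hdet⟩ := I_large A hA hv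
  have hd0 : (0 : ℝ) < d := by exact_mod_cast hd
  have hd1 : (1 : ℝ) ≤ d := by exact_mod_cast hd
  -- nonnegative combinations with total weight at most one
  have hcomb : ∀ w : Fin d → ℝ, (∀ i, 0 ≤ w i) → ∑ i, w i ≤ 1 →
      x0 + ∑ i, w i • (x i - x0) ∈ A := by
    intro w hw hw1
    have h1 : x0 + ∑ i, w i • (x i - x0) =
        ∑ o : Option (Fin d), (o.elim (1 - ∑ i, w i) w) • (o.elim x0 x) := by
      rw [Fintype.sum_option]
      simp only [Option.elim]
      rw [Finset.sum_congr rfl (fun i _ => smul_sub (w i) (x i) x0), Finset.sum_sub_distrib,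
        ← Finset.sum_smul]
      module
    rw [h1]
    apply hA.sum_mem
    · rintro (_ | i) _
      · simp only [Option.elim]; linarith
      · exact hw i
    · rw [Fintype.sum_option]
      simp only [Option.elim]
      ring
    · rintro (_ | i) _
      · exact hx0
      · exact hx i
  have hs : ∑ _i : Fin d, (1 / (2 * d) : ℝ) = 1 / 2 := by
    rw [Finset.sum_const, Finset.card_univ, Fintype.card_fin, nsmul_eq_mul]
    field_simp
  refine ⟨x0 + ∑ i, (1 / (2 * d) : ℝ) • (x i - x0), fun k => (1 / (2 * d) : ℝ) • (x k - x0),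
    ?_, ?_⟩
  · intro k
    have hk : (1 / (2 * d) : ℝ) ≤ 1 / 2 := by
      apply one_div_le_one_div_of_le (by norm_num)
      linarith
    constructor
    · have h2 := hcomb (fun i => (1 / (2 * d) : ℝ) + (if i = k then (1 / (2 * d) : ℝ) else 0))
        (by intro i; positivity) (by
          rw [Finset.sum_add_distrib, hs, Finset.sum_ite_eq' Finset.univ k, if_pos (mem_univ k)]
          linarith)
      have h3 : x0 + ∑ i, ((1 / (2 * d) : ℝ) + (if i = k then (1 / (2 * d) : ℝ) else 0)) • (x i - x0) =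
          x0 + ∑ i, (1 / (2 * d) : ℝ) • (x i - x0) + (1 / (2 * d) : ℝ) • (x k - x0) := by
        rw [Finset.sum_congr rfl (fun i _ => add_smul (1 / (2 * d) : ℝ) _ (x i - x0)),
          Finset.sum_add_distrib, add_assoc]
        congr 2
        rw [Finset.sum_eq_single k]
        · rw [if_pos rfl]
        · intro i _ hi
          rw [if_neg hi, zero_smul]
        · intro h; exact absurd (mem_univ k) h
      rw [← h3]
      exact h2
    · have h2 := hcomb (fun i => (1 / (2 * d) : ℝ) + (if i = k then (-(1 / (2 * d)) : ℝ) else 0))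
        (by
          intro i
          by_cases h : i = k
          · simp [h]
          · simp only [if_neg h]; positivity) (by
          rw [Finset.sum_add_distrib, hs, Finset.sum_ite_eq' Finset.univ k, if_pos (mem_univ k)]
          have : (0 : ℝ) < 1 / (2 * d) := by positivity
          linarith)
      have h3 : x0 + ∑ i, ((1 / (2 * d) : ℝ) + (if i = k then (-(1 / (2 * d)) : ℝ) else 0)) • (x i - x0) =
          x0 + ∑ i, (1 / (2 * d) : ℝ) • (x i - x0) - (1 / (2 * d) : ℝ) • (x k - x0) := by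
        rw [Finset.sum_congr rfl (fun i _ => add_smul (1 / (2 * d) : ℝ) _ (x i - x0)),
          Finset.sum_add_distrib, sub_eq_add_neg, add_assoc, ← neg_smul]
        congr 2
        rw [Finset.sum_eq_single k]
        · rw [if_pos rfl]
        · intro i _ hi
          rw [if_neg hi, zero_smul]
        · intro h; exact absurd (mem_univ k) h
      rw [← h3]
      exact h2
  · have h4 : (Matrix.of fun k => (1 / (2 * d) : ℝ) • (x k - x0)) =
        (1 / (2 * d) : ℝ) • (Matrix.of fun k => x k - x0) := by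
      ext i j
      simp
    rw [h4, Matrix.det_smul, Fintype.card_fin, abs_mul, abs_of_nonneg (by positivity)]
    have h5 : (1 / (8 * d) ^ d : ℝ) = (1 / (2 * d)) ^ d * (1 / 4) ^ d := by
      rw [← mul_pow, ← one_div_pow]
      congr 1
      field_simp
      norm_num
    rw [h5]
    unfold I_sd at hdet
    gcongr

end MP4f30eb
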