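import Pool.Agent.Lib.MP_4f30eb_co.Defs
/-! Task G: centerpoint theorem (from `Convex.helly_theorem`). -/
namespace MP4f30eb
open Finset MeasureTheory
open scoped BigOperators Matrix Classical

private lemma G_hat_dot {d : ℕ} (y : Fin d → ℝ) (w : Fin (d + 1) → ℝ) :
    hat y ⬝ᵥ w = w 0 + y ⬝ᵥ (Fin.tail w) := by
  simp [hat, dotProduct, Fin.sum_univ_succ, Fin.tail]

theorem centerpoint {J : Type} (d : ℕ) (S : Finset J) (x : J → Fin d → ℝ) :
    ∃ q : Fin d → ℝ, ∀ w : Fin (d + 1) → ℝ, 0 ≤ hat q ⬝ᵥ w →
      S.card ≤ (d + 1) * (S.filter (fun j => 0 ≤ hat (x j) ⬝ᵥ w)).card := by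
  set s : Finset (Finset J) := S.powerset.filter (fun B => d * S.card < (d + 1) * B.card) with hs
  have key : (⋂ B ∈ s, convexHull ℝ (x '' (B : Set J))).Nonempty := by
    apply Convex.helly_theorem' (𝕜 := ℝ)
    · intro B _
      exact convex_convexHull ℝ _
    · intro I hI hcard
      have hfr : Module.finrank ℝ (Fin d → ℝ) = d := by simp
      rw [hfr] at hcard
      by_cases hne : I.Nonempty
      · -- a common index
        have hsub : ∀ B ∈ I, B ⊆ S ∧ d * S.card < (d + 1) * B.card := by
          intro B hB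
          have := hI hB
          rw [hs, mem_filter, mem_powerset] at this
          exact this
        have hc1 : ∀ B ∈ I, (d + 1) * (S \ B).card < S.card := by
          intro B hB
          obtain ⟨h1, h2⟩ := hsub B hB
          have h3 : (S \ B).card + B.card = S.card := card_sdiff_add_card_eq_card h1
          have h4 : (d + 1) * (S \ B).card + (d + 1) * B.card = (d + 1) * S.card := by
            rw [← Nat.mul_add, h3]
          have h5 : (d + 1) * S.card = d * S.card + S.card := by ring
          omega
        have hsum : (d + 1) * ∑ B ∈ I, (S \ B).card < (d + 1) * S.card := by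
          rw [mul_sum]
          calc ∑ B ∈ I, (d + 1) * (S \ B).card < ∑ _B ∈ I, S.card :=
                sum_lt_sum_of_nonempty hne hc1
            _ = I.card * S.card := by rw [sum_const, smul_eq_mul]
            _ ≤ (d + 1) * S.card := Nat.mul_le_mul_right _ hcard
        have hlt : (I.biUnion fun B => S \ B).card < S.card :=
          lt_of_le_of_lt card_biUnion_le (lt_of_mul_lt_mul_left hsum (Nat.zero_le _))
        obtain ⟨j, hjS, hj⟩ : ∃ j ∈ S, j ∉ I.biUnion fun B => S \ B := by
          by_contra hcon
          push Not at hcon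
          exact absurd (card_le_card (fun j hj => hcon j hj)) (not_le.mpr hlt)
        refine ⟨x j, ?_⟩
        simp only [Set.mem_iInter]
        intro B hB
        apply subset_convexHull
        refine ⟨j, ?_, rfl⟩
        by_contra hjB
        apply hj
        rw [mem_biUnion]
        exact ⟨B, hB, mem_sdiff.mpr ⟨hjS, by simpa using hjB⟩⟩
      · rw [not_nonempty_iff_eq_empty] at hne
        subst hne
        simp
  obtain ⟨q, hq⟩ := key
  refine ⟨q, fun w hw => ?_⟩
  by_contra hcon
  push Not at hcon
  set B : Finset J := S.filter (fun j => ¬ 0 ≤ hat (x j) ⬝ᵥ w) with hB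
  have hcardB : (S.filter (fun j => 0 ≤ hat (x j) ⬝ᵥ w)).card + B.card = S.card :=
    card_filter_add_card_filter_not (s := S) (fun j => 0 ≤ hat (x j) ⬝ᵥ w)
  have hBs : B ∈ s := by
    rw [hs, mem_filter, mem_powerset]
    refine ⟨filter_subset _ _, ?_⟩
    have h4 : (d + 1) * (S.filter (fun j => 0 ≤ hat (x j) ⬝ᵥ w)).card + (d + 1) * B.card
        = (d + 1) * S.card := by
      rw [← Nat.mul_add, hcardB]
    have h5 : (d + 1) * S.card = d * S.card + S.card := by ring
    omega
  have hqB : q ∈ convexHull ℝ (x '' (B : Set J)) := by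
    simp only [Set.mem_iInter] at hq
    exact hq B hBs
  have hconv : Convex ℝ {y : Fin d → ℝ | y ⬝ᵥ (Fin.tail w) < - w 0} := by
    have : {y : Fin d → ℝ | y ⬝ᵥ (Fin.tail w) < - w 0}
        = {y | (∑ i, Fin.tail w i • LinearMap.proj (R := ℝ) (φ := fun _ : Fin d => ℝ) i) y
            < - w 0} := by
      ext y
      simp [dotProduct, mul_comm]
    rw [this]
    exact convex_halfSpace_lt (LinearMap.isLinear _) _
  have hsubset : x '' (B : Set J) ⊆ {y : Fin d → ℝ | y ⬝ᵥ (Fin.tail w) < - w 0} := by
    rintro _ ⟨j, hj, rfl⟩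
    have hj' : ¬ 0 ≤ hat (x j) ⬝ᵥ w := by
      have : j ∈ B := by simpa using hj
      rw [hB, mem_filter] at this
      exact this.2
    rw [G_hat_dot] at hj'
    simp only [Set.mem_setOf_eq]
    linarith [not_le.mp hj']
  have h6 := convexHull_min hsubset hconv hqB
  rw [G_hat_dot] at hw
  simp only [Set.mem_setOf_eq] at h6
  linarith

end MP4f30eb
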