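import Pool.Agent.Lib.MP_4f30eb_co.Defs
/-! Task H: the node lemma. -/
namespace MP4f30eb
open Finset MeasureTheory
open scoped BigOperators Matrix Classical

theorem H_center_mem {ι : Type} {d : ℕ} (c : ι → Fin d → ℝ) (a : ι → Fin d → Fin d → ℝ)
    (G : Finset ι) {g : ι} (hg : g ∈ G) (k : Fin d) : c g ∈ Kset c a G := by
  have h1 : c g + a g k ∈ Kset c a G := subset_convexHull ℝ _ ⟨g, hg, k, Or.inl rfl⟩
  have h2 : c g - a g k ∈ Kset c a G := subset_convexHull ℝ _ ⟨g, hg, k, Or.inr rfl⟩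
  have h3 := (convex_convexHull ℝ _) h1 h2 (a := 1/2) (b := 1/2) (by norm_num) (by norm_num)
    (by norm_num)
  have h4 : (1/2 : ℝ) • (c g + a g k) + (1/2 : ℝ) • (c g - a g k) = c g := by
    ext i
    simp only [Pi.add_apply, Pi.smul_apply, Pi.sub_apply, smul_eq_mul]
    ring
  rw [h4] at h3
  exact h3

/-- weights: one point of a convex combination can be moved -/
theorem H_move {d : ℕ} (K : Set (Fin d → ℝ)) (hK : Convex ℝ K) {J : Type}
    [Fintype J] (z : J → Fin d → ℝ) (w : J → ℝ) (hw : ∀ j, 0 < w j) (hw1 : ∑ j, w j = 1)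
    (q : Fin d → ℝ) (hq : ∑ j, w j • z j = q) (hz : ∀ j, z j ∈ K) (j0 : J) (y : Fin d → ℝ)
    (hy : z j0 + y ∈ K) (t : ℝ) (ht0 : 0 ≤ t) (ht : t ≤ w j0) : q + t • y ∈ K := by
  have hqK : q ∈ K := by
    rw [← hq]
    exact hK.sum_mem (fun j _ => (hw j).le) hw1 (fun j _ => hz j)
  have h1 : q + w j0 • y ∈ K := by
    have h2 : q + w j0 • y = ∑ j, w j • (if j = j0 then z j + y else z j) := by
      have h3 : ∀ j, w j • (if j = j0 then z j + y else z j)
          = w j • z j + (if j = j0 then w j • y else 0) := by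
        intro j
        by_cases h : j = j0
        · simp [h, smul_add]
        · simp [h]
      rw [Finset.sum_congr rfl (fun j _ => h3 j), Finset.sum_add_distrib, hq]
      simp
    rw [h2]
    refine hK.sum_mem (fun j _ => (hw j).le) hw1 (fun j _ => ?_)
    by_cases h : j = j0
    · rw [if_pos h, h]; exact hy
    · rw [if_neg h]; exact hz j
  have h4 : q + t • y = (1 - t / w j0) • q + (t / w j0) • (q + w j0 • y) := by
    ext i
    simp only [Pi.add_apply, Pi.smul_apply, smul_eq_mul]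
    have := (hw j0).ne'
    field_simp
    ring
  rw [h4]
  refine hK hqK h1 ?_ (div_nonneg ht0 (hw j0).le) (by ring)
  have : t / w j0 ≤ 1 := (div_le_one (hw j0)).2 ht
  linarith

/-- H1 -/
theorem node_good {ι : Type} {d : ℕ} (c : ι → Fin d → ℝ) (a : ι → Fin d → Fin d → ℝ)
    (G : Finset ι) (q : Fin d → ℝ) (m : ℕ)
    (hdeep : ∀ w : Fin (d + 1) → ℝ, 0 ≤ hat q ⬝ᵥ w →
      m ≤ (G.filter (fun g => 0 ≤ hat (c g) ⬝ᵥ w)).card) :
    m ≤ (G.filter (fun g => ∀ k, q + (1 / (d + 1) : ℝ) • a g k ∈ Kset c a G ∧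
      q - (1 / (d + 1) : ℝ) • a g k ∈ Kset c a G)).card := by
  by_contra hcon
  set Good : Finset ι := G.filter (fun g => ∀ k, q + (1 / (d + 1) : ℝ) • a g k ∈ Kset c a G ∧
      q - (1 / (d + 1) : ℝ) • a g k ∈ Kset c a G) with hGood
  have hlt : Good.card < m := not_le.1 hcon
  -- q is in the hull of the bad centres
  have hmem : q ∈ convexHull ℝ (c '' ((G \ Good : Finset ι) : Set ι)) := by
    by_contra hq
    have hfin : (c '' ((G \ Good : Finset ι) : Set ι)).Finite :=
      (Finset.finite_toSet _).image _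
    have hclosed : IsClosed (convexHull ℝ (c '' ((G \ Good : Finset ι) : Set ι))) :=
      hfin.isClosed_convexHull ℝ
    obtain ⟨f, u, hf1, hf2⟩ := geometric_hahn_banach_closed_point (convex_convexHull ℝ _) hclosed hq
    set v : Fin d → ℝ := fun i => f (Pi.single i 1) with hv
    have hfv : ∀ x : Fin d → ℝ, f x = x ⬝ᵥ v := by
      intro x
      have hx : x = ∑ i, x i • (Pi.single i (1:ℝ) : Fin d → ℝ) := by
        ext j
        simp [Finset.sum_apply, Pi.single_apply]
      conv_lhs => rw [hx]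
      rw [map_sum]
      simp [dotProduct, hv]
    have hhat : ∀ x : Fin d → ℝ, hat x ⬝ᵥ (Fin.cons (-u) v : Fin (d+1) → ℝ) = f x - u := by
      intro x
      rw [hfv]
      simp [hat, dotProduct, Fin.sum_univ_succ]
      ring
    have h1 := hdeep (Fin.cons (-u) v) (by rw [hhat]; linarith)
    have h2 : G.filter (fun g => 0 ≤ hat (c g) ⬝ᵥ (Fin.cons (-u) v : Fin (d+1) → ℝ)) ⊆ Good := by
      intro g hg
      rw [Finset.mem_filter] at hg
      by_contra hgg
      have h3 : c g ∈ convexHull ℝ (c '' ((G \ Good : Finset ι) : Set ι)) :=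
        subset_convexHull ℝ _ ⟨g, by simp [hg.1, hgg], rfl⟩
      have h4 := hf1 _ h3
      have h5 := hg.2
      rw [hhat] at h5
      linarith
    have h3 := Finset.card_le_card h2
    omega
  obtain ⟨J, hJ, z, w, hz, hind, hw, hw1, hwz⟩ := eq_pos_convex_span_of_mem_convexHull hmem
  have hcard : Fintype.card J ≤ d + 1 := by
    have := hind.card_le_finrank_succ
    have h2 : Module.finrank ℝ (vectorSpan ℝ (Set.range z)) ≤ Module.finrank ℝ (Fin d → ℝ) :=
      Submodule.finrank_le _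
    rw [Module.finrank_fin_fun] at h2
    omega
  have hex : ∃ j, (1 / (d + 1) : ℝ) ≤ w j := by
    by_contra hno
    push Not at hno
    have hne : (Finset.univ : Finset J).Nonempty := by
      by_contra h
      rw [Finset.not_nonempty_iff_eq_empty] at h
      rw [h] at hw1
      simp at hw1
    have h1 : ∑ j, w j < ∑ _j : J, (1 / (d + 1) : ℝ) :=
      Finset.sum_lt_sum_of_nonempty hne (fun j _ => hno j)
    rw [hw1, Finset.sum_const, Finset.card_univ, nsmul_eq_mul] at h1
    have h2 : (Fintype.card J : ℝ) ≤ d + 1 := by exact_mod_cast hcard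
    have h3 : (Fintype.card J : ℝ) * (1 / (d + 1) : ℝ) ≤ 1 := by
      rw [mul_one_div, div_le_one (by positivity)]
      exact h2
    linarith
  obtain ⟨j0, hj0⟩ := hex
  have hzj : ∀ j, ∃ g ∈ G \ Good, c g = z j := by
    intro j
    obtain ⟨g, hg, hg2⟩ := hz ⟨j, rfl⟩
    exact ⟨g, by simpa using hg, hg2⟩
  obtain ⟨g, hg, hgz⟩ := hzj j0
  rw [Finset.mem_sdiff] at hg
  apply hg.2
  rw [hGood, Finset.mem_filter]
  refine ⟨hg.1, fun k => ?_⟩
  have hK : Convex ℝ (Kset c a G) := convex_convexHull ℝ _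
  have hzK : ∀ j, z j ∈ Kset c a G := by
    intro j
    obtain ⟨g', hg', hgz'⟩ := hzj j
    rw [← hgz']
    exact H_center_mem c a G (Finset.mem_sdiff.1 hg').1 k
  constructor
  · refine H_move _ hK z w hw hw1 q hwz hzK j0 (a g k) ?_ _ (by positivity) hj0
    rw [← hgz]
    exact subset_convexHull ℝ _ ⟨g, hg.1, k, Or.inl rfl⟩
  · have h1 := H_move _ hK z w hw hw1 q hwz hzK j0 (- a g k) (by
      rw [← hgz, ← sub_eq_add_neg]
      exact subset_convexHull ℝ _ ⟨g, hg.1, k, Or.inr rfl⟩) (1 / (d + 1) : ℝ) (by positivity) hj0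
    rwa [smul_neg, ← sub_eq_add_neg] at h1

/-- H2 -/
theorem shape_step {ι : Type} {d : ℕ} (hd : 1 ≤ d) (a : ι → Fin d → Fin d → ℝ) (H : Finset ι)
    (hH : H.Nonempty) (hdet : ∀ g ∈ H, (Matrix.of (a g)).det ≠ 0) :
    ∃ L : Fin d → Fin d → ℝ, (∀ g ∈ H, ∀ i k, |L i ⬝ᵥ a g k| ≤ 1) ∧
      ∀ x : Fin d → ℝ, (∀ i, |L i ⬝ᵥ x| ≤ 1) →
        (1 / d : ℝ) • x ∈ convexHull ℝ {y | ∃ g ∈ H, ∃ k, y = a g k ∨ y = - a g k} := by
  have hdR : (0:ℝ) < d := by exact_mod_cast hd
  -- choose the rows with maximal determinant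
  set T : Finset (Fin d → ι × Fin d) :=
    Fintype.piFinset (fun _ : Fin d => H ×ˢ (Finset.univ : Finset (Fin d))) with hT
  obtain ⟨g0, hg0⟩ := hH
  have hTne : T.Nonempty := ⟨fun i => (g0, i), by simp [hT, hg0]⟩
  obtain ⟨b, hbT, hbmax⟩ := Finset.exists_max_image T
    (fun b => |(Matrix.of (fun i => a (b i).1 (b i).2)).det|) hTne
  have hb0 : (Matrix.of (fun i => a (b i).1 (b i).2)).det ≠ 0 := by
    have h1 := hbmax (fun i => (g0, i)) (by simp [hT, hg0])
    intro h
    rw [h, abs_zero] at h1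
    have h2 : |(Matrix.of (fun i => a g0 i)).det| = 0 := le_antisymm h1 (abs_nonneg _)
    exact hdet g0 hg0 (abs_eq_zero.1 h2)
  set B : Matrix (Fin d) (Fin d) ℝ := Matrix.of (fun i => a (b i).1 (b i).2) with hB
  have hbH : ∀ i, (b i).1 ∈ H := by
    intro i
    have := (Fintype.mem_piFinset.1 hbT) i
    exact (Finset.mem_product.1 this).1
  -- the functionals
  have hunit : IsUnit B.det := isUnit_iff_ne_zero.2 hb0
  refine ⟨fun i j => (B⁻¹)ᵀ i j, ?_, ?_⟩
  · intro g hg i k
    have h1 : (fun j => (B⁻¹)ᵀ i j) ⬝ᵥ a g k = (B.updateRow i (a g k)).det / B.det := by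
      rw [Matrix.inv_def, Ring.inverse_eq_inv']
      have h2 : (B.updateRow i (a g k)).det = ∑ j, a g k j * B.adjugate j i := by
        rw [Matrix.det_eq_sum_mul_adjugate_row _ i]
        refine Finset.sum_congr rfl (fun j _ => ?_)
        rw [Matrix.updateRow_self, Matrix.adjugate_apply, Matrix.adjugate_apply,
          Matrix.updateRow_idem]
      rw [h2]
      simp only [dotProduct, Matrix.transpose_apply, Matrix.smul_apply, smul_eq_mul]
      rw [Finset.sum_div]
      refine Finset.sum_congr rfl (fun j _ => ?_)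
      field_simp
    rw [h1, abs_div]
    rw [div_le_one (abs_pos.2 hb0)]
    have h3 := hbmax (Function.update b i (g, k)) (by
      rw [hT, Fintype.mem_piFinset]
      intro j
      by_cases hj : j = i
      · subst hj; simp [hg]
      · rw [Function.update_of_ne hj]
        exact (Fintype.mem_piFinset.1 hbT) j)
    have h4 : (Matrix.of (fun j => a (Function.update b i (g, k) j).1
        (Function.update b i (g, k) j).2)) = B.updateRow i (a g k) := by
      ext j l
      by_cases hj : j = i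
      · subst hj; simp
      · simp [Matrix.updateRow_ne hj, Function.update_of_ne hj, hB]
    simp only [h4] at h3
    exact h3
  · intro x hx
    have hx1 : x = ∑ i, ((fun j => (B⁻¹)ᵀ i j) ⬝ᵥ x) • B i := by
      have h1 : Matrix.vecMul (Matrix.vecMul x B⁻¹) B = x := by
        rw [Matrix.vecMul_vecMul, Matrix.nonsing_inv_mul _ hunit, Matrix.vecMul_one]
      conv_lhs => rw [← h1]
      ext j
      simp only [Matrix.vecMul, dotProduct, Finset.sum_apply, Pi.smul_apply, smul_eq_mul,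
        Matrix.transpose_apply]
      refine Finset.sum_congr rfl (fun i _ => ?_)
      congr 1
      exact Finset.sum_congr rfl (fun l _ => mul_comm _ _)
    set lam : Fin d → ℝ := fun i => (fun j => (B⁻¹)ᵀ i j) ⬝ᵥ x with hlam
    have hconv := convex_convexHull ℝ {y | ∃ g ∈ H, ∃ k, y = a g k ∨ y = - a g k}
    have hpt : ∀ i, lam i • B i ∈ convexHull ℝ {y | ∃ g ∈ H, ∃ k, y = a g k ∨ y = - a g k} := by
      intro i
      have hp : B i ∈ convexHull ℝ {y | ∃ g ∈ H, ∃ k, y = a g k ∨ y = - a g k} :=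
        subset_convexHull ℝ _ ⟨(b i).1, hbH i, (b i).2, Or.inl rfl⟩
      have hn : - B i ∈ convexHull ℝ {y | ∃ g ∈ H, ∃ k, y = a g k ∨ y = - a g k} :=
        subset_convexHull ℝ _ ⟨(b i).1, hbH i, (b i).2, Or.inr rfl⟩
      have hl := abs_le.1 (hx i)
      have h1 : lam i • B i = ((1 + lam i) / 2) • B i + ((1 - lam i) / 2) • (- B i) := by
        ext j
        simp only [Pi.add_apply, Pi.smul_apply, Pi.neg_apply, smul_eq_mul]
        ring
      rw [h1]
      have hl1 : -1 ≤ lam i := hl.1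
      have hl2 : lam i ≤ 1 := hl.2
      exact hconv hp hn (by linarith) (by linarith) (by ring)
    have h2 : (1 / d : ℝ) • x = ∑ i : Fin d, (1 / d : ℝ) • (lam i • B i) := by
      rw [← Finset.smul_sum, ← hx1]
    rw [h2]
    refine hconv.sum_mem (fun i _ => by positivity) ?_ (fun i _ => hpt i)
    rw [Finset.sum_const, Finset.card_univ, Fintype.card_fin, nsmul_eq_mul]
    field_simp

/-- H3 -/
theorem node {ι : Type} {d : ℕ} (hd : 1 ≤ d) (c : ι → Fin d → ℝ) (a : ι → Fin d → Fin d → ℝ)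
    (F G S : Finset ι) (hGF : G ⊆ F) (hdet : ∀ g ∈ F, (Matrix.of (a g)).det ≠ 0)
    (q : Fin d → ℝ) (m : ℕ) (hm : 1 ≤ m)
    (hdeep : ∀ w : Fin (d + 1) → ℝ, 0 ≤ hat q ⬝ᵥ w →
      m ≤ (G.filter (fun g => 0 ≤ hat (c g) ⬝ᵥ w)).card)
    (hS : ∀ L : Fin d → Fin d → ℝ, m ≤ (F.filter (fun g => ∀ i k, |L i ⬝ᵥ a g k| ≤ 1)).card →
      ∃ s ∈ S, ∀ i k, |L i ⬝ᵥ a s k| ≤ 1) :
    ∃ s ∈ S, ∀ k, q + (1 / (d * (d + 1)) : ℝ) • a s k ∈ Kset c a G ∧
      q - (1 / (d * (d + 1)) : ℝ) • a s k ∈ Kset c a G := by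
  have hdR : (0:ℝ) < d := by exact_mod_cast hd
  have h1 := node_good c a G q m hdeep
  set Good : Finset ι := G.filter (fun g => ∀ k, q + (1 / (d + 1) : ℝ) • a g k ∈ Kset c a G ∧
      q - (1 / (d + 1) : ℝ) • a g k ∈ Kset c a G) with hGood
  have hne : Good.Nonempty := Finset.card_pos.1 (lt_of_lt_of_le hm h1)
  obtain ⟨L, hL1, hL2⟩ := shape_step hd a Good hne
    (fun g hg => hdet g (hGF (Finset.mem_filter.1 hg).1))
  obtain ⟨s, hs, hs2⟩ := hS L (h1.trans (Finset.card_le_card (fun g hg => by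
    rw [Finset.mem_filter]
    exact ⟨hGF (Finset.mem_filter.1 hg).1, fun i k => hL1 g hg i k⟩)))
  refine ⟨s, hs, fun k => ?_⟩
  have hK : Convex ℝ (Kset c a G) := convex_convexHull ℝ _
  have key : ∀ x : Fin d → ℝ, (∀ i, |L i ⬝ᵥ x| ≤ 1) →
      q + (1 / (d * (d + 1)) : ℝ) • x ∈ Kset c a G := by
    intro x hx
    have h2 := hL2 x hx
    have h3 : convexHull ℝ {y | ∃ g ∈ Good, ∃ k, y = a g k ∨ y = - a g k} ⊆
        {y : Fin d → ℝ | q + (1 / (d + 1) : ℝ) • y ∈ Kset c a G} := by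
      apply convexHull_min
      · rintro y ⟨g, hg, k, rfl | rfl⟩
        · exact ((Finset.mem_filter.1 hg).2 k).1
        · have := ((Finset.mem_filter.1 hg).2 k).2
          show q + (1 / (d + 1) : ℝ) • (- a g k) ∈ Kset c a G
          rwa [smul_neg, ← sub_eq_add_neg]
      · intro y1 hy1 y2 hy2 s t hs ht hst
        show q + (1 / (d + 1) : ℝ) • (s • y1 + t • y2) ∈ Kset c a G
        have h4 := hK hy1 hy2 hs ht hst
        have h5 : s • (q + (1 / (d + 1) : ℝ) • y1) + t • (q + (1 / (d + 1) : ℝ) • y2)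
            = q + (1 / (d + 1) : ℝ) • (s • y1 + t • y2) := by
          have h6 : s = 1 - t := by linarith
          subst h6
          ext i
          simp only [Pi.add_apply, Pi.smul_apply, smul_eq_mul]
          ring
        rwa [h5] at h4
    have h4 := h3 h2
    have h5 : (1 / (d + 1) : ℝ) • ((1 / d : ℝ) • x) = (1 / (d * (d + 1)) : ℝ) • x := by
      rw [smul_smul]
      congr 1
      field_simp
    have h6 : q + (1 / (d + 1) : ℝ) • ((1 / d : ℝ) • x) ∈ Kset c a G := h4
    rwa [h5] at h6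
  refine ⟨key _ (fun i => hs2 i k), ?_⟩
  have h7 := key (- a s k) (fun i => by rw [dotProduct_neg, abs_neg]; exact hs2 i k)
  rwa [smul_neg, ← sub_eq_add_neg] at h7

end MP4f30eb
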