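import Pool.Agent.Lib.MP_4f30eb_co.S_F2
import Pool.Agent.Lib.MP_4f30eb_co.S_G
import Pool.Agent.Lib.MP_4f30eb_co.S_H
/-! Task J: the recursion. -/
namespace MP4f30eb
open Finset MeasureTheory
open scoped BigOperators Matrix Classical

theorem Kset_mono {ι : Type} {d : ℕ} (c : ι → Fin d → ℝ) (a : ι → Fin d → Fin d → ℝ)
    {G G' : Finset ι} (h : G' ⊆ G) : Kset c a G' ⊆ Kset c a G := by
  apply convexHull_mono
  rintro x ⟨g, hg, k, hk⟩
  exact ⟨g, h hg, k, hk⟩

/-- the pair `(q, s)` fits into `G` -/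
def Fits {ι : Type} {d : ℕ} (c : ι → Fin d → ℝ) (a : ι → Fin d → Fin d → ℝ) (G : Finset ι)
    (x : (Fin d → ℝ) × ι) : Prop :=
  ∀ k, x.1 + (1 / (d * (d + 1)) : ℝ) • a x.2 k ∈ Kset c a G ∧
    x.1 - (1 / (d * (d + 1)) : ℝ) • a x.2 k ∈ Kset c a G

theorem Fits_mono {ι : Type} {d : ℕ} {c : ι → Fin d → ℝ} {a : ι → Fin d → Fin d → ℝ}
    {G G' : Finset ι} (h : G' ⊆ G) {x : (Fin d → ℝ) × ι} (hx : Fits c a G' x) :
    Fits c a G x := fun k => ⟨Kset_mono c a h (hx k).1, Kset_mono c a h (hx k).2⟩

theorem Fits_self {ι : Type} {d : ℕ} (hd : 1 ≤ d) (c : ι → Fin d → ℝ)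
    (a : ι → Fin d → Fin d → ℝ) (G : Finset ι) (g : ι) (hg : g ∈ G) :
    Fits c a G (c g, g) := by
  have hdR : (1 : ℝ) ≤ d := by exact_mod_cast hd
  set t : ℝ := 1 / (d * (d + 1)) with ht
  have ht0 : 0 ≤ t := by positivity
  have ht1 : t ≤ 1 := by
    rw [ht, div_le_one (by positivity)]
    nlinarith
  intro k
  have h1 : c g + a g k ∈ Kset c a G := subset_convexHull ℝ _ ⟨g, hg, k, Or.inl rfl⟩
  have h2 : c g - a g k ∈ Kset c a G := subset_convexHull ℝ _ ⟨g, hg, k, Or.inr rfl⟩
  have hconv : Convex ℝ (Kset c a G) := convex_convexHull ℝ _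
  constructor
  · have := hconv h1 h2 (a := (1 + t) / 2) (b := (1 - t) / 2) (by linarith) (by linarith)
      (by ring)
    convert this using 1
    show c g + t • a g k = _
    ext j
    simp only [Pi.add_apply, Pi.smul_apply, Pi.sub_apply, smul_eq_mul]
    ring
  · have := hconv h1 h2 (a := (1 - t) / 2) (b := (1 + t) / 2) (by linarith) (by linarith)
      (by ring)
    convert this using 1
    show c g - t • a g k = _
    ext j
    simp only [Pi.add_apply, Pi.smul_apply, Pi.sub_apply, smul_eq_mul]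
    ring

/-- The covering alternative at a node. -/
theorem node_cover {ι : Type} (r K : ℕ) (hr : 0 < r) (F G U : Finset ι)
    (𝓡 : Finset (Finset ι)) (h𝓡c : 𝓡.card ≤ 2 * r)
    (hU : ∀ g ∈ F, g ∉ U → ∃ R ∈ 𝓡, g ∈ R)
    (hGF : G ⊆ F) (hG : G.Nonempty) (h1 : 2 * (G ∩ U).card < G.card)
    (h2 : (𝓡.filter (fun R => G.card ≤ 8 * r * (G ∩ R).card)).card ≤ K) :
    ∃ R ∈ 𝓡, G.card ≤ 4 * K * (G ∩ R).card := by
  by_contra hcon
  push Not at hcon
  have hG0 : 0 < G.card := Finset.card_pos.2 hG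
  have hcov : G.card ≤ (G ∩ U).card + ∑ R ∈ 𝓡, (G ∩ R).card := by
    calc G.card ≤ ((G ∩ U) ∪ 𝓡.biUnion (fun R => G ∩ R)).card := by
          apply Finset.card_le_card
          intro g hg
          by_cases hgU : g ∈ U
          · exact Finset.mem_union_left _ (Finset.mem_inter.2 ⟨hg, hgU⟩)
          · obtain ⟨R, hR, hgR⟩ := hU g (hGF hg) hgU
            exact Finset.mem_union_right _ (Finset.mem_biUnion.2
              ⟨R, hR, Finset.mem_inter.2 ⟨hg, hgR⟩⟩)
      _ ≤ (G ∩ U).card + (𝓡.biUnion (fun R => G ∩ R)).card := Finset.card_union_le _ _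
      _ ≤ _ := Nat.add_le_add_left Finset.card_biUnion_le _
  set J := 𝓡.filter (fun R => G.card ≤ 8 * r * (G ∩ R).card) with hJ
  have hsplit : ∑ R ∈ 𝓡, (G ∩ R).card = ∑ R ∈ J, (G ∩ R).card +
      ∑ R ∈ 𝓡.filter (fun R => ¬ G.card ≤ 8 * r * (G ∩ R).card), (G ∩ R).card :=
    (Finset.sum_filter_add_sum_filter_not 𝓡 _ _).symm
  have hA : 4 * ∑ R ∈ J, (G ∩ R).card ≤ G.card := by
    rcases Nat.eq_zero_or_pos K with hK | hK
    · have : J = ∅ := by
        rw [← Finset.card_eq_zero]
        omega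
      rw [this]
      simp
    · have hb : ∑ R ∈ J, (4 * K * (G ∩ R).card) ≤ ∑ R ∈ J, G.card := by
        apply Finset.sum_le_sum
        intro R hR
        exact (hcon R (Finset.mem_filter.1 hR).1).le
      rw [← Finset.mul_sum, Finset.sum_const, smul_eq_mul] at hb
      have hc : J.card * G.card ≤ K * G.card := Nat.mul_le_mul_right _ h2
      have hd' : K * (4 * ∑ R ∈ J, (G ∩ R).card) ≤ K * G.card := by
        calc K * (4 * ∑ R ∈ J, (G ∩ R).card) = 4 * K * ∑ R ∈ J, (G ∩ R).card := by ring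
          _ ≤ _ := hb
          _ ≤ _ := hc
      exact Nat.le_of_mul_le_mul_left hd' hK
  have hB : 4 * ∑ R ∈ 𝓡.filter (fun R => ¬ G.card ≤ 8 * r * (G ∩ R).card), (G ∩ R).card ≤
      G.card := by
    set J' := 𝓡.filter (fun R => ¬ G.card ≤ 8 * r * (G ∩ R).card) with hJ'
    have hb : ∑ R ∈ J', (8 * r * (G ∩ R).card) ≤ ∑ R ∈ J', G.card := by
      apply Finset.sum_le_sum
      intro R hR
      have := (Finset.mem_filter.1 hR).2
      push Not at this
      exact this.le
    rw [← Finset.mul_sum, Finset.sum_const, smul_eq_mul] at hb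
    have hc : J'.card * G.card ≤ (2 * r) * G.card :=
      Nat.mul_le_mul_right _ ((Finset.card_filter_le _ _).trans h𝓡c)
    have hd' : (2 * r) * (4 * ∑ R ∈ J', (G ∩ R).card) ≤ (2 * r) * G.card := by
      calc (2 * r) * (4 * ∑ R ∈ J', (G ∩ R).card) = 8 * r * ∑ R ∈ J', (G ∩ R).card := by ring
        _ ≤ _ := hb
        _ ≤ _ := hc
    exact Nat.le_of_mul_le_mul_left hd' (by omega)
  omega

theorem recursion (d : ℕ) (hd : 2 ≤ d) (β : ℝ) (hβ : (d : ℝ) < β) :
    ∃ C : ℝ, 0 < C ∧ ∀ (ι : Type) (c : ι → Fin d → ℝ) (a : ι → Fin d → Fin d → ℝ)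
      (F : Finset ι), GP (fun g => hat (c g)) F → (∀ g ∈ F, (Matrix.of (a g)).det ≠ 0) →
      ∀ ε : ℝ, 0 < ε → ∃ N : Finset ((Fin d → ℝ) × ι), (N.card : ℝ) ≤ C * ε ^ (-β) ∧
        (∀ x ∈ N, x.2 ∈ F) ∧ ∀ G ⊆ F, G.Nonempty → ε * F.card ≤ G.card →
          ∃ x ∈ N, Fits c a G x := by
  have hd1 : 1 ≤ d := by omega
  have hdR : (2 : ℝ) ≤ d := by exact_mod_cast hd
  obtain ⟨r, κ, N₁, hr0, hfin, hκ0, hpart⟩ := partition d hd β hβ
  obtain ⟨CS, hCS, hnet⟩ := net (2 * d * d * (d + 1)) (β - 2) (by linarith)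
  have hβ0 : 0 < β := by linarith
  have hrR : (1 : ℝ) ≤ r := by exact_mod_cast hr0
  set K : ℕ := (d + 1) * κ with hK
  have hK0 : 0 < K := Nat.mul_pos (by omega) hκ0
  have hKR : (1 : ℝ) ≤ K := by exact_mod_cast hK0
  have hfin' : 2 * (r : ℝ) * (4 * K / r) ^ β ≤ 1 / 2 := by
    rw [hK]
    push_cast
    exact hfin
  -- growth of the density
  have hgrow : 1 < (r : ℝ) / (4 * K) := by
    by_contra hcon
    push Not at hcon
    have h1 : (1 : ℝ) ≤ 4 * K / r := by
      rw [div_le_one (by positivity)] at hcon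
      rw [one_le_div (by positivity)]
      exact hcon
    have h2 : (1 : ℝ) ≤ (4 * K / r) ^ β := Real.one_le_rpow h1 hβ0.le
    nlinarith
  set γ : ℝ := min ((r : ℝ) / (4 * K)) 4 with hγ
  have hγ1 : 1 < γ := lt_min hgrow (by norm_num)
  set A : ℝ := 2 ^ (2 * r) * (CS * (8 * r) ^ β) with hA
  have hA0 : 0 < A := by positivity
  set C : ℝ := 4 * (A + N₁) with hC
  have hC0 : 0 < C := by positivity
  refine ⟨C, hC0, ?_⟩
  intro ι c a
  suffices hmain : ∀ m : ℕ, ∀ F : Finset ι, GP (fun g => hat (c g)) F →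
      (∀ g ∈ F, (Matrix.of (a g)).det ≠ 0) →
      ∀ ε : ℝ, 0 < ε → 1 < ε * γ ^ m →
        ∃ N : Finset ((Fin d → ℝ) × ι), (N.card : ℝ) ≤ C * ε ^ (-β) ∧
        (∀ x ∈ N, x.2 ∈ F) ∧ ∀ G ⊆ F, G.Nonempty → ε * F.card ≤ G.card →
          ∃ x ∈ N, Fits c a G x by
    intro F hGP hdet ε hε
    obtain ⟨m, hm⟩ := pow_unbounded_of_one_lt (1 / ε) hγ1
    refine hmain m F hGP hdet ε hε ?_
    rw [div_lt_iff₀ hε] at hm
    linarith
  -- the trivial case of large density
  have htriv : ∀ F : Finset ι, ∀ ε : ℝ, 1 < ε →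
      ∃ N : Finset ((Fin d → ℝ) × ι), (N.card : ℝ) ≤ C * ε ^ (-β) ∧
        (∀ x ∈ N, x.2 ∈ F) ∧ ∀ G ⊆ F, G.Nonempty → ε * F.card ≤ G.card →
          ∃ x ∈ N, Fits c a G x := by
    intro F ε hε
    refine ⟨∅, ?_, by simp, ?_⟩
    · simp
      positivity
    · intro G hGF hG hεG
      exfalso
      have h1 : (G.card : ℝ) ≤ F.card := by exact_mod_cast Finset.card_le_card hGF
      have h2 : (0 : ℝ) < G.card := by exact_mod_cast Finset.card_pos.2 hG
      nlinarith
  intro m
  induction m with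
  | zero =>
    intro F _ _ ε _ hε1
    exact htriv F ε (by simpa using hε1)
  | succ m ih =>
    intro F hGP hdet ε hε hεm
    by_cases hε1 : 1 < ε
    · exact htriv F ε hε1
    push Not at hε1
    have hεβ : 1 ≤ ε ^ (-β) := Real.one_le_rpow_of_pos_of_le_one_of_nonpos hε hε1 (by linarith)
    by_cases hsmall : F.card < N₁
    · refine ⟨F.image (fun g => (c g, g)), ?_, ?_, ?_⟩
      · have h1 : ((F.image (fun g => (c g, g))).card : ℝ) ≤ F.card := by
          exact_mod_cast Finset.card_image_le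
        have h2 : (F.card : ℝ) ≤ N₁ := by exact_mod_cast hsmall.le
        have h3 : (N₁ : ℝ) ≤ C := by
          rw [hC]
          have : (0 : ℝ) ≤ N₁ := by positivity
          linarith
        nlinarith
      · intro x hx
        obtain ⟨g, hg, rfl⟩ := Finset.mem_image.1 hx
        exact hg
      · intro G hGF hG _
        obtain ⟨g, hg⟩ := hG
        exact ⟨(c g, g), Finset.mem_image.2 ⟨g, hGF hg, rfl⟩, Fits_self hd1 c a G g hg⟩
    push Not at hsmall
    obtain ⟨𝓡, ρ, h𝓡1, h𝓡2, h𝓡c, h𝓡U, h𝓡w⟩ := hpart ι c F hGP hsmall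
    set U := F.filter (fun g => ∀ R ∈ 𝓡, g ∉ R) with hU
    -- recursion on the leftover
    have hε4 : 1 < (4 * ε) * γ ^ m := by
      have h1 : γ ≤ 4 := min_le_right _ _
      have h2 : 0 < γ ^ m := pow_pos (by linarith) m
      calc 1 < ε * γ ^ (m + 1) := hεm
        _ = (γ * ε) * γ ^ m := by ring
        _ ≤ (4 * ε) * γ ^ m := by
          apply mul_le_mul_of_nonneg_right _ h2.le
          nlinarith
    obtain ⟨NU, hNU1, hNU2, hNU3⟩ := ih U (GP_mono hGP (Finset.filter_subset _ _))
      (fun g hg => hdet g (Finset.filter_subset _ _ hg)) (4 * ε) (by linarith) hε4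
    -- recursion on the classes
    set ε' : ℝ := ε * (r / (4 * K)) with hε'
    have hε'0 : 0 < ε' := by positivity
    have hε'1 : 1 < ε' * γ ^ m := by
      have h1 : γ ≤ r / (4 * K) := min_le_left _ _
      have h2 : 0 < γ ^ m := pow_pos (by linarith) m
      calc 1 < ε * γ ^ (m + 1) := hεm
        _ = (ε * γ) * γ ^ m := by ring
        _ ≤ ε' * γ ^ m := by
          apply mul_le_mul_of_nonneg_right _ h2.le
          exact mul_le_mul_of_nonneg_left h1 hε.le
    have hNR : ∀ R : Finset ι, R ∈ 𝓡 → ∃ N : Finset ((Fin d → ℝ) × ι),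
        (N.card : ℝ) ≤ C * ε' ^ (-β) ∧
        (∀ x ∈ N, x.2 ∈ R) ∧ ∀ G ⊆ R, G.Nonempty → ε' * R.card ≤ G.card →
          ∃ x ∈ N, Fits c a G x := by
      intro R hR
      exact ih R (GP_mono hGP (h𝓡1 R hR).1) (fun g hg => hdet g ((h𝓡1 R hR).1 hg)) ε' hε'0 hε'1
    choose! NR hNR1 hNR2 hNR3 using hNR
    -- the net of shapes
    have hη0 : 0 < ε / (8 * r) := by positivity
    have hη1 : ε / (8 * r) ≤ 1 := by
      rw [div_le_one (by positivity)]
      linarith
    obtain ⟨S, hSF, hSc, hS⟩ := hnet ι _ (TB_shape d a) F (ε / (8 * r)) hη0 hη1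
    -- the centerpoints
    have hq : ∀ J : Finset (Finset ι), ∃ q : Fin d → ℝ, ∀ w : Fin (d + 1) → ℝ,
        0 ≤ hat q ⬝ᵥ w → J.card ≤ (d + 1) * (J.filter (fun R => 0 ≤ hat (c (ρ R)) ⬝ᵥ w)).card :=
      fun J => centerpoint d J (fun R => c (ρ R))
    choose q hq using hq
    refine ⟨(𝓡.powerset ×ˢ S).image (fun x => (q x.1, x.2)) ∪ (𝓡.biUnion NR ∪ NU), ?_, ?_, ?_⟩
    · -- cardinality
      have c1 : (((𝓡.powerset ×ˢ S).image (fun x => (q x.1, x.2))).card : ℝ) ≤ A * ε ^ (-β) := by
        have e1 : (((𝓡.powerset ×ˢ S).image (fun x => (q x.1, x.2))).card : ℝ) ≤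
            2 ^ 𝓡.card * S.card := by
          have : ((𝓡.powerset ×ˢ S).image (fun x => (q x.1, x.2))).card ≤ 2 ^ 𝓡.card * S.card := by
            refine Finset.card_image_le.trans ?_
            rw [Finset.card_product, Finset.card_powerset]
          exact_mod_cast this
        have e2 : (2 : ℝ) ^ 𝓡.card ≤ 2 ^ (2 * r) := pow_le_pow_right₀ (by norm_num) h𝓡c
        have e3 : (S.card : ℝ) ≤ CS * (8 * r) ^ β * ε ^ (-β) := by
          have : (ε / (8 * r)) ^ (-(2 + (β - 2))) = (8 * (r : ℝ)) ^ β * ε ^ (-β) := by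
            have h1 : (-(2 + (β - 2)) : ℝ) = -β := by ring
            rw [h1, Real.div_rpow hε.le (by positivity), Real.rpow_neg (by positivity : (0 : ℝ) ≤ 8 * r)]
            rw [div_inv_eq_mul]
            ring
          rw [this] at hSc
          linarith
        calc _ ≤ (2 : ℝ) ^ 𝓡.card * S.card := e1
          _ ≤ 2 ^ (2 * r) * (CS * (8 * r) ^ β * ε ^ (-β)) :=
            mul_le_mul e2 e3 (by positivity) (by positivity)
          _ = A * ε ^ (-β) := by rw [hA]; ring
      have c2 : ((𝓡.biUnion NR).card : ℝ) ≤ C / 2 * ε ^ (-β) := by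
        have e1 : ((𝓡.biUnion NR).card : ℝ) ≤ ∑ R ∈ 𝓡, ((NR R).card : ℝ) := by
          exact_mod_cast Finset.card_biUnion_le
        have e2 : ∑ R ∈ 𝓡, ((NR R).card : ℝ) ≤ ∑ R ∈ 𝓡, (C * ε' ^ (-β)) :=
          Finset.sum_le_sum (fun R hR => hNR1 R hR)
        rw [Finset.sum_const, nsmul_eq_mul] at e2
        have e3 : ε' ^ (-β) = (4 * K / r) ^ β * ε ^ (-β) := by
          rw [hε', Real.mul_rpow hε.le (by positivity), mul_comm]
          congr 1
          rw [Real.rpow_neg (by positivity), ← Real.inv_rpow (by positivity), inv_div]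
        rw [e3] at e2
        have e4 : (𝓡.card : ℝ) ≤ 2 * r := by exact_mod_cast h𝓡c
        have e5 : (𝓡.card : ℝ) * (C * ((4 * K / r) ^ β * ε ^ (-β))) ≤
            (2 * r) * (C * ((4 * K / r) ^ β * ε ^ (-β))) :=
          mul_le_mul_of_nonneg_right e4 (by positivity)
        have e6 : (2 * r) * (C * ((4 * K / r) ^ β * ε ^ (-β))) =
            (2 * (r : ℝ) * (4 * K / r) ^ β) * (C * ε ^ (-β)) := by ring
        have e7 : (2 * (r : ℝ) * (4 * K / r) ^ β) * (C * ε ^ (-β)) ≤
            1 / 2 * (C * ε ^ (-β)) := mul_le_mul_of_nonneg_right hfin' (by positivity)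
        linarith
      have c3 : (NU.card : ℝ) ≤ C / 4 * ε ^ (-β) := by
        have e1 : (4 * ε) ^ (-β) ≤ 1 / 4 * ε ^ (-β) := by
          rw [Real.mul_rpow (by norm_num) hε.le]
          apply mul_le_mul_of_nonneg_right _ (by positivity)
          calc (4 : ℝ) ^ (-β) ≤ 4 ^ (-1 : ℝ) := by
                apply Real.rpow_le_rpow_of_exponent_le (by norm_num)
                linarith
            _ = 1 / 4 := by
                rw [Real.rpow_neg_one]
                norm_num
        calc (NU.card : ℝ) ≤ C * (4 * ε) ^ (-β) := hNU1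
          _ ≤ C * (1 / 4 * ε ^ (-β)) := mul_le_mul_of_nonneg_left e1 hC0.le
          _ = _ := by ring
      have c4 : A ≤ C / 4 := by
        rw [hC]
        have : (0 : ℝ) ≤ N₁ := by positivity
        linarith
      have c5 : (((𝓡.powerset ×ˢ S).image (fun x => (q x.1, x.2)) ∪ (𝓡.biUnion NR ∪ NU)).card : ℝ) ≤
          (((𝓡.powerset ×ˢ S).image (fun x => (q x.1, x.2))).card : ℝ) +
            (((𝓡.biUnion NR).card : ℝ) + NU.card) := by
        have h1 := Finset.card_union_le ((𝓡.powerset ×ˢ S).image (fun x => (q x.1, x.2)))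
          (𝓡.biUnion NR ∪ NU)
        have h2 := Finset.card_union_le (𝓡.biUnion NR) NU
        exact_mod_cast h1.trans (Nat.add_le_add_left h2 _)
      have c6 : A * ε ^ (-β) ≤ C / 4 * ε ^ (-β) := mul_le_mul_of_nonneg_right c4 (by positivity)
      linarith
    · intro x hx
      rcases Finset.mem_union.1 hx with hx | hx
      · obtain ⟨y, hy, rfl⟩ := Finset.mem_image.1 hx
        exact hSF (Finset.mem_product.1 hy).2
      · rcases Finset.mem_union.1 hx with hx | hx
        · obtain ⟨R, hR, hx⟩ := Finset.mem_biUnion.1 hx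
          exact (h𝓡1 R hR).1 (hNR2 R hR x hx)
        · exact Finset.filter_subset _ _ (hNU2 x hx)
    · intro G hGF hG hεG
      have hG0 : (0 : ℝ) < G.card := by exact_mod_cast Finset.card_pos.2 hG
      have hF0 : (0 : ℝ) ≤ F.card := by positivity
      by_cases hcase1 : G.card ≤ 2 * (G ∩ U).card
      · -- concentrated in the leftover
        have h1 : (G.card : ℝ) ≤ 2 * ((G ∩ U).card : ℝ) := by exact_mod_cast hcase1
        obtain ⟨x, hx, hfit⟩ := hNU3 (G ∩ U) Finset.inter_subset_right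
          (by rw [← Finset.card_pos]
              have := Finset.card_pos.2 hG
              omega)
          (by nlinarith)
        exact ⟨x, Finset.mem_union_right _ (Finset.mem_union_right _ hx),
          Fits_mono Finset.inter_subset_left hfit⟩
      push Not at hcase1
      by_cases hcase2 : (𝓡.filter (fun R => G.card ≤ 8 * r * (G ∩ R).card)).card ≤ K
      · -- concentrated in a class
        obtain ⟨R, hR, hGR⟩ := node_cover r K hr0 F G U 𝓡 h𝓡c
          (by
            intro g hg hgU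
            by_contra hcon
            push Not at hcon
            exact hgU (Finset.mem_filter.2 ⟨hg, hcon⟩)) hGF hG hcase1 hcase2
        have h1 : (G.card : ℝ) ≤ 4 * K * ((G ∩ R).card : ℝ) := by exact_mod_cast hGR
        obtain ⟨x, hx, hfit⟩ := hNR3 R hR (G ∩ R) Finset.inter_subset_right
          (by rw [← Finset.card_pos]
              have h7 := Finset.card_pos.2 hG
              by_contra h0
              have h8 : (G ∩ R).card = 0 := by omega
              rw [h8, Nat.mul_zero] at hGR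
              omega)
          (by
            have h2 := (h𝓡1 R hR).2.2
            have h3 : ε' * R.card ≤ ε' * (F.card / r) := mul_le_mul_of_nonneg_left h2 hε'0.le
            have h4 : ε' * (F.card / r) = ε * F.card / (4 * K) := by
              rw [hε']
              field_simp
            have h5 : ε * F.card / (4 * K) ≤ G.card / (4 * K) :=
              div_le_div_of_nonneg_right hεG (by positivity)
            have h6 : (G.card : ℝ) / (4 * K) ≤ ((G ∩ R).card : ℝ) := by
              rw [div_le_iff₀ (by positivity)]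
              linarith
            linarith)
        exact ⟨x, Finset.mem_union_right _ (Finset.mem_union_left _
          (Finset.mem_biUnion.2 ⟨R, hR, hx⟩)), Fits_mono Finset.inter_subset_left hfit⟩
      · -- the deep point
        push Not at hcase2
        set J := 𝓡.filter (fun R => G.card ≤ 8 * r * (G ∩ R).card) with hJ
        set μ : ℕ := Nat.ceil ((G.card : ℝ) / (8 * r)) with hμ
        have hμ1 : 1 ≤ μ := by
          rw [hμ, Nat.one_le_ceil_iff]
          positivity
        obtain ⟨s, hs, hfit⟩ := node hd1 c a F G S hGF hdet (q J) μ hμ1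
          (by
            intro w hw
            have h1 := hq J w hw
            have h2 : κ < (J.filter (fun R => 0 ≤ hat (c (ρ R)) ⬝ᵥ w)).card := by
              have : (d + 1) * κ <
                  (d + 1) * (J.filter (fun R => 0 ≤ hat (c (ρ R)) ⬝ᵥ w)).card := by
                omega
              exact Nat.lt_of_mul_lt_mul_left this
            have h3 := h𝓡w w
            have h4 : ∃ R ∈ J, 0 ≤ hat (c (ρ R)) ⬝ᵥ w ∧ ∀ g ∈ R, 0 ≤ hat (c g) ⬝ᵥ w := by
              by_contra hcon
              push Not at hcon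
              have : J.filter (fun R => 0 ≤ hat (c (ρ R)) ⬝ᵥ w) ⊆
                  𝓡.filter (fun R => 0 ≤ hat (c (ρ R)) ⬝ᵥ w ∧ ∃ g ∈ R, hat (c g) ⬝ᵥ w < 0) := by
                intro R hR
                obtain ⟨hRJ, hRw⟩ := Finset.mem_filter.1 hR
                exact Finset.mem_filter.2 ⟨(Finset.mem_filter.1 hRJ).1, hRw, hcon R hRJ hRw⟩
              have := Finset.card_le_card this
              omega
            obtain ⟨R, hRJ, _, hRw⟩ := h4
            have h5 := (Finset.mem_filter.1 hRJ).2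
            have h6 : μ ≤ (G ∩ R).card := by
              rw [hμ, Nat.ceil_le, div_le_iff₀ (by positivity)]
              have : (G.card : ℝ) ≤ 8 * r * ((G ∩ R).card : ℝ) := by exact_mod_cast h5
              linarith
            refine h6.trans (Finset.card_le_card ?_)
            intro g hg
            obtain ⟨hgG, hgR⟩ := Finset.mem_inter.1 hg
            exact Finset.mem_filter.2 ⟨hgG, hRw g hgR⟩)
          (by
            intro L hL
            have h1 : ((G.card : ℝ) / (8 * r)) ≤ μ := Nat.le_ceil _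
            have h2 : (μ : ℝ) ≤ ((F.filter (fun g => ∀ i k, |L i ⬝ᵥ a g k| ≤ 1)).card : ℝ) := by
              exact_mod_cast hL
            obtain ⟨s, hs, hsL⟩ := hS {g | ∀ i k, |L i ⬝ᵥ a g k| ≤ 1} ⟨L, rfl⟩
              (by
                have : 0 < (F.filter (fun g => ∀ i k, |L i ⬝ᵥ a g k| ≤ 1)).card := by omega
                convert this using 2
                ext g
                simp)
              (by
                have h3 : ε / (8 * r) * F.card ≤
                    ((F.filter (fun g => ∀ i k, |L i ⬝ᵥ a g k| ≤ 1)).card : ℝ) := by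
                  have h4 : ε / (8 * r) * F.card = (ε * F.card) / (8 * r) := by ring
                  have h5 : (ε * F.card) / (8 * r) ≤ G.card / (8 * r) :=
                    div_le_div_of_nonneg_right hεG (by positivity)
                  linarith
                convert h3 using 3
                ext g
                simp)
            exact ⟨s, hs, hsL⟩)
        refine ⟨(q J, s), Finset.mem_union_left _ (Finset.mem_image.2
          ⟨(J, s), Finset.mem_product.2 ⟨Finset.mem_powerset.2 (Finset.filter_subset _ _), hs⟩,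
            rfl⟩), hfit⟩

end MP4f30eb
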