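import Pool.Agent.Lib.MP_4f30eb_co.S_E
import Pool.Agent.Lib.MP_4f30eb_co.S_I
import Pool.Agent.Lib.MP_4f30eb_co.S_J
/-! The main theorem in `Fin d → ℝ`. -/
namespace MP4f30eb
open Finset MeasureTheory
open scoped BigOperators Matrix Classical

theorem main_pi (d : ℕ) (hd : 2 ≤ d) (β : ℝ) (hβ : (d : ℝ) < β) :
    ∃ v : ℝ, 0 < v ∧ ∃ C : ℝ, ∀ ε : ℝ, 0 < ε → ∀ (ι : Type) [Fintype ι] [Nonempty ι]
      (A : ι → Set (Fin d → ℝ)), (∀ i, Convex ℝ (A i)) → (∀ i, volume (A i) = 1) →
      ∃ S : Finset (Set (Fin d → ℝ)), (S.card : ℝ) ≤ C * ε ^ (-β) ∧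
        (∀ B ∈ S, IsCompact B ∧ Convex ℝ B ∧ ENNReal.ofReal v ≤ volume B) ∧
        ∀ G : Finset ι, ε * Fintype.card ι ≤ G.card → ∃ B ∈ S, B ⊆ convexHull ℝ (⋃ i ∈ G, A i) := by
  have hd1 : 1 ≤ d := by omega
  have hdR : (2 : ℝ) ≤ d := by exact_mod_cast hd
  obtain ⟨C, hC, hrec⟩ := recursion d hd β hβ
  set lam : ℝ := 1 / (d * (d + 1)) with hlam
  have hlam0 : 0 < lam := by positivity
  refine ⟨(2 / d) ^ d * ((lam * (1 / 2)) ^ d * (1 / (8 * d) ^ d)), by positivity, C, ?_⟩
  intro ε hε ι _ _ A hA hvol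
  have hframe : ∀ i, ∃ (c : Fin d → ℝ) (a : Fin d → Fin d → ℝ),
      (∀ k, c + a k ∈ A i ∧ c - a k ∈ A i) ∧ (1 / (8 * d) ^ d : ℝ) ≤ |(Matrix.of a).det| :=
    fun i => exists_frame hd1 (A i) (hA i) (hvol i)
  choose c a hca hdet using hframe
  have hpos : (0 : ℝ) < 1 / (8 * d) ^ d := by positivity
  have hdet0 : ∀ i, (Matrix.of (a i)).det ≠ 0 := by
    intro i h
    have := hdet i
    rw [h, abs_zero] at this
    linarith
  obtain ⟨c', hGP, hc'⟩ := perturb_centers d c a hdet0
  set a' : ι → Fin d → Fin d → ℝ := fun g k => (1 / 2 : ℝ) • a g k with ha'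
  have hdetsmul : ∀ (t : ℝ) (u : Fin d → Fin d → ℝ),
      (Matrix.of (fun k => t • u k)).det = t ^ d * (Matrix.of u).det := by
    intro t u
    have : (Matrix.of (fun k => t • u k)) = t • Matrix.of u := by
      ext i j
      simp
    rw [this, Matrix.det_smul, Fintype.card_fin]
  have hdet' : ∀ g ∈ (univ : Finset ι), (Matrix.of (a' g)).det ≠ 0 := by
    intro g _
    rw [ha', hdetsmul]
    exact mul_ne_zero (by positivity) (hdet0 g)
  obtain ⟨N, hN1, _, hN3⟩ := hrec ι c' a' univ hGP hdet' ε hε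
  set body : (Fin d → ℝ) × ι → Set (Fin d → ℝ) := fun x =>
    convexHull ℝ {y | ∃ k, y = x.1 + lam • a' x.2 k ∨ y = x.1 - lam • a' x.2 k} with hbody
  refine ⟨N.image body, ?_, ?_, ?_⟩
  · have : ((N.image body).card : ℝ) ≤ N.card := by exact_mod_cast Finset.card_image_le
    linarith
  · intro B hB
    obtain ⟨x, hx, rfl⟩ := Finset.mem_image.1 hB
    refine ⟨?_, convex_convexHull ℝ _, ?_⟩
    · have hfin : {y | ∃ k, y = x.1 + lam • a' x.2 k ∨ y = x.1 - lam • a' x.2 k}.Finite := by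
        have : {y | ∃ k, y = x.1 + lam • a' x.2 k ∨ y = x.1 - lam • a' x.2 k} =
            Set.range (fun k => x.1 + lam • a' x.2 k) ∪
              Set.range (fun k => x.1 - lam • a' x.2 k) := by
          ext y
          constructor
          · rintro ⟨k, hk | hk⟩
            · exact Or.inl ⟨k, hk.symm⟩
            · exact Or.inr ⟨k, hk.symm⟩
          · rintro (⟨k, hk⟩ | ⟨k, hk⟩)
            · exact ⟨k, Or.inl hk.symm⟩
            · exact ⟨k, Or.inr hk.symm⟩
        rw [this]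
        exact (Set.finite_range _).union (Set.finite_range _)
      exact hfin.isCompact_convexHull ℝ
    · have h1 := volume_cross hd1 x.1 (fun k => lam • a' x.2 k)
      refine le_trans (ENNReal.ofReal_le_ofReal ?_) h1
      apply mul_le_mul_of_nonneg_left _ (by positivity)
      have h2 : (Matrix.of (fun k => lam • a' x.2 k)).det =
          (lam * (1 / 2)) ^ d * (Matrix.of (a x.2)).det := by
        rw [hdetsmul, ha', hdetsmul, mul_pow, mul_assoc]
      rw [h2, abs_mul, abs_of_nonneg (by positivity : (0 : ℝ) ≤ (lam * (1 / 2)) ^ d)]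
      exact mul_le_mul_of_nonneg_left (hdet x.2) (by positivity)
  · intro G hG
    have hcard : (0 : ℝ) < Fintype.card ι := by exact_mod_cast Fintype.card_pos
    have hGne : G.Nonempty := by
      rw [← Finset.card_pos]
      have : (0 : ℝ) < G.card := lt_of_lt_of_le (mul_pos hε hcard) hG
      exact_mod_cast this
    obtain ⟨x, hx, hfit⟩ := hN3 G (Finset.subset_univ _) hGne
      (by rw [Finset.card_univ]; exact hG)
    refine ⟨body x, Finset.mem_image_of_mem _ hx, ?_⟩
    have h1 : body x ⊆ Kset c' a' G := by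
      apply convexHull_min _ (convex_convexHull ℝ _)
      rintro y ⟨k, hk | hk⟩
      · rw [hk]; exact (hfit k).1
      · rw [hk]; exact (hfit k).2
    refine h1.trans ?_
    apply convexHull_min _ (convex_convexHull ℝ _)
    rintro y ⟨g, hg, k, hk⟩
    have h2 : convexHull ℝ {x | ∃ j, x = c g + a g j ∨ x = c g - a g j} ⊆ A g := by
      apply convexHull_min _ (hA g)
      rintro z ⟨j, hj | hj⟩
      · rw [hj]; exact (hca g j).1
      · rw [hj]; exact (hca g j).2
    have h3 : A g ⊆ convexHull ℝ (⋃ i ∈ G, A i) := by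
      refine Set.Subset.trans ?_ (subset_convexHull ℝ _)
      exact Set.subset_biUnion_of_mem (u := fun i => A i) hg
    apply h3
    apply h2
    rcases hk with hk | hk
    · rw [hk]; exact (hc' g k).1
    · rw [hk]; exact (hc' g k).2

end MP4f30eb
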