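import Pool.Agent.Lib.MP_4f30eb_co.Defs
/-! Task A: canonical chains (triangulation of an arrangement in general position). -/
namespace MP4f30eb
open Finset MeasureTheory
open scoped BigOperators Matrix Classical

private lemma A_sg_sq (b : Bool) : sg b * sg b = 1 := by
  cases b <;> simp [sg]

private lemma A_sg_ne (b : Bool) : sg b ≠ 0 := by
  cases b <;> simp [sg]

/-- Two sign vectors consistent with the same nowhere zero values agree. -/
private lemma A_sign_unique {b c : Bool} {y : ℝ} (hy : y ≠ 0) (hb : 0 ≤ sg b * y)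
    (hc : 0 ≤ sg c * y) : b = c := by
  cases b <;> cases c <;> simp [sg] at * <;>
    first | exact hy (le_antisymm hb hc) | exact hy (le_antisymm hc hb)

private lemma A_consis_smul {ι V : Type} [AddCommGroup V] [Module ℝ V] {ℓ : ι → V →ₗ[ℝ] ℝ}
    {σ : ι → Bool} {x : V} (h : Consis ℓ σ x) {t : ℝ} (ht : 0 ≤ t) : Consis ℓ σ (t • x) := by
  intro i
  have := h i
  rw [map_smul, smul_eq_mul]
  nlinarith [mul_nonneg ht this]

/-- The sum of the signed functionals is positive on nonzero consistent vectors. -/
private lemma A_phi_pos {ι V : Type} [Fintype ι] [AddCommGroup V] [Module ℝ V]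
    {ℓ : ι → V →ₗ[ℝ] ℝ} {k : ℕ} (hN : k + 1 ≤ Fintype.card ι)
    (hz : ∀ x : V, x ≠ 0 → (univ.filter (fun i => ℓ i x = 0)).card ≤ k)
    {σ : ι → Bool} {x : V} (hx : x ≠ 0) (h : Consis ℓ σ x) :
    0 < ∑ i, sg (σ i) * ℓ i x := by
  rcases (Finset.sum_nonneg (fun i _ => h i)).lt_or_eq with h1 | h1
  · exact h1
  · exfalso
    have h2 := (Finset.sum_eq_zero_iff_of_nonneg (fun i _ => h i)).mp h1.symm
    have h3 : (univ.filter (fun i => ℓ i x = 0)) = univ := by
      apply Finset.filter_true_of_mem
      intro i hi
      have := h2 i hi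
      exact (mul_eq_zero.mp this).resolve_left (A_sg_ne _)
    have h4 := hz x hx
    rw [h3, Finset.card_univ] at h4
    omega

theorem chain (k : ℕ) : ∀ (V : Type) [AddCommGroup V] [Module ℝ V] [FiniteDimensional ℝ V]
    (ι : Type) [Fintype ι] (ℓ : ι → V →ₗ[ℝ] ℝ), Module.finrank ℝ V = k + 1 →
    k + 1 ≤ Fintype.card ι →
    (∀ x : V, x ≠ 0 → (univ.filter (fun i => ℓ i x = 0)).card ≤ k) →
    ∃ K : Finset ((ι → Bool) × (Fin (k + 1) → V)),
      K.card ≤ 2 * (2 * Fintype.card ι) ^ k ∧
      (∀ κ ∈ K, ∀ j, κ.2 j ≠ 0 ∧ Consis ℓ κ.1 (κ.2 j)) ∧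
      ∀ x, x ≠ 0 → ∀ σ, Consis ℓ σ x → ∃ κ ∈ K, κ.1 = σ ∧
        ∃ a : Fin (k + 1) → ℝ, (∀ j, 0 ≤ a j) ∧ x = ∑ j, a j • κ.2 j := by
  induction k with
  | zero =>
    intro V _ _ _ ι _ ℓ hV hN hz
    obtain ⟨e, he, hspan⟩ := finrank_eq_one_iff'.mp hV
    have hnz : ∀ x : V, x ≠ 0 → ∀ i, ℓ i x ≠ 0 := by
      intro x hx i hi
      have := hz x hx
      have h2 : i ∈ univ.filter (fun i => ℓ i x = 0) := by simp [hi]
      have := Finset.card_pos.mpr ⟨i, h2⟩
      omega
    let S : V → ι → Bool := fun y i => decide (0 ≤ ℓ i y)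
    have hS : ∀ y, Consis ℓ (S y) y := by
      intro y i
      by_cases h : 0 ≤ ℓ i y
      · simp [S, sg, h]
      · simp [S, sg, h]
        linarith
    refine ⟨{(S e, fun _ => e), (S (-e), fun _ => -e)}, ?_, ?_, ?_⟩
    · simpa using Finset.card_le_two
    · intro κ hκ j
      simp only [Finset.mem_insert, Finset.mem_singleton] at hκ
      rcases hκ with rfl | rfl
      · exact ⟨he, hS e⟩
      · exact ⟨neg_ne_zero.mpr he, hS (-e)⟩
    · intro x hx σ hσ
      obtain ⟨c, rfl⟩ := hspan x
      have hc : c ≠ 0 := by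
        rintro rfl
        simp at hx
      rcases lt_or_gt_of_ne hc with hc' | hc'
      · refine ⟨(S (-e), fun _ => -e), by simp, ?_, fun _ => -c, fun _ => by linarith, by simp⟩
        have h1 : Consis ℓ (S (-e)) (c • e) := by
          have := A_consis_smul (hS (-e)) (t := -c) (by linarith)
          simpa using this
        funext i
        exact A_sign_unique (hnz _ hx i) (h1 i) (hσ i)
      · refine ⟨(S e, fun _ => e), by simp, ?_, fun _ => c, fun _ => by linarith, by simp⟩
        have h1 : Consis ℓ (S e) (c • e) := A_consis_smul (hS e) hc'.le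
        funext i
        exact A_sign_unique (hnz _ hx i) (h1 i) (hσ i)
  | succ k ih =>
    intro V _ _ _ ι _ ℓ hV hN hz
    -- every functional is nonzero
    have hne : ∀ i, ℓ i ≠ 0 := by
      intro i hi
      have hN' : k + 1 ≤ (univ.erase i).card := by
        rw [Finset.card_erase_of_mem (Finset.mem_univ i), Finset.card_univ]
        omega
      obtain ⟨T, hT, hTc⟩ := Finset.exists_subset_card_eq hN'
      let f : V →ₗ[ℝ] (T → ℝ) := LinearMap.pi (fun j => ℓ j.1)
      have hf : LinearMap.ker f ≠ ⊥ := by
        apply LinearMap.ker_ne_bot_of_finrank_lt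
        rw [hV]
        simp [hTc]
      obtain ⟨x, hxf, hx0⟩ := (Submodule.ne_bot_iff _).mp hf
      have h1 := hz x hx0
      have h2 : insert i T ⊆ univ.filter (fun j => ℓ j x = 0) := by
        intro j hj
        rw [Finset.mem_insert] at hj
        rw [Finset.mem_filter]
        refine ⟨Finset.mem_univ _, ?_⟩
        rcases hj with rfl | hj
        · rw [hi]; simp
        · have := congrFun (LinearMap.mem_ker.mp hxf) ⟨j, hj⟩
          simpa [f] using this
      have h3 := Finset.card_le_card h2
      rw [Finset.card_insert_of_notMem (fun h => by simpa using hT h), hTc] at h3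
      omega
    have hW : ∀ i, Module.finrank ℝ (LinearMap.ker (ℓ i)) = k + 1 := by
      intro i
      have h1 := LinearMap.finrank_range_add_finrank_ker (ℓ i)
      have h2 : Module.finrank ℝ (LinearMap.range (ℓ i)) = 1 := by
        have : LinearMap.range (ℓ i) = ⊤ := LinearMap.range_eq_top.mpr
          (LinearMap.surjective (hne i))
        rw [this]
        simp
      omega
    have hcard : ∀ i : ι, Fintype.card {j // j ≠ i} = Fintype.card ι - 1 := by
      intro i
      simp [Fintype.card_subtype_compl]
    have hIH : ∀ i : ι, ∃ K : Finset (({j // j ≠ i} → Bool) × (Fin (k + 1) → LinearMap.ker (ℓ i))),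
        K.card ≤ 2 * (2 * (Fintype.card ι - 1)) ^ k ∧
        (∀ κ ∈ K, ∀ j, κ.2 j ≠ 0 ∧
          Consis (fun j : {j // j ≠ i} => (ℓ j.1).comp (LinearMap.ker (ℓ i)).subtype) κ.1
            (κ.2 j)) ∧
        ∀ x, x ≠ 0 → ∀ σ, Consis (fun j : {j // j ≠ i} => (ℓ j.1).comp
            (LinearMap.ker (ℓ i)).subtype) σ x → ∃ κ ∈ K, κ.1 = σ ∧
          ∃ a : Fin (k + 1) → ℝ, (∀ j, 0 ≤ a j) ∧ x = ∑ j, a j • κ.2 j := by
      intro i
      have := ih (LinearMap.ker (ℓ i)) {j // j ≠ i}
        (fun j : {j // j ≠ i} => (ℓ j.1).comp (LinearMap.ker (ℓ i)).subtype) (hW i)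
        (by rw [hcard]; omega) (by
          intro x hx
          have h1 := hz (x : V) (by simpa using hx)
          have h2 : insert i ((univ.filter (fun j : {j // j ≠ i} =>
              (ℓ j.1).comp (LinearMap.ker (ℓ i)).subtype x = 0)).image Subtype.val) ⊆
              univ.filter (fun j => ℓ j (x : V) = 0) := by
            intro j hj
            rw [Finset.mem_insert] at hj
            rw [Finset.mem_filter]
            refine ⟨Finset.mem_univ _, ?_⟩
            rcases hj with rfl | hj
            · exact LinearMap.mem_ker.mp x.2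
            · rw [Finset.mem_image] at hj
              obtain ⟨j', hj', rfl⟩ := hj
              rw [Finset.mem_filter] at hj'
              simpa using hj'.2
          have h3 := Finset.card_le_card h2
          rw [Finset.card_insert_of_notMem (by simp), Finset.card_image_of_injective _
            Subtype.val_injective] at h3
          omega)
      rwa [hcard] at this
    choose KK hK1 hK2 hK3 using hIH
    -- the chosen vectors
    have hZ : ∃ Z : (ι → Bool) → V, ∀ σ, (∃ y, y ≠ 0 ∧ Consis ℓ σ y) →
        Z σ ≠ 0 ∧ Consis ℓ σ (Z σ) := by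
      classical
      refine ⟨fun σ => if h : ∃ y, y ≠ 0 ∧ Consis ℓ σ y then h.choose else 0, ?_⟩
      intro σ h
      simp only [h, dite_true]
      exact h.choose_spec
    obtain ⟨Z, hZ⟩ := hZ
    let ext : (i : ι) → ({j // j ≠ i} → Bool) → Bool → ι → Bool :=
      fun i τ b j => if h : j = i then b else τ ⟨j, h⟩
    have hext1 : ∀ i τ b, ext i τ b i = b := by
      intro i τ b
      simp [ext]
    have hext2 : ∀ i τ b (j : {j // j ≠ i}), ext i τ b j.1 = τ j := by
      intro i τ b j
      simp [ext, j.2]
    have hextC : ∀ i τ b (y : LinearMap.ker (ℓ i)),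
        Consis (fun j : {j // j ≠ i} => (ℓ j.1).comp (LinearMap.ker (ℓ i)).subtype) τ y →
        Consis ℓ (ext i τ b) (y : V) := by
      intro i τ b y hy j
      by_cases hj : j = i
      · subst hj
        rw [LinearMap.mem_ker.mp y.2]
        simp
      · have := hy ⟨j, hj⟩
        simpa [ext, hj] using this
    let F : (i : ι) → (({j // j ≠ i} → Bool) × (Fin (k + 1) → LinearMap.ker (ℓ i))) × Bool →
        (ι → Bool) × (Fin (k + 1 + 1) → V) :=
      fun i p => (ext i p.1.1 p.2, Fin.cons (Z (ext i p.1.1 p.2)) (fun j => (p.1.2 j : V)))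
    refine ⟨univ.biUnion (fun i => ((KK i) ×ˢ univ).image (F i)), ?_, ?_, ?_⟩
    · calc _ ≤ ∑ i, (((KK i) ×ˢ (univ : Finset Bool)).image (F i)).card := Finset.card_biUnion_le
        _ ≤ ∑ i : ι, 2 * (2 * (Fintype.card ι - 1)) ^ k * 2 := by
            apply Finset.sum_le_sum
            intro i _
            refine Finset.card_image_le.trans ?_
            rw [Finset.card_product]
            simpa using hK1 i
        _ = Fintype.card ι * (2 * (2 * (Fintype.card ι - 1)) ^ k * 2) := by
            simp
        _ ≤ Fintype.card ι * (2 * (2 * Fintype.card ι) ^ k * 2) := by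
            gcongr
            omega
        _ = _ := by ring
    · intro κ hκ j
      rw [Finset.mem_biUnion] at hκ
      obtain ⟨i, -, hκ⟩ := hκ
      rw [Finset.mem_image] at hκ
      obtain ⟨p, hp, rfl⟩ := hκ
      rw [Finset.mem_product] at hp
      have h1 : ∀ j, (p.1.2 j : V) ≠ 0 ∧ Consis ℓ (ext i p.1.1 p.2) (p.1.2 j : V) := by
        intro j
        refine ⟨?_, hextC _ _ _ _ (hK2 i p.1 hp.1 j).2⟩
        have := (hK2 i p.1 hp.1 j).1
        simpa using this
      refine Fin.cases ?_ (fun j => ?_) j
      · simp only [F, Fin.cons_zero]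
        exact hZ _ ⟨_, h1 0⟩
      · simp only [F, Fin.cons_succ]
        exact h1 j
    · intro x hx σ hσ
      obtain ⟨hZ0, hZσ⟩ := hZ σ ⟨x, hx, hσ⟩
      set φ : V →ₗ[ℝ] ℝ := ∑ i, sg (σ i) • ℓ i with hφ
      have hφa : ∀ y, φ y = ∑ i, sg (σ i) * ℓ i y := by
        intro y
        simp [hφ, LinearMap.sum_apply]
      have hφx : 0 < φ x := by rw [hφa]; exact A_phi_pos hN hz hx hσ
      have hφZ : 0 < φ (Z σ) := by rw [hφa]; exact A_phi_pos hN hz hZ0 hZσ
      set z0 : V := (φ (Z σ))⁻¹ • Z σ with hz0
      set xb : V := (φ x)⁻¹ • x with hxb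
      have hφz0 : φ z0 = 1 := by
        rw [hz0, map_smul, smul_eq_mul, inv_mul_cancel₀ hφZ.ne']
      have hφxb : φ xb = 1 := by
        rw [hxb, map_smul, smul_eq_mul, inv_mul_cancel₀ hφx.ne']
      have hxbC : Consis ℓ σ xb := A_consis_smul hσ (by positivity)
      -- the direction u
      obtain ⟨u, hu0, hφu, hu⟩ : ∃ u : V, u ≠ 0 ∧ φ u = 0 ∧ (u = xb - z0 ∨ xb = z0) := by
        by_cases h : xb = z0
        · have hk : LinearMap.ker φ ≠ ⊥ := by
            apply LinearMap.ker_ne_bot_of_finrank_lt
            rw [hV]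
            simp
          obtain ⟨u, hu, hu0⟩ := (Submodule.ne_bot_iff _).mp hk
          exact ⟨u, hu0, LinearMap.mem_ker.mp hu, Or.inr h⟩
        · exact ⟨xb - z0, sub_ne_zero.mpr h, by rw [map_sub, hφz0, hφxb, sub_self], Or.inl rfl⟩
      have hneg : (univ.filter (fun i => sg (σ i) * ℓ i u < 0)).Nonempty := by
        by_contra hcon
        rw [Finset.not_nonempty_iff_eq_empty, Finset.filter_eq_empty_iff] at hcon
        have hC : Consis ℓ σ u := fun i => not_lt.mp (hcon (Finset.mem_univ i))
        have := A_phi_pos hN hz hu0 hC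
        rw [← hφa, hφu] at this
        exact lt_irrefl _ this
      obtain ⟨i, hi, hmin⟩ := Finset.exists_min_image _
        (fun i => sg (σ i) * ℓ i xb / (-(sg (σ i) * ℓ i u))) hneg
      rw [Finset.mem_filter] at hi
      have hi' : 0 < -(sg (σ i) * ℓ i u) := by linarith [hi.2]
      set t : ℝ := sg (σ i) * ℓ i xb / (-(sg (σ i) * ℓ i u)) with ht
      have ht0 : 0 ≤ t := div_nonneg (hxbC i) hi'.le
      set x' : V := xb + t • u with hx'
      have hx'C : Consis ℓ σ x' := by
        intro j
        rw [hx', map_add, map_smul (ℓ j) t u, smul_eq_mul]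
        by_cases hj : sg (σ j) * ℓ j u < 0
        · have h1 := hmin j (by rw [Finset.mem_filter]; exact ⟨Finset.mem_univ _, hj⟩)
          have h2 : 0 < -(sg (σ j) * ℓ j u) := by linarith
          rw [le_div_iff₀ h2] at h1
          nlinarith
        · rw [not_lt] at hj
          have := hxbC j
          nlinarith [mul_nonneg ht0 hj]
      have hx'i : ℓ i x' = 0 := by
        have h1 : sg (σ i) * ℓ i x' = 0 := by
          rw [hx', map_add, map_smul (ℓ i) t u, smul_eq_mul]
          have h2 : t * (-(sg (σ i) * ℓ i u)) = sg (σ i) * ℓ i xb := by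
            rw [ht, div_mul_cancel₀ _ hi'.ne']
          linear_combination (-1 : ℝ) * h2
        exact (mul_eq_zero.mp h1).resolve_left (A_sg_ne _)
      have hφx' : φ x' = 1 := by
        rw [hx', map_add, map_smul φ t u, hφxb, hφu]
        simp
      have hx'0 : x' ≠ 0 := by
        intro h
        rw [h, map_zero] at hφx'
        exact zero_ne_one hφx'
      obtain ⟨κ, hκ, hκ1, a, ha, hxa⟩ := hK3 i ⟨x', LinearMap.mem_ker.mpr hx'i⟩
        (by intro h; exact hx'0 (congrArg Subtype.val h)) (fun j => σ j.1)
        (fun j => by simpa using hx'C j.1)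
      have hxa' : x' = ∑ j, a j • (κ.2 j : V) := by
        have := congrArg Subtype.val hxa
        simpa using this
      have hσe : ext i κ.1 (σ i) = σ := by
        funext j
        by_cases hj : j = i
        · subst hj
          exact hext1 _ _ _
        · have := hext2 i κ.1 (σ i) ⟨j, hj⟩
          rw [this, hκ1]
      refine ⟨F i (κ, σ i), ?_, ?_, ?_⟩
      · rw [Finset.mem_biUnion]
        refine ⟨i, Finset.mem_univ _, Finset.mem_image_of_mem _ ?_⟩
        rw [Finset.mem_product]
        exact ⟨hκ, Finset.mem_univ _⟩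
      · simp only [F]
        exact hσe
      · have hxx : x = φ x • xb := by
          rw [hxb, smul_smul, mul_inv_cancel₀ hφx.ne', one_smul]
        have hzz : z0 = (φ (Z σ))⁻¹ • Z σ := rfl
        rcases hu with hu | hu
        · refine ⟨Fin.cons (φ x * (t / (1 + t)) * (φ (Z σ))⁻¹)
            (fun j => φ x * (1 / (1 + t)) * a j), ?_, ?_⟩
          · intro j
            refine Fin.cases ?_ (fun j => ?_) j
            · rw [Fin.cons_zero]; positivity
            · rw [Fin.cons_succ]
              have := ha j
              positivity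
          · rw [Fin.sum_univ_succ]
            simp only [F, Fin.cons_zero, Fin.cons_succ, hσe]
            have h1 : ∑ j, (φ x * (1 / (1 + t)) * a j) • (κ.2 j : V) =
                (φ x * (1 / (1 + t))) • x' := by
              rw [hxa', Finset.smul_sum]
              apply Finset.sum_congr rfl
              intro j _
              rw [smul_smul]
            rw [h1]
            have h2 : (φ x * (t / (1 + t)) * (φ (Z σ))⁻¹) • Z σ =
                (φ x * (t / (1 + t))) • z0 := by
              rw [hzz, smul_smul]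
            rw [h2, hx', hu]
            have h3 : (1 + t) ≠ 0 := by positivity
            conv_lhs => rw [hxx]
            have h4 : t / (1 + t) + 1 / (1 + t) = 1 := by field_simp; ring
            have h5 : 1 / (1 + t) * t = t / (1 + t) := by ring
            simp only [smul_add, smul_sub, smul_smul]
            have h6 : (φ x * (1 / (1 + t)) * t) = φ x * (t / (1 + t)) := by ring
            rw [h6]
            have h7 : φ x = φ x * (1 / (1 + t)) + φ x * (t / (1 + t)) := by
              rw [← mul_add, add_comm, h4, mul_one]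
            conv_lhs => rw [h7]
            rw [add_smul]
            abel
        · refine ⟨Fin.cons (φ x * (φ (Z σ))⁻¹) (fun j => 0), ?_, ?_⟩
          · intro j
            refine Fin.cases ?_ (fun j => ?_) j
            · rw [Fin.cons_zero]; positivity
            · rw [Fin.cons_succ]
          · rw [Fin.sum_univ_succ]
            simp only [F, Fin.cons_zero, Fin.cons_succ, hσe]
            simp only [zero_smul, Finset.sum_const_zero, add_zero]
            conv_lhs => rw [hxx, hu, hzz]
            rw [smul_smul]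

end MP4f30eb
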