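import Pool.Agent.Lib.MP_4f30eb_co.Defs
/-! Task B: trace bounds. -/
namespace MP4f30eb
open Finset MeasureTheory
open scoped BigOperators Matrix Classical

theorem TB_mono {ι : Type} {R R' : Set (Set ι)} {P : ℕ} (h : TB R' P) (hR : R ⊆ R') :
    TB R P := by
  intro A
  refine le_trans (Finset.card_le_card ?_) (h A)
  intro B hB
  rw [Finset.mem_filter] at hB ⊢
  obtain ⟨h1, r, hr, h2⟩ := hB
  exact ⟨h1, r, hR hr, h2⟩

private theorem B_sum_choose (N D : ℕ) : ∑ k ∈ Finset.range (D + 1), N.choose k ≤ (N + 1) ^ D := by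
  rw [add_pow]
  refine Finset.sum_le_sum ?_
  intro k hk
  have hk' : k ≤ D := by have := Finset.mem_range.1 hk; omega
  rw [one_pow, mul_one]
  calc N.choose k ≤ N ^ k := Nat.choose_le_pow N k
    _ = N ^ k * 1 := (mul_one _).symm
    _ ≤ N ^ k * D.choose k := Nat.mul_le_mul_left _ (Nat.choose_pos hk')

private theorem B_card_le {ι : Type} (A : Finset ι) (D : ℕ) (𝒮 : Finset (Finset ι))
    (h : ∀ s ∈ 𝒮, s ⊆ A ∧ s.card ≤ D) : 𝒮.card ≤ (A.card + 1) ^ D := by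
  refine le_trans ?_ (B_sum_choose A.card D)
  have h1 : 𝒮 ⊆ (Finset.range (D + 1)).biUnion (fun k => A.powersetCard k) := by
    intro s hs
    obtain ⟨h1, h2⟩ := h s hs
    rw [Finset.mem_biUnion]
    exact ⟨s.card, Finset.mem_range.2 (by omega), Finset.mem_powersetCard.2 ⟨h1, rfl⟩⟩
  refine le_trans (Finset.card_le_card h1) ?_
  refine le_trans Finset.card_biUnion_le ?_
  refine Finset.sum_le_sum ?_
  intro k _
  rw [Finset.card_powersetCard]

private theorem B_dep {ι : Type} (D : ℕ) (p : ι → Fin D → ℝ) (s : Finset ι) (hs : D < s.card) :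
    ∃ c : ι → ℝ, (∑ i ∈ s, c i • p i = 0) ∧ ∃ i ∈ s, 0 < c i := by
  let f : (s → ℝ) →ₗ[ℝ] (Fin D → ℝ) :=
    ∑ i : s, (LinearMap.proj i : (s → ℝ) →ₗ[ℝ] ℝ).smulRight (p i)
  have hf : ∀ c : s → ℝ, f c = ∑ i : s, c i • p i := by
    intro c
    simp [f, LinearMap.sum_apply]
  have hk : LinearMap.ker f ≠ ⊥ := by
    apply LinearMap.ker_ne_bot_of_finrank_lt
    simp [hs]
  obtain ⟨c, hc, hc0⟩ := (Submodule.ne_bot_iff _).1 hk
  rw [LinearMap.mem_ker, hf] at hc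
  obtain ⟨j, hj⟩ := Function.ne_iff.1 hc0
  rw [Pi.zero_apply] at hj
  have key : ∀ c : s → ℝ, ∑ i : s, c i • p i = 0 → (∃ j, 0 < c j) →
      ∃ c : ι → ℝ, (∑ i ∈ s, c i • p i = 0) ∧ ∃ i ∈ s, 0 < c i := by
    intro c hc hj
    obtain ⟨j, hj⟩ := hj
    refine ⟨fun i => if h : i ∈ s then c ⟨i, h⟩ else 0, ?_, j.1, j.2, ?_⟩
    · rw [← hc, ← Finset.sum_coe_sort s]
      refine Finset.sum_congr rfl ?_
      intro i _
      simp
    · simpa using hj
  rcases lt_or_gt_of_ne hj with h | h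
  · refine key (fun i => - c i) ?_ ⟨j, by linarith⟩
    have : ∑ i : s, (fun i => - c i) i • p i = -∑ i : s, c i • p i := by
      rw [← Finset.sum_neg_distrib]
      refine Finset.sum_congr rfl ?_
      intro i _
      simp
    rw [this, hc, neg_zero]
  · exact key c hc ⟨j, h⟩

theorem TB_half {ι : Type} (D : ℕ) (p : ι → Fin D → ℝ) :
    TB {r | ∃ y : Fin D → ℝ, r = {i | 0 < p i ⬝ᵥ y}} D := by
  intro A
  refine le_trans (Finset.card_le_card_shatterer _) ?_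
  refine B_card_le A D _ ?_
  intro s hs
  rw [Finset.mem_shatterer] at hs
  have hsA : s ⊆ A := by
    obtain ⟨t, ht, hst⟩ := hs (Finset.Subset.refl s)
    rw [Finset.mem_filter, Finset.mem_powerset] at ht
    rw [← hst]
    exact Finset.inter_subset_right.trans ht.1
  refine ⟨hsA, ?_⟩
  by_contra hcard
  rw [not_le] at hcard
  obtain ⟨c, hc, j, hj, hcj⟩ := B_dep D p s hcard
  obtain ⟨u, hu, hsu⟩ := hs (Finset.filter_subset (fun i => 0 < c i) s)
  rw [Finset.mem_filter] at hu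
  obtain ⟨_, r, ⟨y, rfl⟩, hy⟩ := hu
  have h1 : ∀ i ∈ s, (0 < c i ↔ 0 < p i ⬝ᵥ y) := by
    intro i hi
    have h2 := hy i (hsA hi)
    rw [Set.mem_setOf_eq] at h2
    rw [← h2]
    have h3 : i ∈ s ∩ u ↔ i ∈ s.filter (fun i => 0 < c i) := by rw [hsu]
    rw [Finset.mem_inter, Finset.mem_filter] at h3
    tauto
  have h4 : ∑ i ∈ s, c i * (p i ⬝ᵥ y) = 0 := by
    have h5 : (∑ i ∈ s, c i • p i) ⬝ᵥ y = 0 := by rw [hc, zero_dotProduct]
    rw [sum_dotProduct] at h5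
    simpa [smul_dotProduct] using h5
  have h6 : 0 < ∑ i ∈ s, c i * (p i ⬝ᵥ y) := by
    refine Finset.sum_pos' ?_ ⟨j, hj, mul_pos hcj ((h1 j hj).1 hcj)⟩
    intro i hi
    by_cases h7 : 0 < c i
    · exact (mul_pos h7 ((h1 i hi).1 h7)).le
    · have h8 : ¬ 0 < p i ⬝ᵥ y := fun h => h7 ((h1 i hi).2 h)
      exact mul_nonneg_of_nonpos_of_nonpos (not_lt.1 h7) (not_lt.1 h8)
  linarith

theorem TB_inter {ι : Type} {R₁ R₂ : Set (Set ι)} {P₁ P₂ : ℕ} (h₁ : TB R₁ P₁) (h₂ : TB R₂ P₂) :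
    TB {r | ∃ r₁ ∈ R₁, ∃ r₂ ∈ R₂, r = r₁ ∩ r₂} (P₁ + P₂) := by
  intro A
  rw [pow_add]
  refine le_trans ?_ (Nat.mul_le_mul (h₁ A) (h₂ A))
  rw [← Finset.card_product]
  refine Finset.card_le_card_of_surjOn (fun q => q.1 ∩ q.2) ?_
  intro B hB
  rw [Finset.mem_coe, Finset.mem_filter, Finset.mem_powerset] at hB
  obtain ⟨hBA, r, ⟨r₁, hr₁, r₂, hr₂, rfl⟩, hr⟩ := hB
  refine ⟨(A.filter (fun i => i ∈ r₁), A.filter (fun i => i ∈ r₂)), ?_, ?_⟩
  · rw [Finset.mem_coe, Finset.mem_product, Finset.mem_filter, Finset.mem_filter,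
      Finset.mem_powerset, Finset.mem_powerset]
    exact ⟨⟨Finset.filter_subset _ _, r₁, hr₁, fun i hi => by simp [hi]⟩,
      ⟨Finset.filter_subset _ _, r₂, hr₂, fun i hi => by simp [hi]⟩⟩
  · ext i
    simp only [Finset.mem_inter, Finset.mem_filter]
    constructor
    · rintro ⟨⟨hi, h1⟩, _, h2⟩
      exact (hr i hi).2 ⟨h1, h2⟩
    · intro hi
      have hiA := hBA hi
      have h3 := (hr i hiA).1 hi
      exact ⟨⟨hiA, h3.1⟩, hiA, h3.2⟩

theorem TB_compl {ι : Type} {R : Set (Set ι)} {P : ℕ} (h : TB R P) :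
    TB {r | ∃ r₁ ∈ R, r = r₁ᶜ} P := by
  intro A
  refine le_trans ?_ (h A)
  refine Finset.card_le_card_of_surjOn (fun B => A \ B) ?_
  intro B hB
  rw [Finset.mem_coe, Finset.mem_filter, Finset.mem_powerset] at hB
  obtain ⟨hBA, r, ⟨r₁, hr₁, rfl⟩, hr⟩ := hB
  refine ⟨A \ B, ?_, ?_⟩
  · rw [Finset.mem_coe, Finset.mem_filter, Finset.mem_powerset]
    refine ⟨Finset.sdiff_subset, r₁, hr₁, ?_⟩
    intro i hi
    have h1 := hr i hi
    rw [Set.mem_compl_iff] at h1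
    rw [Finset.mem_sdiff]
    tauto
  · exact Finset.sdiff_sdiff_eq_self hBA

theorem TB_zone {ι : Type} (D : ℕ) (p : ι → Fin D → ℝ) :
    TB {r | ∃ u v : Fin D → ℝ, r = {i | 0 < p i ⬝ᵥ u ∧ p i ⬝ᵥ v < 0}} (2 * D) := by
  rw [two_mul]
  refine TB_mono (TB_inter (TB_half D p) (TB_half D p)) ?_
  rintro r ⟨u, v, rfl⟩
  refine ⟨_, ⟨u, rfl⟩, _, ⟨-v, rfl⟩, ?_⟩
  ext i
  simp [dotProduct_neg]

private theorem B_iInter {ι κ : Type} (R : κ → Set (Set ι)) (P : ℕ) (h : ∀ j, TB (R j) P)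
    (s : Finset κ) :
    TB {r | ∃ f : κ → Set ι, (∀ j, f j ∈ R j) ∧ r = {i | ∀ j ∈ s, i ∈ f j}} (s.card * P) := by
  induction s using Finset.induction_on with
  | empty =>
    intro A
    simp only [Finset.card_empty, zero_mul, pow_zero]
    rw [Finset.card_le_one]
    intro B hB B' hB'
    rw [Finset.mem_filter, Finset.mem_powerset] at hB hB'
    obtain ⟨h1, r, ⟨f, _, rfl⟩, h2⟩ := hB
    obtain ⟨h1', r', ⟨f', _, rfl⟩, h2'⟩ := hB'
    have e : ∀ C : Finset ι, C ⊆ A → (∀ i ∈ A, i ∈ C) → C = A := fun C h3 h4 =>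
      Finset.Subset.antisymm h3 h4
    rw [e B h1 (fun i hi => (h2 i hi).2 (by simp)), e B' h1' (fun i hi => (h2' i hi).2 (by simp))]
  | insert j s hj ih =>
    rw [Finset.card_insert_of_notMem hj, add_mul, one_mul, add_comm]
    refine TB_mono (TB_inter (h j) ih) ?_
    rintro r ⟨f, hf, rfl⟩
    refine ⟨f j, hf j, _, ⟨f, hf, rfl⟩, ?_⟩
    ext i
    simp

theorem TB_shape {ι : Type} (d : ℕ) (a : ι → Fin d → Fin d → ℝ) :
    TB {r | ∃ L : Fin d → Fin d → ℝ, r = {g | ∀ i k, |L i ⬝ᵥ a g k| ≤ 1}}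
      (2 * d * d * (d + 1)) := by
  have h1 := B_iInter (κ := Bool × Fin d × Fin d)
    (fun j => {r : Set ι | ∃ r₁ ∈ {r : Set ι | ∃ y : Fin (d + 1) → ℝ,
      r = {g | 0 < (Fin.cons (-1 : ℝ) (sg j.1 • a g j.2.2) : Fin (d + 1) → ℝ) ⬝ᵥ y}},
      r = r₁ᶜ}) (d + 1) (fun j => TB_compl (TB_half (d + 1) _)) Finset.univ
  have h2 : (Finset.univ : Finset (Bool × Fin d × Fin d)).card = 2 * d * d := by
    simp [Fintype.card_prod, mul_assoc]
  rw [h2] at h1
  refine TB_mono h1 ?_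
  rintro r ⟨L, rfl⟩
  refine ⟨fun j => {g | 0 < (Fin.cons (-1 : ℝ) (sg j.1 • a g j.2.2) : Fin (d + 1) → ℝ) ⬝ᵥ
    (Fin.cons (1 : ℝ) (L j.2.1) : Fin (d + 1) → ℝ)}ᶜ, ?_, ?_⟩
  · intro j
    exact ⟨_, ⟨_, rfl⟩, rfl⟩
  · have h3 : ∀ (b : Bool) (i k : Fin d) (g : ι),
        (Fin.cons (-1 : ℝ) (sg b • a g k) : Fin (d + 1) → ℝ) ⬝ᵥ
          (Fin.cons (1 : ℝ) (L i) : Fin (d + 1) → ℝ) = -1 + sg b * (L i ⬝ᵥ a g k) := by
      intro b i k g
      rw [dotProduct, Fin.sum_univ_succ]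
      simp only [Fin.cons_zero, Fin.cons_succ, dotProduct, Finset.mul_sum, Pi.smul_apply,
        smul_eq_mul]
      congr 1
      · norm_num
      · refine Finset.sum_congr rfl ?_
        intro x _
        ring
    ext g
    simp only [Set.mem_setOf_eq, Finset.mem_univ, forall_const, Set.mem_compl_iff, not_lt]
    constructor
    · rintro h ⟨b, i, k⟩
      rw [h3]
      have h4 := abs_le.1 (h i k)
      rcases b with _ | _
      · simp only [sg, Bool.false_eq_true, if_false]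
        linarith [h4.1]
      · simp only [sg, if_true]
        linarith [h4.2]
    · intro h i k
      rw [abs_le]
      have h5 := h (true, i, k)
      have h6 := h (false, i, k)
      rw [h3] at h5 h6
      simp only [sg, Bool.false_eq_true, if_false, if_true] at h5 h6
      constructor <;> linarith

end MP4f30eb
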