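import Pool.Agent.Lib.MP_4f30eb_co.Defs
/-! Task C: nets by random halving. -/
namespace MP4f30eb
open Finset MeasureTheory
open scoped BigOperators Matrix Classical

/-- exponential moment of the discrepancy of a random subset -/
private theorem C_moment {ι : Type} (A t : Finset ι) (ht : t ⊆ A) (μ : ℝ) :
    ∑ B ∈ A.powerset, Real.exp (μ * (2 * ((B ∩ t).card : ℝ) - t.card))
      ≤ 2 ^ A.card * Real.exp (μ ^ 2 * A.card / 2) := by
  set x : ι → ℝ := fun i => if i ∈ t then 1 else 0 with hx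
  have h1 : ∏ i ∈ A, (Real.exp (μ * x i) + Real.exp (-(μ * x i)))
      = ∑ B ∈ A.powerset, Real.exp (μ * (2 * ((B ∩ t).card : ℝ) - t.card)) := by
    rw [Finset.prod_add]
    refine Finset.sum_congr rfl fun B hB => ?_
    have hBA : B ⊆ A := Finset.mem_powerset.mp hB
    rw [← Real.exp_sum, ← Real.exp_sum, ← Real.exp_add]
    congr 1
    rw [Finset.sum_neg_distrib, ← Finset.mul_sum, ← Finset.mul_sum]
    have h2 : ∑ i ∈ B, x i = ((B ∩ t).card : ℝ) := by
      simp only [hx, Finset.sum_ite_mem, Finset.sum_const, nsmul_eq_mul, mul_one]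
    have h3 : ∑ i ∈ A \ B, x i = (t.card : ℝ) - ((B ∩ t).card : ℝ) := by
      have h4 : ∑ i ∈ A \ B, x i + ∑ i ∈ B, x i = ∑ i ∈ A, x i := Finset.sum_sdiff hBA
      have h5 : ∑ i ∈ A, x i = (t.card : ℝ) := by
        simp only [hx, Finset.sum_ite_mem, Finset.sum_const, nsmul_eq_mul, mul_one]
        rw [Finset.inter_eq_right.mpr ht]
      rw [h2, h5] at h4
      linarith
    rw [h2, h3]
    ring
  rw [← h1]
  calc ∏ i ∈ A, (Real.exp (μ * x i) + Real.exp (-(μ * x i)))
      ≤ ∏ _i ∈ A, (2 * Real.exp (μ ^ 2 / 2)) := by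
        refine Finset.prod_le_prod (fun i _ => by positivity) fun i _ => ?_
        have hc := Real.cosh_le_exp_half_sq (μ * x i)
        rw [Real.cosh_eq] at hc
        have hle : Real.exp ((μ * x i) ^ 2 / 2) ≤ Real.exp (μ ^ 2 / 2) := by
          apply Real.exp_le_exp.mpr
          simp only [hx]
          split_ifs
          · simp
          · have := sq_nonneg μ
            rw [mul_zero]
            linarith
        linarith
    _ = 2 ^ A.card * Real.exp (μ ^ 2 * A.card / 2) := by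
        rw [Finset.prod_const, mul_pow, ← Real.exp_nat_mul]
        congr 2
        ring

/-- halving lemma -/
private theorem C_halving {ι : Type} (A : Finset ι) (T : Finset (Finset ι))
    (hT : ∀ t ∈ T, t ⊆ A) (hne : T.Nonempty) (lam : ℝ) (hlam : 0 < lam) :
    ∃ B ⊆ A, ∀ t ∈ T, |2 * ((B ∩ t).card : ℝ) - t.card|
      ≤ (Real.log (2 * T.card) + lam ^ 2 * A.card / 2) / lam := by
  have hTpos : (0 : ℝ) < T.card := by exact_mod_cast Finset.card_pos.mpr hne
  have hsum : ∑ B ∈ A.powerset, (∑ t ∈ T, (Real.exp (lam * (2 * ((B ∩ t).card : ℝ) - t.card))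
        + Real.exp (-lam * (2 * ((B ∩ t).card : ℝ) - t.card))))
      ≤ ∑ _B ∈ A.powerset, 2 * (T.card : ℝ) * Real.exp (lam ^ 2 * A.card / 2) := by
    rw [Finset.sum_comm]
    have h1 : ∀ t ∈ T, ∑ B ∈ A.powerset, (Real.exp (lam * (2 * ((B ∩ t).card : ℝ) - t.card))
        + Real.exp (-lam * (2 * ((B ∩ t).card : ℝ) - t.card)))
        ≤ 2 * (2 ^ A.card * Real.exp (lam ^ 2 * A.card / 2)) := by
      intro t ht
      rw [Finset.sum_add_distrib]
      have h2 := C_moment A t (hT t ht) lam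
      have h3 := C_moment A t (hT t ht) (-lam)
      rw [neg_sq] at h3
      linarith
    refine (Finset.sum_le_sum h1).trans ?_
    rw [Finset.sum_const, Finset.sum_const, nsmul_eq_mul, nsmul_eq_mul, Finset.card_powerset]
    push_cast
    apply le_of_eq
    ring
  obtain ⟨B, hB, hle⟩ := Finset.exists_le_of_sum_le
    ⟨∅, Finset.mem_powerset.mpr (Finset.empty_subset A)⟩ hsum
  refine ⟨B, Finset.mem_powerset.mp hB, fun t ht => ?_⟩
  have h4 : Real.exp (lam * |2 * ((B ∩ t).card : ℝ) - t.card|)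
      ≤ 2 * (T.card : ℝ) * Real.exp (lam ^ 2 * A.card / 2) := by
    refine le_trans ?_ hle
    refine le_trans ?_ (Finset.single_le_sum (f := fun t =>
      (Real.exp (lam * (2 * ((B ∩ t).card : ℝ) - t.card))
        + Real.exp (-lam * (2 * ((B ∩ t).card : ℝ) - t.card)))) (fun s _ => by positivity) ht)
    rcases abs_cases (2 * ((B ∩ t).card : ℝ) - t.card) with h | h
    · rw [h.1]
      have := Real.exp_pos (-lam * (2 * ((B ∩ t).card : ℝ) - t.card))
      linarith
    · rw [h.1]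
      have := Real.exp_pos (lam * (2 * ((B ∩ t).card : ℝ) - t.card))
      rw [mul_neg, ← neg_mul]
      linarith
  rw [le_div_iff₀ hlam]
  have h5 := Real.log_le_log (Real.exp_pos _) h4
  rw [Real.log_exp, Real.log_mul (by positivity) (Real.exp_pos _).ne', Real.log_exp] at h5
  linarith

private theorem C_step (P : ℕ) (γ : ℝ) (hγ : 0 < γ) : ∃ c : ℝ, 1 ≤ c ∧
    ∀ (ι : Type) (R : Set (Set ι)), TB R P → ∀ N : ℝ, 1 ≤ N → ∀ A : Finset ι,
      (A.card : ℝ) ≤ 2 * N → ∃ B ⊆ A,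
        (B.card : ℝ) ≤ A.card / 2 + c / 2 * (N ^ (1 / 2 : ℝ) * N ^ γ) ∧
        ∀ r ∈ R, ((A.filter (fun i => i ∈ r)).card : ℝ) / 2 - c / 2 * (N ^ (1 / 2 : ℝ) * N ^ γ)
          ≤ (B.filter (fun i => i ∈ r)).card := by
  refine ⟨Real.log 4 + 1 + P * (3 ^ γ / γ), ?_, ?_⟩
  · have h1 : 0 ≤ Real.log 4 := Real.log_nonneg (by norm_num)
    have h2 : 0 ≤ (P : ℝ) * (3 ^ γ / γ) := by positivity
    linarith
  intro ι R hR N hN A hA
  set T : Finset (Finset ι) := insert A (A.powerset.filter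
    (fun B => ∃ r ∈ R, ∀ i ∈ A, (i ∈ B ↔ i ∈ r))) with hTdef
  have hN0 : 0 < N := by linarith
  have hTsub : ∀ t ∈ T, t ⊆ A := by
    intro t ht
    rw [hTdef, Finset.mem_insert, Finset.mem_filter, Finset.mem_powerset] at ht
    rcases ht with rfl | ht
    · exact subset_rfl
    · exact ht.1
  have hTne : T.Nonempty := ⟨A, Finset.mem_insert_self _ _⟩
  have hTcard : (T.card : ℝ) ≤ 2 * (2 * N + 1) ^ P := by
    have h1 : T.card ≤ (A.card + 1) ^ P + 1 :=
      (Finset.card_insert_le _ _).trans (Nat.add_le_add_right (hR A) 1)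
    have h2 : ((A.card : ℝ) + 1) ^ P ≤ (2 * N + 1) ^ P :=
      pow_le_pow_left₀ (by positivity) (by linarith) P
    have h3 : (1 : ℝ) ≤ (2 * N + 1) ^ P := one_le_pow₀ (by linarith)
    have h4 : (T.card : ℝ) ≤ ((A.card : ℝ) + 1) ^ P + 1 := by exact_mod_cast h1
    linarith
  set s := Real.sqrt N with hs
  have hs0 : 0 < s := Real.sqrt_pos.mpr hN0
  have hss : s ^ 2 = N := Real.sq_sqrt hN0.le
  obtain ⟨B, hBA, hB⟩ := C_halving A T hTsub hTne (1 / s) (by positivity)
  have hlog : Real.log (2 * T.card) ≤ Real.log 4 + P * (3 ^ γ / γ) * N ^ γ := by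
    have hTpos : (0 : ℝ) < T.card := by exact_mod_cast Finset.card_pos.mpr hTne
    have h1 : Real.log (2 * T.card) ≤ Real.log (4 * (2 * N + 1) ^ P) :=
      Real.log_le_log (by positivity) (by linarith)
    have h1' : Real.log (4 * (2 * N + 1) ^ P) = Real.log 4 + P * Real.log (2 * N + 1) := by
      rw [Real.log_mul (by norm_num) (by positivity), Real.log_pow]
    rw [h1'] at h1
    have h2 : Real.log (2 * N + 1) ≤ (2 * N + 1) ^ γ / γ :=
      Real.log_le_rpow_div (by linarith) hγ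
    have h3 : (2 * N + 1) ^ γ ≤ (3 * N) ^ γ :=
      Real.rpow_le_rpow (by linarith) (by linarith) hγ.le
    rw [Real.mul_rpow (by norm_num) hN0.le] at h3
    have h4 : Real.log (2 * N + 1) ≤ 3 ^ γ / γ * N ^ γ := by
      calc Real.log (2 * N + 1) ≤ (2 * N + 1) ^ γ / γ := h2
        _ ≤ (3 ^ γ * N ^ γ) / γ := by gcongr
        _ = 3 ^ γ / γ * N ^ γ := by ring
    have h5 : (P : ℝ) * Real.log (2 * N + 1) ≤ P * (3 ^ γ / γ * N ^ γ) :=
      mul_le_mul_of_nonneg_left h4 (by positivity)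
    linarith
  have hNγ : (1 : ℝ) ≤ N ^ γ := Real.one_le_rpow hN hγ.le
  have hbound : (Real.log (2 * T.card) + (1 / s) ^ 2 * A.card / 2) / (1 / s)
      ≤ (Real.log 4 + 1 + P * (3 ^ γ / γ)) * (N ^ (1 / 2 : ℝ) * N ^ γ) := by
    have h1 : (Real.log (2 * T.card) + (1 / s) ^ 2 * A.card / 2) / (1 / s)
        = s * (Real.log (2 * T.card) + A.card / (2 * N)) := by
      rw [← hss]
      field_simp
    rw [h1, ← Real.sqrt_eq_rpow, ← hs]
    have h2 : (A.card : ℝ) / (2 * N) ≤ 1 := by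
      rw [div_le_one (by linarith)]
      exact hA
    have h0 : 0 ≤ Real.log 4 := Real.log_nonneg (by norm_num)
    have h3 : Real.log (2 * T.card) + A.card / (2 * N)
        ≤ (Real.log 4 + 1 + P * (3 ^ γ / γ)) * N ^ γ := by
      have h4 : (Real.log 4 + 1) * 1 ≤ (Real.log 4 + 1) * N ^ γ :=
        mul_le_mul_of_nonneg_left hNγ (by linarith)
      nlinarith
    calc s * (Real.log (2 * T.card) + A.card / (2 * N))
        ≤ s * ((Real.log 4 + 1 + P * (3 ^ γ / γ)) * N ^ γ) :=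
          mul_le_mul_of_nonneg_left h3 hs0.le
      _ = (Real.log 4 + 1 + P * (3 ^ γ / γ)) * (s * N ^ γ) := by ring
  refine ⟨B, hBA, ?_, ?_⟩
  · have h1 := (hB A (Finset.mem_insert_self _ _)).trans hbound
    rw [Finset.inter_eq_left.mpr hBA] at h1
    have h2 := (abs_le.mp h1).2
    linarith
  · intro r hr
    have hmem : A.filter (fun i => i ∈ r) ∈ T := by
      rw [hTdef, Finset.mem_insert, Finset.mem_filter, Finset.mem_powerset]
      right
      refine ⟨Finset.filter_subset _ _, r, hr, fun i hi => ?_⟩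
      simp [hi]
    have h1 := (hB _ hmem).trans hbound
    have h2 : B ∩ A.filter (fun i => i ∈ r) = B.filter (fun i => i ∈ r) := by
      ext i
      simp only [Finset.mem_inter, Finset.mem_filter]
      exact ⟨fun h => ⟨h.1, h.2.2⟩, fun h => ⟨h.1, hBA h.1, h.2⟩⟩
    rw [h2] at h1
    have h3 := (abs_le.mp h1).1
    linarith

private theorem C_iter (P : ℕ) (α : ℝ) (hα : 0 < α) (hα2 : α < 1 / 2) : ∃ c : ℝ, 1 ≤ c ∧
    ∀ (ι : Type) (R : Set (Set ι)), TB R P → ∀ (N : ℝ) (A : Finset ι), (A.card : ℝ) ≤ N →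
      ∀ k : ℕ, 1 ≤ N / 2 ^ k → c * (N / 2 ^ k) ^ (-α) ≤ 1 →
      ∃ X ⊆ A, (X.card : ℝ) ≤ N / 2 ^ k * (1 + c * (N / 2 ^ k) ^ (-α)) ∧
        ∀ r ∈ R, ((A.filter (fun i => i ∈ r)).card : ℝ) / 2 ^ k
          - N / 2 ^ k * (c * (N / 2 ^ k) ^ (-α)) ≤ (X.filter (fun i => i ∈ r)).card := by
  obtain ⟨c, hc1, hc⟩ := C_step P (1 / 2 - α) (by linarith)
  have h2α : (1 : ℝ) < 2 ^ α := Real.one_lt_rpow (by norm_num) hα
  have h2α2 : (2 : ℝ) ^ α < 2 := by
    calc (2 : ℝ) ^ α < 2 ^ (1 : ℝ) := Real.rpow_lt_rpow_of_exponent_lt (by norm_num) (by linarith)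
      _ = 2 := Real.rpow_one 2
  set c' := c / (2 ^ α - 1) with hc'
  have hd : 0 < (2 : ℝ) ^ α - 1 := by linarith
  have hc'1 : 1 ≤ c' := by
    rw [hc', le_div_iff₀ hd]
    linarith
  refine ⟨c', hc'1, ?_⟩
  intro ι R hR N A hA k
  induction k with
  | zero =>
    intro h1 _
    rw [pow_zero, div_one] at h1 ⊢
    have h2 : 0 ≤ N ^ (-α) := Real.rpow_nonneg (by linarith) _
    refine ⟨A, subset_rfl, ?_, ?_⟩
    · have : N * 1 ≤ N * (1 + c' * N ^ (-α)) := by
        apply mul_le_mul_of_nonneg_left _ (by linarith)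
        have : 0 ≤ c' * N ^ (-α) := by positivity
        linarith
      linarith
    · intro r _
      rw [div_one]
      have : 0 ≤ N * (c' * N ^ (-α)) := by positivity
      linarith
  | succ k ih =>
    intro h1 h2
    set M := N / 2 ^ k with hM
    have hM2 : N / 2 ^ (k + 1) = M / 2 := by
      rw [hM, pow_succ, div_div]
    rw [hM2] at h1 h2 ⊢
    have hM1 : 1 ≤ M := by linarith
    have hM0 : 0 < M := by linarith
    have hhalf : (M / 2) ^ (-α) = 2 ^ α * M ^ (-α) := by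
      rw [Real.div_rpow hM0.le (by norm_num), Real.rpow_neg (by norm_num : (0 : ℝ) ≤ 2)]
      field_simp
    have hMα : 0 < M ^ (-α) := Real.rpow_pos_of_pos hM0 _
    have hle : c' * M ^ (-α) ≤ 1 := by
      refine le_trans ?_ h2
      rw [hhalf]
      have h0 : 1 * M ^ (-α) ≤ 2 ^ α * M ^ (-α) := mul_le_mul_of_nonneg_right h2α.le hMα.le
      rw [one_mul] at h0
      exact mul_le_mul_of_nonneg_left h0 (by linarith)
    obtain ⟨X, hXA, hX1, hX2⟩ := ih hM1 hle
    have hXc : (X.card : ℝ) ≤ 2 * M := by nlinarith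
    obtain ⟨B, hBX, hB1, hB2⟩ := hc ι R hR M hM1 X hXc
    have hpow : M ^ (1 / 2 : ℝ) * M ^ (1 / 2 - α) = M * M ^ (-α) := by
      rw [← Real.rpow_add hM0]
      nth_rewrite 2 [← Real.rpow_one M]
      rw [← Real.rpow_add hM0]
      congr 1
      ring
    rw [hpow] at hB1 hB2
    have hkey : c' * M ^ (-α) + c * M ^ (-α) = c' * (M / 2) ^ (-α) := by
      rw [hhalf, hc']
      field_simp
      ring
    refine ⟨B, hBX.trans hXA, ?_, ?_⟩
    · rw [← hkey]
      calc (B.card : ℝ) ≤ X.card / 2 + c / 2 * (M * M ^ (-α)) := hB1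
        _ ≤ M * (1 + c' * M ^ (-α)) / 2 + c / 2 * (M * M ^ (-α)) := by linarith
        _ = M / 2 * (1 + (c' * M ^ (-α) + c * M ^ (-α))) := by ring
    · intro r hr
      have h3 := hX2 r hr
      have h4 := hB2 r hr
      rw [← hkey]
      have h5 : ((A.filter (fun i => i ∈ r)).card : ℝ) / 2 ^ (k + 1)
          = ((A.filter (fun i => i ∈ r)).card : ℝ) / 2 ^ k / 2 := by
        rw [pow_succ, div_div]
      rw [h5]
      calc ((A.filter (fun i => i ∈ r)).card : ℝ) / 2 ^ k / 2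
            - M / 2 * (c' * M ^ (-α) + c * M ^ (-α))
          = (((A.filter (fun i => i ∈ r)).card : ℝ) / 2 ^ k - M * (c' * M ^ (-α))) / 2
            - c / 2 * (M * M ^ (-α)) := by ring
        _ ≤ ((X.filter (fun i => i ∈ r)).card : ℝ) / 2 - c / 2 * (M * M ^ (-α)) := by linarith
        _ ≤ (B.filter (fun i => i ∈ r)).card := h4

theorem net (P : ℕ) (δ : ℝ) (hδ : 0 < δ) : ∃ C : ℝ, 0 < C ∧
    ∀ (ι : Type) (R : Set (Set ι)), TB R P → ∀ (F : Finset ι) (η : ℝ), 0 < η → η ≤ 1 →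
      ∃ X ⊆ F, (X.card : ℝ) ≤ C * η ^ (-(2 + δ)) ∧
        ∀ r ∈ R, 0 < (F.filter (fun i => i ∈ r)).card →
          η * F.card ≤ (F.filter (fun i => i ∈ r)).card → ∃ g ∈ X, g ∈ r := by
  have hα : (0 : ℝ) < 1 / (2 + δ) := by positivity
  have hα2 : 1 / (2 + δ) < 1 / 2 := by
    rw [div_lt_div_iff₀ (by linarith) (by norm_num)]
    linarith
  obtain ⟨c, hc1, hc⟩ := C_iter P (1 / (2 + δ)) hα hα2
  refine ⟨4 * (2 * c) ^ (2 + δ), by positivity, ?_⟩
  intro ι R hR F η hη hη1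
  set τ : ℝ := (2 * c / η) ^ (2 + δ) with hτ
  have h2c : 0 < 2 * c / η := by positivity
  have h2c1 : 1 ≤ 2 * c / η := by
    rw [le_div_iff₀ hη]
    linarith
  have hτ1 : 1 ≤ τ := Real.one_le_rpow h2c1 (by linarith)
  have hτ0 : 0 < τ := by linarith
  have hτe : τ = (2 * c) ^ (2 + δ) * η ^ (-(2 + δ)) := by
    rw [hτ, Real.div_rpow (by linarith) hη.le, Real.rpow_neg hη.le]
    rfl
  by_cases hF : (F.card : ℝ) < τ
  · refine ⟨F, subset_rfl, ?_, ?_⟩
    · rw [mul_assoc, ← hτe]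
      linarith
    · intro r _ hpos _
      obtain ⟨g, hg⟩ := Finset.card_pos.mp hpos
      rw [Finset.mem_filter] at hg
      exact ⟨g, hg.1, hg.2⟩
  · push Not at hF
    obtain ⟨k, hk1, hk2⟩ := exists_nat_pow_near (x := (F.card : ℝ) / τ) (y := (2 : ℝ))
      ((one_le_div hτ0).mpr hF) (by norm_num)
    have hM1 : τ ≤ (F.card : ℝ) / 2 ^ k := by
      rw [le_div_iff₀ (by positivity)]
      rw [le_div_iff₀ hτ0] at hk1
      linarith
    have hM2 : (F.card : ℝ) / 2 ^ k < 2 * τ := by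
      rw [div_lt_iff₀ (by positivity)]
      rw [div_lt_iff₀ hτ0, pow_succ] at hk2
      linarith
    set M : ℝ := (F.card : ℝ) / 2 ^ k with hM
    have hM0 : 0 < M := by linarith
    have hτα : τ ^ (-(1 / (2 + δ))) = η / (2 * c) := by
      rw [hτ, ← Real.rpow_mul h2c.le]
      have : (2 + δ) * -(1 / (2 + δ)) = -1 := by
        field_simp
      rw [this, Real.rpow_neg_one, inv_div]
    have hMα : M ^ (-(1 / (2 + δ))) ≤ η / (2 * c) := by
      rw [← hτα]
      exact Real.rpow_le_rpow_of_nonpos hτ0 hM1 (by linarith)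
    have hcM : c * M ^ (-(1 / (2 + δ))) ≤ η / 2 := by
      calc c * M ^ (-(1 / (2 + δ))) ≤ c * (η / (2 * c)) :=
            mul_le_mul_of_nonneg_left hMα (by linarith)
        _ = η / 2 := by field_simp
    obtain ⟨X, hXF, hX1, hX2⟩ := hc ι R hR F.card F le_rfl k (by rw [← hM]; linarith)
      (by rw [← hM]; linarith)
    rw [← hM] at hX1 hX2
    refine ⟨X, hXF, ?_, ?_⟩
    · rw [mul_assoc, ← hτe]
      calc (X.card : ℝ) ≤ M * (1 + c * M ^ (-(1 / (2 + δ)))) := hX1
        _ ≤ M * 2 := mul_le_mul_of_nonneg_left (by linarith) hM0.le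
        _ ≤ 4 * τ := by linarith
    · intro r hr _ hheavy
      have h3 := hX2 r hr
      have h4 : η * M ≤ ((F.filter (fun i => i ∈ r)).card : ℝ) / 2 ^ k := by
        rw [hM, ← mul_div_assoc]
        exact div_le_div_of_nonneg_right hheavy (by positivity)
      have h5 : M * (c * M ^ (-(1 / (2 + δ)))) ≤ M * (η / 2) :=
        mul_le_mul_of_nonneg_left hcM hM0.le
      have h6 : 0 < M * (η / 2) := by positivity
      have h7 : (0 : ℝ) < ((X.filter (fun i => i ∈ r)).card : ℝ) := by linarith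
      have h8 : 0 < (X.filter (fun i => i ∈ r)).card := by exact_mod_cast h7
      obtain ⟨g, hg⟩ := Finset.card_pos.mp h8
      rw [Finset.mem_filter] at hg
      exact ⟨g, hg.1, hg.2⟩

end MP4f30eb
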