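import Pool.Agent.Lib.MP_4f30eb_co.S_B
/-! Task D: short nets for weighted test vectors. -/
namespace MP4f30eb
open Finset MeasureTheory
open scoped BigOperators Matrix Classical

theorem short {I : Type} [Fintype I] (D : ℕ) (v : I → Fin D → ℝ) (w : I → ℝ)
    (hw : ∀ i, 0 < w i) (η : ℝ) (hη0 : 0 < η) (hη1 : η ≤ 1) (s : ℕ)
    (hs : ((Fintype.card I : ℝ) + 1) ^ (2 * D) * (1 - η) ^ s < 1) :
    ∃ T : Finset I, T.card ≤ s ∧ ∀ y y' : Fin D → ℝ,
      (∀ i ∈ T, ¬ (0 < v i ⬝ᵥ y ∧ v i ⬝ᵥ y' < 0)) →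
      ∑ i ∈ univ.filter (fun i => 0 < v i ⬝ᵥ y ∧ v i ⬝ᵥ y' < 0), w i ≤ η * ∑ i, w i := by
  set W : ℝ := ∑ i, w i with hW
  rcases isEmpty_or_nonempty I with hI | hI
  · refine ⟨∅, by simp, fun y y' _ => ?_⟩
    simp [hW]
  have hWpos : 0 < W := by
    rw [hW]
    exact Finset.sum_pos (fun i _ => hw i) Finset.univ_nonempty
  set 𝒮 : Finset (Finset I) := (univ : Finset I).powerset.filter
    (fun B => ∃ r ∈ {r | ∃ u v' : Fin D → ℝ, r = {i | 0 < v i ⬝ᵥ u ∧ v i ⬝ᵥ v' < 0}},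
      ∀ i ∈ (univ : Finset I), (i ∈ B ↔ i ∈ r)) with h𝒮
  have hcard : 𝒮.card ≤ (Fintype.card I + 1) ^ (2 * D) := by
    have := TB_zone D v (univ : Finset I)
    rw [Finset.card_univ] at this
    rw [h𝒮]
    convert this
  by_contra hcon
  push Not at hcon
  set ℋ : Finset (Finset I) := 𝒮.filter (fun B => η * W < ∑ i ∈ B, w i) with hℋ
  have key : ∀ f : Fin s → I, ∃ B ∈ ℋ, ∀ j, f j ∉ B := by
    intro f
    obtain ⟨y, y', h1, h2⟩ := hcon (univ.image f)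
      (by
        calc (univ.image f).card ≤ (univ : Finset (Fin s)).card := Finset.card_image_le
          _ = s := by simp)
    refine ⟨univ.filter (fun i => 0 < v i ⬝ᵥ y ∧ v i ⬝ᵥ y' < 0), ?_, ?_⟩
    · rw [hℋ, Finset.mem_filter]
      refine ⟨?_, h2⟩
      rw [h𝒮, Finset.mem_filter]
      refine ⟨by simp, {i | 0 < v i ⬝ᵥ y ∧ v i ⬝ᵥ y' < 0}, ⟨y, y', rfl⟩, ?_⟩
      intro i _
      simp
    · intro j hj
      rw [Finset.mem_filter] at hj
      exact absurd hj.2.2 (not_lt.2 (h1 (f j) (Finset.mem_image.2 ⟨j, Finset.mem_univ _, rfl⟩)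
        hj.2.1))
  have h1 : W ^ s = ∑ f : Fin s → I, ∏ j, w (f j) := by
    rw [hW, Fintype.sum_pow]
  have hprodpos : ∀ f : Fin s → I, 0 < ∏ j, w (f j) := fun f =>
    Finset.prod_pos (fun j _ => hw _)
  have h2 : ∑ f : Fin s → I, ∏ j, w (f j) ≤
      ∑ f : Fin s → I, ∑ B ∈ ℋ, if (∀ j, f j ∉ B) then ∏ j, w (f j) else 0 := by
    apply Finset.sum_le_sum
    intro f _
    obtain ⟨B, hB, hfB⟩ := key f
    calc ∏ j, w (f j) = if (∀ j, f j ∉ B) then ∏ j, w (f j) else 0 := by rw [if_pos hfB]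
      _ ≤ _ := by
        refine Finset.single_le_sum
          (f := fun B => if (∀ j, f j ∉ B) then ∏ j, w (f j) else 0) ?_ hB
        intro B' _
        show 0 ≤ if (∀ j, f j ∉ B') then ∏ j, w (f j) else 0
        split_ifs
        · exact (hprodpos f).le
        · exact le_rfl
  rw [Finset.sum_comm] at h2
  have h3 : ∀ B ∈ ℋ, ∑ f : Fin s → I, (if (∀ j, f j ∉ B) then ∏ j, w (f j) else 0) ≤
      ((1 - η) * W) ^ s := by
    intro B hB
    have e1 : ∑ f : Fin s → I, (if (∀ j, f j ∉ B) then ∏ j, w (f j) else 0) =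
        ∏ _j : Fin s, ∑ i ∈ Bᶜ, w i := by
      rw [Finset.prod_univ_sum, ← Finset.sum_filter]
      apply Finset.sum_congr
      · ext f
        simp [Fintype.mem_piFinset]
      · intro f _
        rfl
    rw [e1, Finset.prod_const, Finset.card_univ, Fintype.card_fin]
    apply pow_le_pow_left₀
    · exact Finset.sum_nonneg (fun i _ => (hw i).le)
    · have hB2 : η * W < ∑ i ∈ B, w i := (Finset.mem_filter.1 hB).2
      have : ∑ i ∈ B, w i + ∑ i ∈ Bᶜ, w i = W := Finset.sum_add_sum_compl B w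
      nlinarith
  have h4 : ∑ B ∈ ℋ, ∑ f : Fin s → I, (if (∀ j, f j ∉ B) then ∏ j, w (f j) else 0) ≤
      (ℋ.card : ℝ) * ((1 - η) * W) ^ s := by
    calc _ ≤ ∑ B ∈ ℋ, ((1 - η) * W) ^ s := Finset.sum_le_sum h3
      _ = _ := by rw [Finset.sum_const, nsmul_eq_mul]
  have h5 : (ℋ.card : ℝ) ≤ ((Fintype.card I : ℝ) + 1) ^ (2 * D) := by
    calc (ℋ.card : ℝ) ≤ (𝒮.card : ℝ) := by exact_mod_cast Finset.card_filter_le _ _
      _ ≤ (((Fintype.card I + 1) ^ (2 * D) : ℕ) : ℝ) := by exact_mod_cast hcard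
      _ = _ := by push_cast; rfl
  have h6 : (0 : ℝ) ≤ ((1 - η) * W) ^ s := by
    apply pow_nonneg
    exact mul_nonneg (by linarith) hWpos.le
  have h7 : W ^ s ≤ ((Fintype.card I : ℝ) + 1) ^ (2 * D) * ((1 - η) * W) ^ s := by
    calc W ^ s = _ := h1
      _ ≤ _ := h2
      _ ≤ _ := h4
      _ ≤ _ := mul_le_mul_of_nonneg_right h5 h6
  have h8 : ((Fintype.card I : ℝ) + 1) ^ (2 * D) * ((1 - η) * W) ^ s < W ^ s := by
    rw [mul_pow, ← mul_assoc]
    calc _ < 1 * W ^ s := by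
          apply mul_lt_mul_of_pos_right hs (pow_pos hWpos s)
      _ = W ^ s := one_mul _
  linarith

end MP4f30eb
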