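import Pool.Agent.Lib.MP_4f30eb_co.Defs
/-! Task E: perturbation to general position. -/
namespace MP4f30eb
open Finset MeasureTheory
open scoped BigOperators Matrix Classical

/-- E1 -/
theorem perturb_core {ι : Type} [Finite ι] (D : ℕ) (M N : ι → Fin D → ℝ)
    (hM : ∀ e : Fin D → ι, Function.Injective e → (Matrix.of fun i j => M (e i) j).det ≠ 0) :
    {t : ℝ | ∃ e : Fin D → ι, Function.Injective e ∧
      (Matrix.of fun i j => M (e i) j + t * N (e i) j).det = 0}.Finite := by
  have hEq : {t : ℝ | ∃ e : Fin D → ι, Function.Injective e ∧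
      (Matrix.of fun i j => M (e i) j + t * N (e i) j).det = 0}
      = ⋃ e : Fin D → ι, {t : ℝ | Function.Injective e ∧
      (Matrix.of fun i j => M (e i) j + t * N (e i) j).det = 0} := by
    ext t
    simp
  rw [hEq]
  apply Set.finite_iUnion
  intro e
  by_cases he : Function.Injective e
  · set P : Polynomial ℝ := (Matrix.of fun i j : Fin D =>
      Polynomial.C (M (e i) j) + Polynomial.X * Polynomial.C (N (e i) j)).det with hP
    have hev : ∀ t : ℝ, P.eval t = (Matrix.of fun i j => M (e i) j + t * N (e i) j).det := by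
      intro t
      rw [hP, ← Polynomial.coe_evalRingHom, RingHom.map_det]
      congr 1
      ext i j
      simp only [RingHom.mapMatrix_apply, Matrix.map_apply, Matrix.of_apply,
        Polynomial.coe_evalRingHom, Polynomial.eval_add, Polynomial.eval_C,
        Polynomial.eval_mul, Polynomial.eval_X]
    have hP0 : P ≠ 0 := by
      intro h0
      have h1 := hev 0
      rw [h0] at h1
      simp only [Polynomial.eval_zero, zero_mul, add_zero] at h1
      exact hM e he h1.symm
    refine (P.roots.toFinset.finite_toSet).subset ?_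
    intro t ht
    have ht2 : (Matrix.of fun i j => M (e i) j + t * N (e i) j).det = 0 := ht.2
    simp only [Finset.mem_coe, Multiset.mem_toFinset]
    rw [Polynomial.mem_roots hP0]
    show P.eval t = 0
    rw [hev t, ht2]
  · have : {t : ℝ | Function.Injective e ∧
      (Matrix.of fun i j => M (e i) j + t * N (e i) j).det = 0} = ∅ := by
      ext t
      simp [he]
    rw [this]
    exact Set.finite_empty

private lemma E_gp_of_det {ι : Type} [Fintype ι] {D : ℕ} (u : ι → Fin D → ℝ)
    (h : ∀ e : Fin D → ι, Function.Injective e → (Matrix.of fun i j => u (e i) j).det ≠ 0) :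
    GP u univ := by
  intro w hw
  by_contra hcon
  push Not at hcon
  obtain ⟨T, hT1, hT2⟩ := exists_subset_card_eq hcon
  have hT3 : Fintype.card T = D := by simpa using hT2
  let eq : Fin D ≃ T := (Fintype.equivFinOfCardEq hT3).symm
  let e : Fin D → ι := fun i => (eq i : ι)
  have he : Function.Injective e := fun i j hij => eq.injective (Subtype.ext hij)
  apply h e he
  rw [← Matrix.exists_mulVec_eq_zero_iff]
  refine ⟨w, hw, ?_⟩
  ext i
  have h1 : e i ∈ filter (fun i => u i ⬝ᵥ w = 0) univ := hT1 (eq i).2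
  rw [mem_filter] at h1
  exact h1.2

/-- distinct real nodes -/
private lemma E_nodes (ι : Type) [Fintype ι] : ∃ τ : ι → ℝ, Function.Injective τ :=
  ⟨fun i => ((Fintype.equivFin ι i : ℕ) : ℝ), fun i j hij => by
    have h1 : ((Fintype.equivFin ι i : ℕ)) = ((Fintype.equivFin ι j : ℕ)) := by
      have h2 : ((Fintype.equivFin ι i : ℕ) : ℝ) = ((Fintype.equivFin ι j : ℕ) : ℝ) := hij
      exact_mod_cast h2
    exact (Fintype.equivFin ι).injective (Fin.ext h1)⟩

private lemma E_vand {ι : Type} (D : ℕ) (τ : ι → ℝ) (hτ : Function.Injective τ)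
    (e : Fin D → ι) (he : Function.Injective e) :
    (Matrix.of fun i j : Fin D => τ (e i) ^ (j : ℕ)).det ≠ 0 := by
  have h1 : (Matrix.of fun i j : Fin D => τ (e i) ^ (j : ℕ)) = Matrix.vandermonde (τ ∘ e) := by
    ext i j
    simp [Matrix.vandermonde_apply]
  rw [h1, Matrix.det_vandermonde_ne_zero_iff]
  exact hτ.comp he

/-- E2 -/
theorem perturb_test {ι I : Type} [Fintype I] (D : ℕ) (v : I → Fin D → ℝ)
    (p : ι → Fin D → ℝ) (F : Finset ι) :
    ∃ v' : I ⊕ Fin D → Fin D → ℝ, GP v' univ ∧ ∀ i, ∀ g ∈ F,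
      (0 < v i ⬝ᵥ p g → 0 < v' (Sum.inl i) ⬝ᵥ p g) ∧
      (v i ⬝ᵥ p g < 0 → v' (Sum.inl i) ⬝ᵥ p g < 0) := by
  obtain ⟨τ, hτ⟩ := E_nodes (I ⊕ Fin D)
  let m : I ⊕ Fin D → Fin D → ℝ := fun i j => τ i ^ (j : ℕ)
  let N : I ⊕ Fin D → Fin D → ℝ := Sum.elim v (fun _ => 0)
  have hfin := perturb_core D m N (fun e he => E_vand D τ hτ e he)
  have hev1 : ∀ᶠ t : ℝ in Filter.atTop, t ∉ {t : ℝ | ∃ e : Fin D → I ⊕ Fin D,
      Function.Injective e ∧ (Matrix.of fun i j => m (e i) j + t * N (e i) j).det = 0} := by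
    have h1 : ∀ᶠ t : ℝ in Filter.cofinite, t ∉ {t : ℝ | ∃ e : Fin D → I ⊕ Fin D,
      Function.Injective e ∧ (Matrix.of fun i j => m (e i) j + t * N (e i) j).det = 0} :=
      hfin.eventually_cofinite_notMem
    exact Filter.Eventually.filter_mono Filter.atTop_le_cofinite h1
  have hpos : ∀ i, ∀ g ∈ F, ∀ᶠ t : ℝ in Filter.atTop,
      (0 < v i ⬝ᵥ p g → 0 < m (Sum.inl i) ⬝ᵥ p g + t * (v i ⬝ᵥ p g)) ∧
      (v i ⬝ᵥ p g < 0 → m (Sum.inl i) ⬝ᵥ p g + t * (v i ⬝ᵥ p g) < 0) := by
    intro i g _
    set A := v i ⬝ᵥ p g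
    set B := m (Sum.inl i) ⬝ᵥ p g
    rcases lt_trichotomy A 0 with hA | hA | hA
    · filter_upwards [Filter.eventually_gt_atTop (B / (-A))] with t ht
      refine ⟨fun h => absurd h (not_lt.mpr hA.le), fun _ => ?_⟩
      rw [div_lt_iff₀ (by linarith)] at ht
      nlinarith
    · exact Filter.Eventually.of_forall fun t =>
        ⟨fun h => absurd h (by rw [hA]; exact lt_irrefl _),
         fun h => absurd h (by rw [hA]; exact lt_irrefl _)⟩
    · filter_upwards [Filter.eventually_gt_atTop ((-B) / A)] with t ht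
      refine ⟨fun _ => ?_, fun h => absurd h (not_lt.mpr hA.le)⟩
      rw [div_lt_iff₀ hA] at ht
      linarith
  have hev2 : ∀ᶠ t : ℝ in Filter.atTop, ∀ i, ∀ g ∈ F,
      (0 < v i ⬝ᵥ p g → 0 < m (Sum.inl i) ⬝ᵥ p g + t * (v i ⬝ᵥ p g)) ∧
      (v i ⬝ᵥ p g < 0 → m (Sum.inl i) ⬝ᵥ p g + t * (v i ⬝ᵥ p g) < 0) := by
    rw [Filter.eventually_all]
    intro i
    rw [Filter.eventually_all_finset]
    exact fun g hg => hpos i g hg
  obtain ⟨t, ht1, ht2⟩ := (hev1.and hev2).exists
  refine ⟨fun i j => m i j + t * N i j, ?_, ?_⟩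
  · apply E_gp_of_det
    intro e he h0
    exact ht1 ⟨e, he, h0⟩
  · intro i g hg
    have h1 : (fun j => m (Sum.inl i) j + t * N (Sum.inl i) j) ⬝ᵥ p g
        = m (Sum.inl i) ⬝ᵥ p g + t * (v i ⬝ᵥ p g) := by
      simp only [N, Sum.elim_inl, dotProduct, mul_sum, ← sum_add_distrib]
      apply sum_congr rfl
      intro j _
      ring
    rw [h1]
    exact ht2 i g hg

private lemma E_hull {d : ℕ} (c : Fin d → ℝ) (a : Fin d → Fin d → ℝ) (k : Fin d)
    (μ : Fin d → ℝ) (hμ : ∑ j, |μ j| ≤ 1) :
    c + ∑ j, μ j • a j ∈ convexHull ℝ {x | ∃ j, x = c + a j ∨ x = c - a j} := by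
  set H := convexHull ℝ {x | ∃ j, x = c + a j ∨ x = c - a j} with hH
  have hconv : Convex ℝ H := convex_convexHull ℝ _
  have hp : ∀ j, c + a j ∈ H := fun j => subset_convexHull ℝ _ ⟨j, Or.inl rfl⟩
  have hm : ∀ j, c - a j ∈ H := fun j => subset_convexHull ℝ _ ⟨j, Or.inr rfl⟩
  have hc : c ∈ H := by
    have h1 := hconv (hp k) (hm k) (a := 1 / 2) (b := 1 / 2) (by norm_num) (by norm_num)
      (by norm_num)
    have h2 : (1 / 2 : ℝ) • (c + a k) + (1 / 2 : ℝ) • (c - a k) = c := by
      ext i
      simp only [Pi.add_apply, Pi.smul_apply, Pi.sub_apply, smul_eq_mul]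
      ring
    rwa [h2] at h1
  let s : Fin d → Fin d → ℝ := fun j => if 0 ≤ μ j then c + a j else c - a j
  have hs : ∀ j, s j ∈ H := by
    intro j
    by_cases h : 0 ≤ μ j
    · simp only [s, if_pos h]
      exact hp j
    · simp only [s, if_neg h]
      exact hm j
  have h3 := hconv.sum_mem (t := (univ : Finset (Option (Fin d))))
    (w := fun o => o.elim (1 - ∑ j, |μ j|) (fun j => |μ j|))
    (z := fun o => o.elim c s) ?_ ?_ ?_
  · have h4 : ∑ o : Option (Fin d), (o.elim (1 - ∑ j, |μ j|) (fun j => |μ j|) : ℝ) • (o.elim c s)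
        = c + ∑ j, μ j • a j := by
      rw [Fintype.sum_option]
      simp only [Option.elim_none, Option.elim_some]
      have h5 : ∀ j, |μ j| • s j = |μ j| • c + μ j • a j := by
        intro j
        by_cases h : 0 ≤ μ j
        · simp only [s, if_pos h, abs_of_nonneg h, smul_add]
        · have h' : μ j ≤ 0 := (not_le.mp h).le
          simp only [s, if_neg h, abs_of_nonpos h', smul_sub, neg_smul]
          abel
      simp_rw [h5, sum_add_distrib, ← sum_smul, sub_smul, one_smul]
      abel
    rw [h4] at h3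
    exact h3
  · intro o _
    cases o with
    | none => simpa using hμ
    | some j => simp
  · rw [Fintype.sum_option]
    simp
  · intro o _
    cases o with
    | none => exact hc
    | some j => exact hs j

/-- E3 -/
theorem perturb_centers {ι : Type} [Fintype ι] (d : ℕ) (c : ι → Fin d → ℝ)
    (a : ι → Fin d → Fin d → ℝ) (ha : ∀ g, (Matrix.of (a g)).det ≠ 0) :
    ∃ c' : ι → Fin d → ℝ, GP (fun g => hat (c' g)) univ ∧
      ∀ g k, c' g + (1 / 2 : ℝ) • a g k ∈
          convexHull ℝ {x | ∃ j, x = c g + a g j ∨ x = c g - a g j} ∧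
        c' g - (1 / 2 : ℝ) • a g k ∈
          convexHull ℝ {x | ∃ j, x = c g + a g j ∨ x = c g - a g j} := by
  obtain ⟨τ, hτ⟩ := E_nodes ι
  let m : ι → Fin (d + 1) → ℝ := fun i j => τ i ^ (j : ℕ)
  let N : ι → Fin (d + 1) → ℝ := fun i => Fin.cons 0 (c i)
  have hfin := perturb_core (d + 1) m N (fun e he => E_vand (d + 1) τ hτ e he)
  have hev1 : ∀ᶠ t : ℝ in Filter.atTop, t ∉ {t : ℝ | ∃ e : Fin (d + 1) → ι,
      Function.Injective e ∧ (Matrix.of fun i j => m (e i) j + t * N (e i) j).det = 0} :=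
    Filter.Eventually.filter_mono Filter.atTop_le_cofinite hfin.eventually_cofinite_notMem
  -- the vector of powers and its coordinates
  let y : ι → Fin d → ℝ := fun g j => τ g ^ ((j : ℕ) + 1)
  let ε : ι → Fin d → ℝ := fun g => Matrix.vecMul (y g) (Matrix.of (a g))⁻¹
  have hε : ∀ g, ∑ j, ε g j • a g j = y g := by
    intro g
    have h1 : Matrix.vecMul (ε g) (Matrix.of (a g)) = y g := by
      simp only [ε, Matrix.vecMul_vecMul]
      rw [Matrix.nonsing_inv_mul _ (isUnit_iff_ne_zero.mpr (ha g)), Matrix.vecMul_one]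
    rw [← h1]
    ext i
    simp [Matrix.vecMul, dotProduct, Finset.sum_apply]
  have hev2 : ∀ᶠ t : ℝ in Filter.atTop, ∀ g, 2 * ∑ j, |ε g j| ≤ t := by
    rw [Filter.eventually_all]
    intro g
    exact Filter.eventually_ge_atTop _
  obtain ⟨t, ⟨ht1, ht2⟩, ht3⟩ := ((hev1.and hev2).and (Filter.eventually_gt_atTop (0 : ℝ))).exists
  have htne : t ≠ 0 := ht3.ne'
  refine ⟨fun g => c g + (1 / t) • y g, ?_, ?_⟩
  · have hgp : GP (fun g j => m g j + t * N g j) (univ : Finset ι) := by
      apply E_gp_of_det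
      intro e he h0
      exact ht1 ⟨e, he, h0⟩
    intro w hw
    let w' : Fin (d + 1) → ℝ := Fin.cons (w 0) (fun j => (1 / t) * w j.succ)
    have hw' : w' ≠ 0 := by
      intro h0
      apply hw
      ext j
      refine Fin.cases ?_ (fun j => ?_) j
      · have := congrFun h0 0
        simpa [w'] using this
      · have := congrFun h0 j.succ
        simp only [w', Fin.cons_succ, Pi.zero_apply] at this
        rcases mul_eq_zero.mp this with h | h
        · exact absurd h (by positivity)
        · simpa using h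
    have h1 := hgp w' hw'
    have h2 : ∀ g, hat (c g + (1 / t) • y g) ⬝ᵥ w = (fun j => m g j + t * N g j) ⬝ᵥ w' := by
      intro g
      simp only [hat, dotProduct, Fin.sum_univ_succ, Fin.cons_zero, Fin.cons_succ, w', m, N, y,
        Pi.add_apply, Pi.smul_apply, smul_eq_mul, Fin.val_zero, pow_zero, mul_zero, add_zero,
        Fin.val_succ]
      congr 1
      apply sum_congr rfl
      intro j _
      field_simp
      ring
    simp_rw [h2]
    exact h1
  · intro g k
    have hsum : ∑ j, |(1 / t) * ε g j| ≤ 1 / 2 := by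
      have h1 : ∑ j, |(1 / t) * ε g j| = (1 / t) * ∑ j, |ε g j| := by
        rw [mul_sum]
        apply sum_congr rfl
        intro j _
        rw [abs_mul, abs_of_pos (by positivity)]
      rw [h1]
      rw [one_div, inv_mul_le_iff₀ ht3]
      linarith [ht2 g]
    have hrep : (1 / t) • y g = ∑ j, ((1 / t) * ε g j) • a g j := by
      rw [← hε g, smul_sum]
      apply sum_congr rfl
      intro j _
      rw [smul_smul]
    have hgen : ∀ s : ℝ, |s| ≤ 1 / 2 → c g + (1 / t) • y g + s • a g k ∈
        convexHull ℝ {x | ∃ j, x = c g + a g j ∨ x = c g - a g j} := by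
      intro s hs
      have h1 := E_hull (c g) (a g) k (fun j => (1 / t) * ε g j + if j = k then s else 0) ?_
      · have h2 : c g + ∑ j, ((1 / t) * ε g j + if j = k then s else 0) • a g j
            = c g + (1 / t) • y g + s • a g k := by
          simp_rw [add_smul, sum_add_distrib]
          rw [← hrep]
          simp [ite_smul, add_assoc]
        rw [h2] at h1
        exact h1
      · calc ∑ j, |(1 / t) * ε g j + if j = k then s else 0|
            ≤ ∑ j, (|(1 / t) * ε g j| + |if j = k then s else 0|) :=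
              sum_le_sum fun j _ => abs_add_le _ _
          _ = ∑ j, |(1 / t) * ε g j| + |s| := by
              rw [sum_add_distrib]
              congr 1
              have : ∀ j, |if j = k then s else (0 : ℝ)| = if j = k then |s| else 0 := by
                intro j
                split_ifs <;> simp
              simp_rw [this]
              simp
          _ ≤ 1 := by linarith
    constructor
    · exact hgen (1 / 2) (by norm_num)
    · have h3 := hgen (-(1 / 2)) (by norm_num)
      rw [neg_smul] at h3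
      rw [sub_eq_add_neg]
      exact h3

end MP4f30eb
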