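import Pool.Agent.Lib.MP_4f30eb_co.S_A
import Pool.Agent.Lib.MP_4f30eb_co.S_D
import Pool.Agent.Lib.MP_4f30eb_co.S_E
/-! Task F: the partition (part 1). -/
namespace MP4f30eb
open Finset MeasureTheory
open scoped BigOperators Matrix Classical

/-- `v` strictly crosses the class `R`. -/
def Cross {ι : Type} {D : ℕ} (p : ι → Fin D → ℝ) (v : Fin D → ℝ) (R : Finset ι) : Prop :=
  (∃ g ∈ R, 0 < v ⬝ᵥ p g) ∧ (∃ g ∈ R, v ⬝ᵥ p g < 0)

/-- the functional `y ↦ v ⬝ y` -/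
def dotL {D : ℕ} (v : Fin D → ℝ) : (Fin D → ℝ) →ₗ[ℝ] ℝ where
  toFun y := v ⬝ᵥ y
  map_add' x y := dotProduct_add v x y
  map_smul' c x := by simp [dotProduct_smul]

@[simp] theorem dotL_apply {D : ℕ} (v y : Fin D → ℝ) : dotL v y = v ⬝ᵥ y := rfl

theorem dot_sum_pos {D k : ℕ} (v : Fin D → ℝ) (z : Fin k → Fin D → ℝ) (a : Fin k → ℝ)
    (ha : ∀ j, 0 ≤ a j) (h : 0 < v ⬝ᵥ (∑ j, a j • z j)) : ∃ j, 0 < v ⬝ᵥ z j := by
  by_contra hcon
  push Not at hcon
  have : v ⬝ᵥ (∑ j, a j • z j) = ∑ j, a j * (v ⬝ᵥ z j) := by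
    have := map_sum (dotL v) (fun j => a j • z j) univ
    simp only [dotL_apply, dotProduct_smul, smul_eq_mul] at this
    exact this
  rw [this] at h
  have : ∑ j, a j * (v ⬝ᵥ z j) ≤ 0 :=
    Finset.sum_nonpos (fun j _ => mul_nonpos_of_nonneg_of_nonpos (ha j) (hcon j))
  linarith

theorem dot_sum_neg {D k : ℕ} (v : Fin D → ℝ) (z : Fin k → Fin D → ℝ) (a : Fin k → ℝ)
    (ha : ∀ j, 0 ≤ a j) (h : v ⬝ᵥ (∑ j, a j • z j) < 0) : ∃ j, v ⬝ᵥ z j < 0 := by
  by_contra hcon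
  push Not at hcon
  have : v ⬝ᵥ (∑ j, a j • z j) = ∑ j, a j * (v ⬝ᵥ z j) := by
    have := map_sum (dotL v) (fun j => a j • z j) univ
    simp only [dotL_apply, dotProduct_smul, smul_eq_mul] at this
    exact this
  rw [this] at h
  have : 0 ≤ ∑ j, a j * (v ⬝ᵥ z j) :=
    Finset.sum_nonneg (fun j _ => mul_nonneg (ha j) (hcon j))
  linarith

theorem exists_consis {ι V : Type} [AddCommGroup V] [Module ℝ V] (ℓ : ι → V →ₗ[ℝ] ℝ) (x : V) :
    ∃ σ : ι → Bool, Consis ℓ σ x := by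
  refine ⟨fun i => decide (0 ≤ ℓ i x), fun i => ?_⟩
  by_cases h : 0 ≤ ℓ i x
  · simp [sg, h]
  · simp only [sg, h, decide_false, Bool.false_eq_true, if_false]
    push Not at h
    linarith

/-- the chain lemma for vectors of a finite set in general position -/
theorem chain_dot {I : Type} (d : ℕ) (v : I → Fin (d + 1) → ℝ) (T : Finset I) (hv : GP v T)
    (hT : d + 1 ≤ T.card) :
    ∃ K : Finset ((I → Bool) × (Fin (d + 1) → Fin (d + 1) → ℝ)),
      K.card ≤ 2 * (2 * T.card) ^ d ∧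
      (∀ κ ∈ K, ∀ j, κ.2 j ≠ 0 ∧ ∀ i ∈ T, 0 ≤ sg (κ.1 i) * (v i ⬝ᵥ κ.2 j)) ∧
      ∀ x, x ≠ 0 → ∀ σ : I → Bool, (∀ i ∈ T, 0 ≤ sg (σ i) * (v i ⬝ᵥ x)) →
        ∃ κ ∈ K, (∀ i ∈ T, κ.1 i = σ i) ∧
        ∃ a : Fin (d + 1) → ℝ, (∀ j, 0 ≤ a j) ∧ x = ∑ j, a j • κ.2 j := by
  have hfr : Module.finrank ℝ (Fin (d + 1) → ℝ) = d + 1 := by simp
  have hz : ∀ x : Fin (d + 1) → ℝ, x ≠ 0 →
      (univ.filter (fun i : {i // i ∈ T} => dotL (v i) x = 0)).card ≤ d := by
    intro x hx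
    have h1 := hv x hx
    have h2 : (univ.filter (fun i : {i // i ∈ T} => dotL (v i) x = 0)).card ≤
        (T.filter (fun i => v i ⬝ᵥ x = 0)).card := by
      refine Finset.card_le_card_of_injOn (fun i => (i : I)) ?_ ?_
      · intro i hi
        simp only [Finset.coe_filter, Finset.mem_univ, true_and, Set.mem_ofPred_eq, dotL_apply] at hi
        simp only [Finset.coe_filter, Set.mem_ofPred_eq]
        exact ⟨i.2, hi⟩
      · intro i _ j _ h
        exact Subtype.ext h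
    omega
  obtain ⟨K, hK1, hK2, hK3⟩ := chain d (Fin (d + 1) → ℝ) {i // i ∈ T} (fun i => dotL (v i))
    hfr (by simpa using hT) hz
  let ext : ({i // i ∈ T} → Bool) → (I → Bool) := fun σ i => if h : i ∈ T then σ ⟨i, h⟩ else true
  have hext : ∀ σ (i : I) (h : i ∈ T), ext σ i = σ ⟨i, h⟩ := by
    intro σ i h
    simp only [ext, dif_pos h]
  refine ⟨K.image (fun κ => (ext κ.1, κ.2)), ?_, ?_, ?_⟩
  · calc _ ≤ K.card := Finset.card_image_le
      _ ≤ _ := by simpa using hK1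
  · intro κ hκ j
    rw [Finset.mem_image] at hκ
    obtain ⟨κ₀, hκ₀, rfl⟩ := hκ
    obtain ⟨h1, h2⟩ := hK2 κ₀ hκ₀ j
    refine ⟨h1, fun i hi => ?_⟩
    have := h2 ⟨i, hi⟩
    show 0 ≤ sg (ext κ₀.1 i) * _
    rw [hext _ _ hi]
    exact this
  · intro x hx σ hσ
    obtain ⟨κ, hκ, h1, a, ha, hxa⟩ := hK3 x hx (fun i => σ i) (fun i => hσ i i.2)
    refine ⟨_, Finset.mem_image_of_mem _ hκ, ?_, a, ha, hxa⟩
    intro i hi
    show ext κ.1 i = σ i
    rw [hext _ _ hi, h1]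

/-- One step of the partition. -/
theorem part_step {ι I : Type} [Fintype I] (d : ℕ) (p : ι → Fin (d + 1) → ℝ) (U : Finset ι)
    (hp : ∀ g ∈ U, p g ≠ 0) (v : I → Fin (d + 1) → ℝ) (hv : GP v univ)
    (hI : d + 1 ≤ Fintype.card I) (w : I → ℝ) (hw : ∀ i, 0 < w i) (η : ℝ) (hη0 : 0 < η)
    (hη1 : η ≤ 1) (s : ℕ)
    (hs : ((Fintype.card I : ℝ) + 1) ^ (2 * (d + 1)) * (1 - η) ^ s < 1) (b : ℕ) (hb : 1 ≤ b)
    (hU : 2 * (2 * (s + (d + 1))) ^ d * b ≤ U.card) :
    ∃ R ⊆ U, R.card = b ∧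
      ∑ i ∈ univ.filter (fun i => Cross p (v i) R), w i ≤ (d + 1) ^ 2 * η * ∑ i, w i := by
  obtain ⟨T, hTs, hT⟩ := short (d + 1) v w hw η hη0 hη1 s hs
  obtain ⟨A0, _, hA0⟩ := Finset.exists_subset_card_eq
    (s := (univ : Finset I)) (n := d + 1) (by rw [Finset.card_univ]; exact hI)
  set T' : Finset I := T ∪ A0 with hT'
  have hT'1 : T'.card ≤ s + (d + 1) := by
    calc T'.card ≤ T.card + A0.card := Finset.card_union_le _ _
      _ ≤ _ := by omega
  have hT'2 : d + 1 ≤ T'.card := by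
    rw [← hA0]
    exact Finset.card_le_card Finset.subset_union_right
  have hv' : GP v T' := by
    intro x hx
    refine lt_of_le_of_lt (Finset.card_le_card ?_) (hv x hx)
    exact Finset.filter_subset_filter _ (Finset.subset_univ _)
  obtain ⟨K, hK1, hK2, hK3⟩ := chain_dot d v T' hv' hT'2
  have hK1' : K.card ≤ 2 * (2 * (s + (d + 1))) ^ d := by
    refine hK1.trans ?_
    have : (2 * T'.card) ^ d ≤ (2 * (s + (d + 1))) ^ d := Nat.pow_le_pow_left (by omega) d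
    omega
  have hcode : ∀ g ∈ U, ∃ κ ∈ K, ∃ a : Fin (d + 1) → ℝ, (∀ j, 0 ≤ a j) ∧
      p g = ∑ j, a j • κ.2 j := by
    intro g hg
    obtain ⟨σ, hσ⟩ := exists_consis (fun i : I => dotL (v i)) (p g)
    obtain ⟨κ, hκ, _, a, ha, hpa⟩ := hK3 (p g) (hp g hg) σ (fun i _ => hσ i)
    exact ⟨κ, hκ, a, ha, hpa⟩
  choose! code hcodeK hcodea using hcode
  have hUne : U.Nonempty := by
    rw [← Finset.card_pos]
    have : 0 < 2 * (2 * (s + (d + 1))) ^ d * b := by positivity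
    omega
  have hKne : K.Nonempty := by
    obtain ⟨g, hg⟩ := hUne
    exact ⟨_, hcodeK g hg⟩
  have hmul : K.card * b ≤ U.card := le_trans (Nat.mul_le_mul_right b hK1') hU
  obtain ⟨κ, hκ, hκb⟩ := Finset.exists_le_card_fiber_of_mul_le_card_of_maps_to
    (f := code) hcodeK hKne hmul
  obtain ⟨R, hR, hRb⟩ := Finset.exists_subset_card_eq hκb
  have hRU : ∀ g ∈ R, g ∈ U ∧ code g = κ := fun g hg => Finset.mem_filter.1 (hR hg)
  refine ⟨R, fun g hg => (hRU g hg).1, hRb, ?_⟩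
  have hcross : ∀ i, Cross p (v i) R → ∃ jj : Fin (d + 1) × Fin (d + 1),
      0 < v i ⬝ᵥ κ.2 jj.1 ∧ v i ⬝ᵥ κ.2 jj.2 < 0 := by
    rintro i ⟨⟨g, hg, hgp⟩, ⟨g', hg', hgn⟩⟩
    obtain ⟨hgU, hgκ⟩ := hRU g hg
    obtain ⟨hgU', hgκ'⟩ := hRU g' hg'
    obtain ⟨a, ha, hpa⟩ := hcodea g hgU
    obtain ⟨a', ha', hpa'⟩ := hcodea g' hgU'
    rw [hgκ] at hpa
    rw [hgκ'] at hpa'
    rw [hpa] at hgp
    rw [hpa'] at hgn
    obtain ⟨j, hj⟩ := dot_sum_pos _ _ a ha hgp
    obtain ⟨j', hj'⟩ := dot_sum_neg _ _ a' ha' hgn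
    exact ⟨(j, j'), hj, hj'⟩
  have hpair : ∀ jj : Fin (d + 1) × Fin (d + 1),
      ∑ i ∈ univ.filter (fun i => 0 < v i ⬝ᵥ κ.2 jj.1 ∧ v i ⬝ᵥ κ.2 jj.2 < 0), w i ≤
        η * ∑ i, w i := by
    intro jj
    apply hT
    rintro i hi ⟨h1, h2⟩
    have hiT' : i ∈ T' := Finset.mem_union_left _ hi
    have c1 := (hK2 κ hκ jj.1).2 i hiT'
    have c2 := (hK2 κ hκ jj.2).2 i hiT'
    unfold sg at c1 c2
    split_ifs at c1 c2
    · linarith
    · linarith
  calc ∑ i ∈ univ.filter (fun i => Cross p (v i) R), w i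
      ≤ ∑ i ∈ univ.filter (fun i => Cross p (v i) R), ∑ jj : Fin (d + 1) × Fin (d + 1),
          (if (0 < v i ⬝ᵥ κ.2 jj.1 ∧ v i ⬝ᵥ κ.2 jj.2 < 0) then w i else 0) := by
        apply Finset.sum_le_sum
        intro i hi
        obtain ⟨jj, hjj⟩ := hcross i (Finset.mem_filter.1 hi).2
        calc w i = (if (0 < v i ⬝ᵥ κ.2 jj.1 ∧ v i ⬝ᵥ κ.2 jj.2 < 0) then w i else 0) := by
              rw [if_pos hjj]
          _ ≤ _ := by
              refine Finset.single_le_sum (f := fun jj : Fin (d + 1) × Fin (d + 1) =>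
                (if (0 < v i ⬝ᵥ κ.2 jj.1 ∧ v i ⬝ᵥ κ.2 jj.2 < 0) then w i else 0)) ?_
                (Finset.mem_univ jj)
              intro jj' _
              show 0 ≤ (if (0 < v i ⬝ᵥ κ.2 jj'.1 ∧ v i ⬝ᵥ κ.2 jj'.2 < 0) then w i else 0)
              split_ifs
              · exact (hw i).le
              · exact le_rfl
    _ ≤ ∑ i, ∑ jj : Fin (d + 1) × Fin (d + 1),
          (if (0 < v i ⬝ᵥ κ.2 jj.1 ∧ v i ⬝ᵥ κ.2 jj.2 < 0) then w i else 0) := by
        apply Finset.sum_le_sum_of_subset_of_nonneg (Finset.subset_univ _)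
        intro i _ _
        apply Finset.sum_nonneg
        intro jj' _
        split_ifs
        · exact (hw i).le
        · exact le_rfl
    _ = ∑ jj : Fin (d + 1) × Fin (d + 1), ∑ i,
          (if (0 < v i ⬝ᵥ κ.2 jj.1 ∧ v i ⬝ᵥ κ.2 jj.2 < 0) then w i else 0) :=
        Finset.sum_comm
    _ ≤ ∑ jj : Fin (d + 1) × Fin (d + 1), η * ∑ i, w i := by
        apply Finset.sum_le_sum
        intro jj _
        rw [← Finset.sum_filter]
        exact hpair jj
    _ = (d + 1) ^ 2 * η * ∑ i, w i := by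
        rw [Finset.sum_const, Finset.card_univ, Fintype.card_prod, Fintype.card_fin, nsmul_eq_mul]
        push_cast
        ring

/-- All steps of the partition, for test vectors in general position. -/
theorem part_iter {ι I : Type} [Fintype I] (d : ℕ) (p : ι → Fin (d + 1) → ℝ)
    (v : I → Fin (d + 1) → ℝ) (hv : GP v univ)
    (hI : d + 1 ≤ Fintype.card I) (η : ℝ) (hη0 : 0 < η)
    (hη1 : η ≤ 1) (s : ℕ)
    (hs : ((Fintype.card I : ℝ) + 1) ^ (2 * (d + 1)) * (1 - η) ^ s < 1) (b : ℕ) (hb : 1 ≤ b) :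
    ∀ (n : ℕ) (U : Finset ι), U.card ≤ n → (∀ g ∈ U, p g ≠ 0) →
      ∀ w : I → ℝ, (∀ i, 0 < w i) →
      ∃ 𝓡 : Finset (Finset ι), (∀ R ∈ 𝓡, R ⊆ U ∧ R.card = b) ∧
        (∀ R ∈ 𝓡, ∀ R' ∈ 𝓡, R ≠ R' → Disjoint R R') ∧
        (U.filter (fun g => ∀ R ∈ 𝓡, g ∉ R)).card < 2 * (2 * (s + (d + 1))) ^ d * b ∧
        ∑ i, w i * 2 ^ (𝓡.filter (fun R => Cross p (v i) R)).card ≤
          (∑ i, w i) * (1 + (d + 1) ^ 2 * η) ^ 𝓡.card := by
  intro n
  induction n with
  | zero =>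
    intro U hU _ w _
    refine ⟨∅, by simp, by simp, ?_, by simp⟩
    have : U.card = 0 := by omega
    have h0 : 0 < 2 * (2 * (s + (d + 1))) ^ d * b := by positivity
    calc _ ≤ U.card := Finset.card_filter_le _ _
      _ < _ := by omega
  | succ n ih =>
    intro U hU hpU w hw
    by_cases hsmall : U.card < 2 * (2 * (s + (d + 1))) ^ d * b
    · refine ⟨∅, by simp, by simp, ?_, by simp⟩
      calc _ ≤ U.card := Finset.card_filter_le _ _
        _ < _ := hsmall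
    · push Not at hsmall
      obtain ⟨R₀, hR₀U, hR₀b, hR₀w⟩ := part_step d p U hpU v hv hI w hw η hη0 hη1 s hs b hb hsmall
      set w' : I → ℝ := fun i => if Cross p (v i) R₀ then 2 * w i else w i with hw'
      have hw'pos : ∀ i, 0 < w' i := by
        intro i
        show 0 < if Cross p (v i) R₀ then 2 * w i else w i
        split_ifs
        · linarith [hw i]
        · exact hw i
      have hR₀ne : R₀.Nonempty := by
        rw [← Finset.card_pos]; omega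
      have hUcard : (U \ R₀).card ≤ n := by
        rw [Finset.card_sdiff_of_subset hR₀U]
        omega
      obtain ⟨𝓡, h1, h2, h3, h4⟩ := ih (U \ R₀) hUcard
        (fun g hg => hpU g (Finset.mem_sdiff.1 hg).1) w' hw'pos
      have hnotin : R₀ ∉ 𝓡 := by
        intro h
        obtain ⟨g, hg⟩ := hR₀ne
        exact (Finset.mem_sdiff.1 ((h1 R₀ h).1 hg)).2 hg
      have hdisj : ∀ R ∈ 𝓡, Disjoint R₀ R := by
        intro R hR
        rw [Finset.disjoint_left]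
        intro g hg hgR
        exact (Finset.mem_sdiff.1 ((h1 R hR).1 hgR)).2 hg
      refine ⟨insert R₀ 𝓡, ?_, ?_, ?_, ?_⟩
      · intro R hR
        rcases Finset.mem_insert.1 hR with rfl | hR
        · exact ⟨hR₀U, hR₀b⟩
        · exact ⟨(h1 R hR).1.trans Finset.sdiff_subset, (h1 R hR).2⟩
      · intro R hR R' hR' hne
        rcases Finset.mem_insert.1 hR with hq | hq
        · rcases Finset.mem_insert.1 hR' with hq' | hq'
          · exact absurd (hq.trans hq'.symm) hne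
          · rw [hq]; exact hdisj R' hq'
        · rcases Finset.mem_insert.1 hR' with hq' | hq'
          · rw [hq']; exact (hdisj R hq).symm
          · exact h2 R hq R' hq' hne
      · refine lt_of_le_of_lt (Finset.card_le_card ?_) h3
        intro g hg
        rw [Finset.mem_filter] at hg ⊢
        refine ⟨Finset.mem_sdiff.2 ⟨hg.1, hg.2 R₀ (Finset.mem_insert_self _ _)⟩, ?_⟩
        intro R hR
        exact hg.2 R (Finset.mem_insert_of_mem hR)
      · rw [Finset.card_insert_of_notMem hnotin]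
        have e1 : ∀ i, w i * 2 ^ ((insert R₀ 𝓡).filter (fun R => Cross p (v i) R)).card =
            w' i * 2 ^ (𝓡.filter (fun R => Cross p (v i) R)).card := by
          intro i
          rw [Finset.filter_insert]
          by_cases hc : Cross p (v i) R₀
          · rw [if_pos hc, Finset.card_insert_of_notMem
              (fun h => hnotin (Finset.mem_filter.1 h).1)]
            simp only [hw', if_pos hc]
            ring
          · rw [if_neg hc]
            simp only [hw', if_neg hc]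
        rw [Finset.sum_congr rfl (fun i _ => e1 i)]
        have e2 : ∑ i, w' i ≤ (∑ i, w i) * (1 + (d + 1) ^ 2 * η) := by
          have : ∑ i, w' i = ∑ i, w i +
              ∑ i ∈ univ.filter (fun i => Cross p (v i) R₀), w i := by
            rw [Finset.sum_filter, ← Finset.sum_add_distrib]
            apply Finset.sum_congr rfl
            intro i _
            simp only [hw']
            split_ifs <;> ring
          rw [this]
          nlinarith [hR₀w]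
        have e3 : (0 : ℝ) ≤ (1 + (d + 1) ^ 2 * η) ^ 𝓡.card := by positivity
        calc _ ≤ (∑ i, w' i) * (1 + (d + 1) ^ 2 * η) ^ 𝓡.card := h4
          _ ≤ ((∑ i, w i) * (1 + (d + 1) ^ 2 * η)) * (1 + (d + 1) ^ 2 * η) ^ 𝓡.card :=
            mul_le_mul_of_nonneg_right e2 e3
          _ = _ := by rw [pow_succ]; ring

/-- The partition for arbitrary test vectors. -/
theorem part_test {ι I : Type} [Fintype I] (d : ℕ) (p : ι → Fin (d + 1) → ℝ) (F : Finset ι)
    (hp : ∀ g ∈ F, p g ≠ 0)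
    (v : I → Fin (d + 1) → ℝ) (η : ℝ) (hη0 : 0 < η)
    (hη1 : η ≤ 1) (s : ℕ)
    (hs : (((Fintype.card I + (d + 1) : ℕ) : ℝ) + 1) ^ (2 * (d + 1)) * (1 - η) ^ s < 1)
    (b : ℕ) (hb : 1 ≤ b) :
      ∃ 𝓡 : Finset (Finset ι), (∀ R ∈ 𝓡, R ⊆ F ∧ R.card = b) ∧
        (∀ R ∈ 𝓡, ∀ R' ∈ 𝓡, R ≠ R' → Disjoint R R') ∧
        (F.filter (fun g => ∀ R ∈ 𝓡, g ∉ R)).card < 2 * (2 * (s + (d + 1))) ^ d * b ∧
        ∀ i, (2 : ℝ) ^ (𝓡.filter (fun R => Cross p (v i) R)).card ≤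
          ((Fintype.card I + (d + 1) : ℕ) : ℝ) * (1 + (d + 1) ^ 2 * η) ^ 𝓡.card := by
  obtain ⟨v', hv', hvv⟩ := perturb_test (d + 1) v p F
  have hcard : Fintype.card (I ⊕ Fin (d + 1)) = Fintype.card I + (d + 1) := by simp
  obtain ⟨𝓡, h1, h2, h3, h4⟩ := part_iter d p v' hv' (by rw [hcard]; omega) η hη0 hη1 s
    (by rw [hcard]; exact hs) b hb F.card F le_rfl hp (fun _ => 1) (fun _ => one_pos)
  refine ⟨𝓡, h1, h2, h3, fun i => ?_⟩
  have e1 : (2 : ℝ) ^ (𝓡.filter (fun R => Cross p (v i) R)).card ≤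
      2 ^ (𝓡.filter (fun R => Cross p (v' (Sum.inl i)) R)).card := by
    apply pow_le_pow_right₀ (by norm_num)
    apply Finset.card_le_card
    intro R hR
    rw [Finset.mem_filter] at hR ⊢
    refine ⟨hR.1, ?_⟩
    obtain ⟨⟨g, hg, hg2⟩, ⟨g', hg', hg2'⟩⟩ := hR.2
    have hRF := (h1 R hR.1).1
    exact ⟨⟨g, hg, (hvv i g (hRF hg)).1 hg2⟩, ⟨g', hg', (hvv i g' (hRF hg')).2 hg2'⟩⟩
  calc _ ≤ _ := e1
    _ = 1 * 2 ^ (𝓡.filter (fun R => Cross p (v' (Sum.inl i)) R)).card := by rw [one_mul]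
    _ ≤ ∑ i : I ⊕ Fin (d + 1), (1 : ℝ) * 2 ^ (𝓡.filter (fun R => Cross p (v' i) R)).card := by
      refine Finset.single_le_sum (f := fun i : I ⊕ Fin (d + 1) =>
        (1 : ℝ) * 2 ^ (𝓡.filter (fun R => Cross p (v' i) R)).card) ?_ (Finset.mem_univ _)
      intro i _
      positivity
    _ ≤ _ := h4
    _ = _ := by
      rw [Finset.sum_const, Finset.card_univ, hcard, nsmul_eq_mul, mul_one]

end MP4f30eb
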