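import Pool.Agent.Lib.MP_4f30eb_co.Defs
/-! Task K: the choice of the constants. -/
namespace MP4f30eb
open Finset MeasureTheory
open scoped BigOperators Matrix Classical

/-- the number `r` as a function of `s` -/
def K_r (d s : ℕ) : ℕ := 8 * (2 * (2 * (s + (d + 1))) ^ d)

/-- the bound for `N` as a function of `s` -/
noncomputable def K_N (d : ℕ) (CX : ℝ) (s : ℕ) : ℝ :=
  (d + 1) * (2 * (2 * (CX * (K_r d s : ℝ) ^ (3 : ℕ) + (d + 1))) ^ d) + (d + 1)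

theorem K_r_le (d : ℕ) : ∃ C : ℝ, 0 < C ∧ ∀ s : ℕ, 1 ≤ s → (K_r d s : ℝ) ≤ C * (s : ℝ) ^ d := by
  refine ⟨16 * (2 * ((d : ℝ) + 2)) ^ d, by positivity, fun s hs => ?_⟩
  have hs' : (1 : ℝ) ≤ s := by exact_mod_cast hs
  unfold K_r
  push_cast
  have h1 : (2 * ((s : ℝ) + (d + 1))) ≤ 2 * ((d : ℝ) + 2) * s := by
    nlinarith [(Nat.cast_nonneg d : (0 : ℝ) ≤ d)]
  have h2 : (2 * ((s : ℝ) + (d + 1))) ^ d ≤ (2 * ((d : ℝ) + 2) * s) ^ d :=
    pow_le_pow_left₀ (by positivity) h1 d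
  rw [mul_pow (2 * ((d : ℝ) + 2)) (s : ℝ) d] at h2
  nlinarith

theorem K_r_ge (d s : ℕ) : (s : ℝ) ^ d ≤ (K_r d s : ℝ) := by
  unfold K_r
  push_cast
  have h1 : (s : ℝ) ≤ (2 * ((s : ℝ) + (d + 1))) := by
    nlinarith [(Nat.cast_nonneg d : (0 : ℝ) ≤ d), (Nat.cast_nonneg s : (0 : ℝ) ≤ s)]
  have h2 : (s : ℝ) ^ d ≤ (2 * ((s : ℝ) + (d + 1))) ^ d :=
    pow_le_pow_left₀ (by positivity) h1 d
  have h3 : 0 ≤ (2 * ((s : ℝ) + (d + 1))) ^ d := by positivity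
  nlinarith

theorem K_N_le (d : ℕ) (CX : ℝ) (hCX : 0 < CX) :
    ∃ C : ℝ, 0 < C ∧ ∀ s : ℕ, 1 ≤ s → K_N d CX s + 2 ≤ C * (s : ℝ) ^ (d * 3 * d) := by
  obtain ⟨Cr, hCr, hr⟩ := K_r_le d
  refine ⟨(d + 1) * (2 * (2 * (CX * Cr ^ 3 + (d + 1))) ^ d) + (d + 3), by positivity,
    fun s hs => ?_⟩
  have hs' : (1 : ℝ) ≤ s := by exact_mod_cast hs
  have h1 : (K_r d s : ℝ) ^ 3 ≤ Cr ^ 3 * (s : ℝ) ^ (d * 3) := by
    have := pow_le_pow_left₀ (by positivity) (hr s hs) 3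
    rwa [mul_pow, ← pow_mul] at this
  have h2 : (1 : ℝ) ≤ (s : ℝ) ^ (d * 3) := one_le_pow₀ hs'
  have h3 : 2 * (CX * (K_r d s : ℝ) ^ 3 + (d + 1)) ≤
      (2 * (CX * Cr ^ 3 + (d + 1))) * (s : ℝ) ^ (d * 3) := by
    have e1 : CX * (K_r d s : ℝ) ^ 3 ≤ CX * (Cr ^ 3 * (s : ℝ) ^ (d * 3)) :=
      mul_le_mul_of_nonneg_left h1 hCX.le
    have e2 : ((d : ℝ) + 1) ≤ (d + 1) * (s : ℝ) ^ (d * 3) :=
      le_mul_of_one_le_right (by positivity) h2
    nlinarith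
  have h4 : (2 * (CX * (K_r d s : ℝ) ^ 3 + (d + 1))) ^ d ≤
      (2 * (CX * Cr ^ 3 + (d + 1))) ^ d * (s : ℝ) ^ (d * 3 * d) := by
    have := pow_le_pow_left₀ (by positivity) h3 d
    rwa [mul_pow _ ((s : ℝ) ^ (d * 3)) d, ← pow_mul] at this
  have h5 : (1 : ℝ) ≤ (s : ℝ) ^ (d * 3 * d) := one_le_pow₀ hs'
  unfold K_N
  have e3 : ((d : ℝ) + 1) * (2 * (2 * (CX * (K_r d s : ℝ) ^ 3 + (d + 1))) ^ d) ≤
      (d + 1) * (2 * ((2 * (CX * Cr ^ 3 + (d + 1))) ^ d * (s : ℝ) ^ (d * 3 * d))) := by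
    gcongr
  have e4 : ((d : ℝ) + 3) ≤ (d + 3) * (s : ℝ) ^ (d * 3 * d) :=
    le_mul_of_one_le_right (by positivity) h5
  nlinarith

theorem K_N_nonneg (d : ℕ) (CX : ℝ) (hCX : 0 < CX) (s : ℕ) : 0 ≤ K_N d CX s := by
  unfold K_N
  positivity

/-- the logarithm grows slower than every power -/
theorem K_log (d : ℕ) (CX : ℝ) (hCX : 0 < CX) (ε : ℝ) (hε : 0 < ε) :
    ∀ᶠ s : ℕ in Filter.atTop, 1 + Real.log (K_N d CX s + 2) ≤ (s : ℝ) ^ ε := by
  obtain ⟨C, hC, h⟩ := K_N_le d CX hCX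
  have hlog : (fun x : ℝ => Real.log x) =o[Filter.atTop] (fun x : ℝ => x ^ ε) :=
    isLittleO_log_rpow_atTop hε
  have hconst : (fun _ : ℝ => (1 + Real.log C)) =o[Filter.atTop] (fun x : ℝ => x ^ ε) := by
    rw [Asymptotics.isLittleO_const_left]
    right
    exact tendsto_norm_atTop_atTop.comp (tendsto_rpow_atTop hε)
  have hsum : (fun x : ℝ => (1 + Real.log C) + ((d * 3 * d : ℕ) : ℝ) * Real.log x)
      =o[Filter.atTop] (fun x : ℝ => x ^ ε) := hconst.add (hlog.const_mul_left _)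
  have hb := (hsum.bound (c := 1) one_pos)
  have hb' := tendsto_natCast_atTop_atTop (R := ℝ) |>.eventually hb
  filter_upwards [hb', Filter.eventually_ge_atTop 1] with s hs hs1
  have hs' : (1 : ℝ) ≤ s := by exact_mod_cast hs1
  have hpos : 0 < K_N d CX s + 2 := by linarith [K_N_nonneg d CX hCX s]
  have h1 : Real.log (K_N d CX s + 2) ≤ Real.log C + ((d * 3 * d : ℕ) : ℝ) * Real.log s := by
    rw [← Real.log_pow, ← Real.log_mul hC.ne' (by positivity)]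
    exact Real.log_le_log hpos (h s hs1)
  have h2 : ‖(s : ℝ) ^ ε‖ = (s : ℝ) ^ ε := by
    rw [Real.norm_eq_abs, abs_of_nonneg (by positivity)]
  rw [h2, one_mul] at hs
  have h3 := (Real.le_norm_self _).trans hs
  linarith

theorem asym (d : ℕ) (hd : 2 ≤ d) (CX : ℝ) (hCX : 0 < CX) (β : ℝ) (hβ : (d : ℝ) < β) :
    ∃ (s r κ₀ κ : ℕ) (η : ℝ), 0 < s ∧ 0 < r ∧ 0 < η ∧ η ≤ 1 ∧
      8 * (2 * (2 * (s + (d + 1))) ^ d) ≤ r ∧
      (∀ N : ℕ, (N : ℝ) ≤ (d + 1) * (2 * (2 * (CX * (r : ℝ) ^ (3 : ℕ) + (d + 1))) ^ d) + (d + 1) →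
        ((N : ℝ) + 1) ^ (2 * (d + 1)) * (1 - η) ^ s < 1 ∧
        (N : ℝ) * (1 + (d + 1) ^ 2 * η) ^ (2 * r) < 2 ^ (κ₀ + 1)) ∧
      d + (d + 1) * κ₀ + 4 * (d + 1) ^ 2 ≤ κ ∧
      2 * (r : ℝ) * (4 * ((d + 1) * κ) / r) ^ β ≤ 1 / 2 := by
  have hd0 : (0 : ℝ) < d := by exact_mod_cast (by omega : 0 < d)
  have hβ0 : 0 < β := hd0.trans hβ
  obtain ⟨Cr, hCr, hr⟩ := K_r_le d
  set ε : ℝ := (β - d) / (2 * β) with hεdef
  have hε : 0 < ε := div_pos (by linarith) (by linarith)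
  -- the constant for the quotient `κ / r`
  set A : ℝ := 4 * (d + 1) * (d + (d + 1) * (4 + 4 * (d + 1) ^ 2 * (2 * (d + 1) + 1)) +
    4 * (d + 1) ^ 2) with hAdef
  have hA : 0 < A := by positivity
  have hfin : ∀ᶠ s : ℕ in Filter.atTop,
      2 * Cr * A ^ β * (s : ℝ) ^ (-((β - d) / 2)) ≤ 1 / 2 := by
    have h1 : Filter.Tendsto (fun x : ℝ => x ^ (-((β - d) / 2))) Filter.atTop (nhds 0) :=
      tendsto_rpow_neg_atTop (by linarith)
    have h2 := (h1.comp (tendsto_natCast_atTop_atTop (R := ℝ))).const_mul (2 * Cr * A ^ β)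
    rw [mul_zero] at h2
    have h3 := h2.eventually (ge_mem_nhds (show (0 : ℝ) < 1 / 2 by norm_num))
    filter_upwards [h3] with s hs
    exact hs
  have hη1 : ∀ᶠ s : ℕ in Filter.atTop, (2 * ((d : ℝ) + 1) + 1) * (s : ℝ) ^ (-(1 / 2 : ℝ)) ≤ 1 := by
    have h1 : Filter.Tendsto (fun x : ℝ => x ^ (-(1 / 2 : ℝ))) Filter.atTop (nhds 0) :=
      tendsto_rpow_neg_atTop (by norm_num)
    have h2 := (h1.comp (tendsto_natCast_atTop_atTop (R := ℝ))).const_mul (2 * ((d : ℝ) + 1) + 1)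
    rw [mul_zero] at h2
    have h3 := h2.eventually (ge_mem_nhds (show (0 : ℝ) < 1 by norm_num))
    filter_upwards [h3] with s hs
    exact hs
  obtain ⟨s, h1s, hLε, hLhalf, hs1, hs2⟩ := ((Filter.eventually_ge_atTop 1).and
    ((K_log d CX hCX ε hε).and ((K_log d CX hCX (1 / 2) (by norm_num)).and
      (hη1.and hfin)))).exists
  have hs' : (1 : ℝ) ≤ s := by exact_mod_cast h1s
  have hs0 : (0 : ℝ) < s := by linarith
  set L : ℝ := Real.log (K_N d CX s + 2) with hL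
  have hN0 := K_N_nonneg d CX hCX s
  have hL0 : 0 < L := Real.log_pos (by linarith)
  set η : ℝ := (2 * (d + 1) * L + 1) / s with hηdef
  have hη0 : 0 < η := by positivity
  have hηle : η ≤ (2 * (d + 1) + 1) * (1 + L) / s := by
    rw [hηdef]
    apply div_le_div_of_nonneg_right _ hs0.le
    nlinarith
  have hη1' : η ≤ 1 := by
    refine hηle.trans ?_
    refine le_trans ?_ hs1
    have e1 : (s : ℝ) ^ (-(1 / 2 : ℝ)) = (s : ℝ) ^ (1 / 2 : ℝ) / s := by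
      rw [eq_div_iff hs0.ne']
      nth_rewrite 2 [← Real.rpow_one (s : ℝ)]
      rw [← Real.rpow_add hs0]
      norm_num
    rw [e1, mul_div_assoc]
    apply mul_le_mul_of_nonneg_left _ (by positivity)
    exact div_le_div_of_nonneg_right hLhalf hs0.le
  have hrpos : 0 < K_r d s := by unfold K_r; positivity
  have hrpos' : (0 : ℝ) < K_r d s := by exact_mod_cast hrpos
  set X : ℝ := L + 2 * (K_r d s) * ((d + 1) ^ 2 * η) with hX
  have hX0 : 0 < X := by positivity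
  refine ⟨s, K_r d s, ⌈2 * X⌉₊, d + (d + 1) * ⌈2 * X⌉₊ + 4 * (d + 1) ^ 2, η, h1s, hrpos, hη0, hη1',
    le_refl _, fun N hN => ⟨?_, ?_⟩, le_refl _, ?_⟩
  · -- first
    have hN' : (N : ℝ) + 1 < K_N d CX s + 2 := by
      have : (N : ℝ) ≤ K_N d CX s := hN
      linarith
    have h1 : (1 - η) ^ s ≤ Real.exp (-(2 * (d + 1) * L + 1)) := by
      have e1 : 1 - η ≤ Real.exp (-η) := by
        have := Real.add_one_le_exp (-η)
        linarith
      calc (1 - η) ^ s ≤ (Real.exp (-η)) ^ s := pow_le_pow_left₀ (by linarith) e1 s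
        _ = Real.exp (-(2 * (d + 1) * L + 1)) := by
          rw [← Real.exp_nat_mul]
          congr 1
          rw [hηdef]
          field_simp
    have h2 : ((N : ℝ) + 1) ^ (2 * (d + 1)) ≤ Real.exp (2 * (d + 1) * L) := by
      calc ((N : ℝ) + 1) ^ (2 * (d + 1)) ≤ (K_N d CX s + 2) ^ (2 * (d + 1)) :=
            pow_le_pow_left₀ (by positivity) hN'.le _
        _ = Real.exp (2 * (d + 1) * L) := by
          have : K_N d CX s + 2 = Real.exp L := (Real.exp_log (by linarith)).symm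
          rw [this, ← Real.exp_nat_mul]
          congr 1
          push_cast
          ring
    calc ((N : ℝ) + 1) ^ (2 * (d + 1)) * (1 - η) ^ s
        ≤ Real.exp (2 * (d + 1) * L) * Real.exp (-(2 * (d + 1) * L + 1)) :=
          mul_le_mul h2 h1 (pow_nonneg (by linarith) _) (Real.exp_pos _).le
      _ = Real.exp (-1) := by rw [← Real.exp_add]; congr 1; ring
      _ < 1 := by rw [Real.exp_lt_one_iff]; norm_num
  · -- second
    have hN' : (N : ℝ) < Real.exp L := by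
      have h0 : K_N d CX s + 2 = Real.exp L := (Real.exp_log (by linarith)).symm
      have : (N : ℝ) ≤ K_N d CX s := hN
      linarith
    have h1 : (1 + ((d : ℝ) + 1) ^ 2 * η) ^ (2 * K_r d s) ≤
        Real.exp (2 * (K_r d s) * ((d + 1) ^ 2 * η)) := by
      have e1 : 1 + ((d : ℝ) + 1) ^ 2 * η ≤ Real.exp (((d : ℝ) + 1) ^ 2 * η) := by
        have := Real.add_one_le_exp (((d : ℝ) + 1) ^ 2 * η)
        linarith
      calc (1 + ((d : ℝ) + 1) ^ 2 * η) ^ (2 * K_r d s)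
          ≤ (Real.exp (((d : ℝ) + 1) ^ 2 * η)) ^ (2 * K_r d s) :=
            pow_le_pow_left₀ (by positivity) e1 _
        _ = Real.exp (2 * (K_r d s) * ((d + 1) ^ 2 * η)) := by
          rw [← Real.exp_nat_mul]
          push_cast
          rfl
    have h2 : Real.exp X ≤ 2 ^ (⌈2 * X⌉₊) := by
      have e1 : Real.exp X ≤ (2 : ℝ) ^ (2 * X) := by
        rw [Real.rpow_def_of_pos (by norm_num)]
        apply Real.exp_le_exp.mpr
        have := Real.log_two_gt_d9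
        nlinarith
      refine e1.trans ?_
      rw [← Real.rpow_natCast]
      exact Real.rpow_le_rpow_of_exponent_le (by norm_num) (Nat.le_ceil _)
    calc (N : ℝ) * (1 + ((d : ℝ) + 1) ^ 2 * η) ^ (2 * K_r d s)
        ≤ Real.exp L * Real.exp (2 * (K_r d s) * ((d + 1) ^ 2 * η)) :=
          mul_le_mul hN'.le h1 (by positivity) (Real.exp_pos _).le
      _ = Real.exp X := by rw [← Real.exp_add]
      _ ≤ 2 ^ (⌈2 * X⌉₊) := h2
      _ < 2 ^ (⌈2 * X⌉₊ + 1) := by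
        rw [pow_succ]
        have : (0 : ℝ) < 2 ^ (⌈2 * X⌉₊) := by positivity
        linarith
  · -- third
    have hceil : ((⌈2 * X⌉₊ : ℕ) : ℝ) ≤ 2 * X + 1 := (Nat.ceil_lt_add_one (by positivity)).le
    have hsr : (s : ℝ) ≤ K_r d s := by
      refine le_trans ?_ (K_r_ge d s)
      calc (s : ℝ) = (s : ℝ) ^ 1 := (pow_one _).symm
        _ ≤ (s : ℝ) ^ d := pow_le_pow_right₀ hs' (by omega)
    have hquot : 4 * (((d : ℝ) + 1) * ((d + (d + 1) * ⌈2 * X⌉₊ + 4 * (d + 1) ^ 2 : ℕ) : ℝ)) /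
        (K_r d s : ℝ) ≤ A * (1 + L) / s := by
      rw [div_le_div_iff₀ hrpos' hs0]
      have e1 : η * s = 2 * (d + 1) * L + 1 := by
        rw [hηdef]
        field_simp
      have e2 : X * s ≤ (1 + L) * (K_r d s) * (1 + 2 * (d + 1) ^ 2 * (2 * (d + 1) + 1)) := by
        have e3 : X * s = L * s + 2 * (K_r d s) * (d + 1) ^ 2 * (2 * (d + 1) * L + 1) := by
          rw [hX, ← e1]
          ring
        rw [e3]
        have e4 : L * s ≤ (1 + L) * (K_r d s) := by nlinarith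
        have e5 : 2 * ((d : ℝ) + 1) * L + 1 ≤ (2 * (d + 1) + 1) * (1 + L) := by nlinarith
        have e6 : 2 * (K_r d s : ℝ) * ((d : ℝ) + 1) ^ 2 * (2 * (d + 1) * L + 1) ≤
            2 * (K_r d s) * (d + 1) ^ 2 * ((2 * (d + 1) + 1) * (1 + L)) :=
          mul_le_mul_of_nonneg_left e5 (by positivity)
        nlinarith
      have e7 : (s : ℝ) ≤ (1 + L) * (K_r d s) := by nlinarith
      push_cast
      have e8 : ((d : ℝ) + (d + 1) * (⌈2 * X⌉₊ : ℝ) + 4 * (d + 1) ^ 2) * s ≤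
          (d + (d + 1) * (4 + 4 * (d + 1) ^ 2 * (2 * (d + 1) + 1)) +
            4 * (d + 1) ^ 2) * ((1 + L) * (K_r d s)) := by
        have e9 : ((⌈2 * X⌉₊ : ℕ) : ℝ) * s ≤
            (4 + 4 * ((d : ℝ) + 1) ^ 2 * (2 * (d + 1) + 1)) * ((1 + L) * (K_r d s)) := by
          have : ((⌈2 * X⌉₊ : ℕ) : ℝ) * s ≤ (2 * X + 1) * s :=
            mul_le_mul_of_nonneg_right hceil hs0.le
          nlinarith
        have e10 : (d : ℝ) * s ≤ d * ((1 + L) * (K_r d s)) :=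
          mul_le_mul_of_nonneg_left e7 hd0.le
        have e11 : (4 * ((d : ℝ) + 1) ^ 2) * s ≤ (4 * (d + 1) ^ 2) * ((1 + L) * (K_r d s)) :=
          mul_le_mul_of_nonneg_left e7 (by positivity)
        have e12 : ((d : ℝ) + 1) * (((⌈2 * X⌉₊ : ℕ) : ℝ) * s) ≤
            (d + 1) * ((4 + 4 * ((d : ℝ) + 1) ^ 2 * (2 * (d + 1) + 1)) * ((1 + L) * (K_r d s))) :=
          mul_le_mul_of_nonneg_left e9 (by positivity)
        nlinarith
      rw [hAdef]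
      nlinarith [mul_le_mul_of_nonneg_left e8 (show (0 : ℝ) ≤ 4 * (d + 1) by positivity)]
    have hq0 : 0 ≤ 4 * (((d : ℝ) + 1) * ((d + (d + 1) * ⌈2 * X⌉₊ + 4 * (d + 1) ^ 2 : ℕ) : ℝ)) /
        (K_r d s : ℝ) := by positivity
    have hpow : (4 * (((d : ℝ) + 1) * ((d + (d + 1) * ⌈2 * X⌉₊ + 4 * (d + 1) ^ 2 : ℕ) : ℝ)) /
        (K_r d s : ℝ)) ^ β ≤ (A * ((s : ℝ) ^ ε / s)) ^ β := by
      apply Real.rpow_le_rpow hq0 _ hβ0.le
      refine hquot.trans ?_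
      rw [mul_div_assoc]
      apply mul_le_mul_of_nonneg_left _ hA.le
      exact div_le_div_of_nonneg_right hLε hs0.le
    have hfin2 : 2 * (K_r d s : ℝ) * (A * ((s : ℝ) ^ ε / s)) ^ β ≤
        2 * Cr * A ^ β * (s : ℝ) ^ (-((β - d) / 2)) := by
      have e1 : (A * ((s : ℝ) ^ ε / s)) ^ β = A ^ β * (s : ℝ) ^ ((ε - 1) * β) := by
        rw [Real.mul_rpow hA.le (by positivity), Real.rpow_mul hs0.le, Real.rpow_sub hs0,
          Real.rpow_one]
      have e2 : (s : ℝ) ^ (-((β - d) / 2)) = (s : ℝ) ^ d * (s : ℝ) ^ ((ε - 1) * β) := by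
        rw [← Real.rpow_natCast (s : ℝ) d, ← Real.rpow_add hs0]
        congr 1
        rw [hεdef]
        field_simp
        ring
      rw [e1, e2]
      have e3 := hr s h1s
      have e4 : 0 ≤ A ^ β * (s : ℝ) ^ ((ε - 1) * β) := by positivity
      nlinarith [mul_le_mul_of_nonneg_right e3 e4]
    calc 2 * (K_r d s : ℝ) * (4 * (((d : ℝ) + 1) *
            ((d + (d + 1) * ⌈2 * X⌉₊ + 4 * (d + 1) ^ 2 : ℕ) : ℝ)) / (K_r d s : ℝ)) ^ β
        ≤ 2 * (K_r d s : ℝ) * (A * ((s : ℝ) ^ ε / s)) ^ β :=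
          mul_le_mul_of_nonneg_left hpow (by positivity)
      _ ≤ 2 * Cr * A ^ β * (s : ℝ) ^ (-((β - d) / 2)) := hfin2
      _ ≤ 1 / 2 := hs2

end MP4f30eb
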