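import Pool.Agent.Lib.MP_4f30eb_co.S_C
import Pool.Agent.Lib.MP_4f30eb_co.S_K
import Pool.Agent.Lib.MP_4f30eb_co.S_F1
/-! Task F: the partition (part 2). -/
namespace MP4f30eb
open Finset MeasureTheory
open scoped BigOperators Matrix Classical

theorem hat_ne_zero {d : ℕ} (c : Fin d → ℝ) : hat c ≠ 0 := by
  intro h
  have := congrFun h 0
  simp [hat] at this

theorem GP_mono {ι : Type} {D : ℕ} {p : ι → Fin D → ℝ} {F F' : Finset ι} (h : GP p F)
    (hF : F' ⊆ F) : GP p F' := by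
  intro x hx
  exact lt_of_le_of_lt (Finset.card_le_card (Finset.filter_subset_filter _ hF)) (h x hx)

/-- combinatorial counting: disjoint classes of size `b` in a set of size `n`. -/
theorem card_mul_le {ι : Type} (𝓡 : Finset (Finset ι)) (F : Finset ι) (b : ℕ)
    (h1 : ∀ R ∈ 𝓡, b ≤ (R ∩ F).card)
    (h2 : ∀ R ∈ 𝓡, ∀ R' ∈ 𝓡, R ≠ R' → Disjoint R R') : 𝓡.card * b ≤ F.card := by
  calc 𝓡.card * b = ∑ R ∈ 𝓡, b := by rw [Finset.sum_const, smul_eq_mul]
    _ ≤ ∑ R ∈ 𝓡, (R ∩ F).card := Finset.sum_le_sum h1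
    _ = (𝓡.biUnion (fun R => R ∩ F)).card := by
      rw [Finset.card_biUnion]
      intro R hR R' hR' hne
      exact Finset.disjoint_of_subset_left Finset.inter_subset_left
        (Finset.disjoint_of_subset_right Finset.inter_subset_left (h2 R hR R' hR' hne))
    _ ≤ F.card := by
      apply Finset.card_le_card
      intro g hg
      rw [Finset.mem_biUnion] at hg
      obtain ⟨R, _, hg⟩ := hg
      exact (Finset.mem_inter.1 hg).2

theorem partition (d : ℕ) (hd : 2 ≤ d) (β : ℝ) (hβ : (d : ℝ) < β) :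
    ∃ (r κ N₁ : ℕ), 0 < r ∧ 2 * (r : ℝ) * (4 * ((d + 1) * κ) / r) ^ β ≤ 1 / 2 ∧ 0 < κ ∧
      ∀ (ι : Type) (c : ι → Fin d → ℝ) (F : Finset ι), GP (fun g => hat (c g)) F →
        N₁ ≤ F.card → ∃ (𝓡 : Finset (Finset ι)) (ρ : Finset ι → ι),
          (∀ R ∈ 𝓡, R ⊆ F ∧ ρ R ∈ R ∧ (R.card : ℝ) ≤ F.card / r) ∧
          (∀ R ∈ 𝓡, ∀ R' ∈ 𝓡, R ≠ R' → Disjoint R R') ∧
          𝓡.card ≤ 2 * r ∧
          ((F.filter (fun g => ∀ R ∈ 𝓡, g ∉ R)).card : ℝ) ≤ F.card / 8 ∧
          ∀ w : Fin (d + 1) → ℝ,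
            (𝓡.filter (fun R => 0 ≤ hat (c (ρ R)) ⬝ᵥ w ∧ ∃ g ∈ R, hat (c g) ⬝ᵥ w < 0)).card
              ≤ κ := by
  obtain ⟨CX, hCX, hnet⟩ := net (2 * (d + 1)) 1 one_pos
  obtain ⟨s, r, κ₀, κ, η, hs0, hr0, hη0, hη1, hr8, hN, hκ, hfin⟩ := asym d hd CX hCX β hβ
  refine ⟨r, κ, 4 * d * r, hr0, hfin, by nlinarith, ?_⟩
  intro ι c F hGP hn
  set p : ι → Fin (d + 1) → ℝ := fun g => hat (c g) with hp
  set n := F.card with hndef
  set b := n / r with hb
  have hrR : (0 : ℝ) < r := by exact_mod_cast hr0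
  have hb4 : 4 * d ≤ b := by
    rw [hb, Nat.le_div_iff_mul_le hr0]
    exact hn
  have hbr : b * r ≤ n := Nat.div_mul_le_self n r
  have hbr2 : n < 2 * (b * r) := by
    have h1 : n < (b + 1) * r := by
      have := Nat.lt_div_mul_add (a := n) hr0
      rw [← hb] at this
      linarith
    have h2 : (b + 1) * r ≤ 2 * (b * r) := by nlinarith
    omega
  have hb1 : 1 ≤ b := by omega
  have hn0 : 0 < n := by
    have : 0 < b * r := Nat.mul_pos (by omega) hr0
    omega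
  -- the net
  obtain ⟨X₀, hX₀F, hX₀c, hX₀⟩ := hnet ι _ (TB_zone (d + 1) p) F (1 / r) (by positivity)
    (by
      rw [div_le_one hrR]
      exact_mod_cast hr0)
  have hdn : d + 1 ≤ F.card := by
    have : 4 * d * 1 ≤ 4 * d * r := Nat.mul_le_mul_left _ hr0
    omega
  obtain ⟨A1, hA1F, hA1c⟩ := Finset.exists_subset_card_eq hdn
  set X : Finset ι := X₀ ∪ A1 with hX
  have hXF : X ⊆ F := Finset.union_subset hX₀F hA1F
  have hXc : (X.card : ℝ) ≤ CX * (r : ℝ) ^ (3 : ℕ) + (d + 1) := by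
    have h1 : (X.card : ℝ) ≤ X₀.card + A1.card := by exact_mod_cast Finset.card_union_le _ _
    have h2 : ((1 / (r : ℝ)) ^ (-(2 + 1 : ℝ)) : ℝ) = (r : ℝ) ^ (3 : ℕ) := by
      rw [one_div, Real.inv_rpow hrR.le, Real.rpow_neg hrR.le, inv_inv]
      norm_num
    rw [h2] at hX₀c
    rw [hA1c] at h1
    push_cast at h1
    linarith
  have hXd : d + 1 ≤ X.card := by
    rw [← hA1c]
    exact Finset.card_le_card Finset.subset_union_right
  obtain ⟨K, hK1, hK2, hK3⟩ := chain_dot d p X (GP_mono hGP hXF) hXd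
  set v : {κ // κ ∈ K} × Fin (d + 1) → Fin (d + 1) → ℝ := fun i => i.1.1.2 i.2 with hv
  have hcardI : Fintype.card ({κ // κ ∈ K} × Fin (d + 1)) = K.card * (d + 1) := by
    simp
  have hNb : ((Fintype.card ({κ // κ ∈ K} × Fin (d + 1)) + (d + 1) : ℕ) : ℝ) ≤
      (d + 1) * (2 * (2 * (CX * (r : ℝ) ^ (3 : ℕ) + (d + 1))) ^ d) + (d + 1) := by
    rw [hcardI]
    have h1 : (K.card : ℝ) ≤ 2 * (2 * X.card) ^ d := by exact_mod_cast hK1
    have h2 : (2 * (X.card : ℝ)) ^ d ≤ (2 * (CX * (r : ℝ) ^ (3 : ℕ) + (d + 1))) ^ d := by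
      apply pow_le_pow_left₀ (by positivity)
      linarith
    push_cast
    have h3 : (K.card : ℝ) ≤ 2 * (2 * (CX * (r : ℝ) ^ (3 : ℕ) + (d + 1))) ^ d := by linarith
    have h4 : (0 : ℝ) < (d : ℝ) + 1 := by positivity
    nlinarith
  obtain ⟨hN1, hN2⟩ := hN _ hNb
  obtain ⟨𝓡, h𝓡1, h𝓡2, h𝓡3, h𝓡4⟩ := part_test d p F (fun g _ => hat_ne_zero _) v η hη0 hη1 s
    hN1 b hb1
  have h𝓡c : 𝓡.card ≤ 2 * r := by
    have h1 : 𝓡.card * b ≤ F.card := by
      apply card_mul_le 𝓡 F b _ h𝓡2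
      intro R hR
      rw [Finset.inter_eq_left.2 (h𝓡1 R hR).1, (h𝓡1 R hR).2]
    have h2 : 𝓡.card * b < 2 * r * b := by
      calc 𝓡.card * b ≤ n := h1
        _ < 2 * (b * r) := hbr2
        _ = 2 * r * b := by ring
    exact (Nat.lt_of_mul_lt_mul_right h2).le
  have hcr : ∀ i, (𝓡.filter (fun R => Cross p (v i) R)).card ≤ κ₀ := by
    intro i
    have h1 := h𝓡4 i
    have h2 : ((Fintype.card ({κ // κ ∈ K} × Fin (d + 1)) + (d + 1) : ℕ) : ℝ) *
        (1 + (d + 1) ^ 2 * η) ^ 𝓡.card ≤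
        ((Fintype.card ({κ // κ ∈ K} × Fin (d + 1)) + (d + 1) : ℕ) : ℝ) *
        (1 + (d + 1) ^ 2 * η) ^ (2 * r) := by
      apply mul_le_mul_of_nonneg_left _ (by positivity)
      apply pow_le_pow_right₀ _ h𝓡c
      have : 0 ≤ ((d : ℝ) + 1) ^ 2 * η := by positivity
      linarith
    have h3 : (2 : ℝ) ^ (𝓡.filter (fun R => Cross p (v i) R)).card < 2 ^ (κ₀ + 1) :=
      lt_of_le_of_lt (h1.trans h2) hN2
    have h4 := (pow_lt_pow_iff_right₀ (by norm_num : (1 : ℝ) < 2)).1 h3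
    omega
  have hFne : F.Nonempty := Finset.card_pos.1 hn0
  obtain ⟨g₀, _⟩ := hFne
  set ρ : Finset ι → ι := fun R => if h : R.Nonempty then h.choose else g₀ with hρ
  have hρR : ∀ R ∈ 𝓡, ρ R ∈ R := by
    intro R hR
    have hne : R.Nonempty := by
      rw [← Finset.card_pos, (h𝓡1 R hR).2]
      omega
    simp only [hρ, dif_pos hne]
    exact hne.choose_spec
  refine ⟨𝓡, ρ, ?_, h𝓡2, h𝓡c, ?_, ?_⟩
  · intro R hR
    refine ⟨(h𝓡1 R hR).1, hρR R hR, ?_⟩
    rw [(h𝓡1 R hR).2, le_div_iff₀ hrR]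
    exact_mod_cast hbr
  · have h1 : (8 : ℕ) * (F.filter (fun g => ∀ R ∈ 𝓡, g ∉ R)).card ≤ n := by
      calc 8 * (F.filter (fun g => ∀ R ∈ 𝓡, g ∉ R)).card
          ≤ 8 * (2 * (2 * (s + (d + 1))) ^ d * b) := Nat.mul_le_mul_left _ h𝓡3.le
        _ = 8 * (2 * (2 * (s + (d + 1))) ^ d) * b := by ring
        _ ≤ r * b := Nat.mul_le_mul_right _ hr8
        _ = b * r := by ring
        _ ≤ n := hbr
    have h2 : (8 : ℝ) * ((F.filter (fun g => ∀ R ∈ 𝓡, g ∉ R)).card : ℝ) ≤ n := by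
      exact_mod_cast h1
    linarith
  · intro w
    by_cases hw : w = 0
    · subst hw
      simp
    obtain ⟨σ, hσ⟩ := exists_consis (fun i : ι => dotL (p i)) w
    obtain ⟨κ', hκ', _, a, ha, hwa⟩ := hK3 w hw σ (fun i _ => hσ i)
    set z : Fin (d + 1) → Fin (d + 1) → ℝ := κ'.2 with hz
    have hzne : ∀ j, z j ≠ 0 := fun j => (hK2 κ' hκ' j).1
    have hzeros : ∀ j, (F.filter (fun g => p g ⬝ᵥ z j = 0)).card ≤ d := by
      intro j
      have := hGP (z j) (hzne j)
      omega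
    -- the zones
    have hzone : ∀ j l, (F.filter (fun g => 0 < p g ⬝ᵥ z l ∧ p g ⬝ᵥ z j < 0)).card * r ≤ n := by
      intro j l
      by_contra hcon
      push Not at hcon
      have hpos : 0 < (F.filter (fun g => 0 < p g ⬝ᵥ z l ∧ p g ⬝ᵥ z j < 0)).card := by
        by_contra h0
        have : (F.filter (fun g => 0 < p g ⬝ᵥ z l ∧ p g ⬝ᵥ z j < 0)).card = 0 := by omega
        rw [this] at hcon
        omega
      have hge : (1 / (r : ℝ)) * (F.card : ℝ) ≤
          ((F.filter (fun g => 0 < p g ⬝ᵥ z l ∧ p g ⬝ᵥ z j < 0)).card : ℝ) := by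
        rw [one_div, inv_mul_le_iff₀ hrR]
        have : (n : ℝ) < ((F.filter (fun g => 0 < p g ⬝ᵥ z l ∧ p g ⬝ᵥ z j < 0)).card : ℝ) * r := by
          exact_mod_cast hcon
        linarith
      obtain ⟨g, hgX, hg⟩ := hX₀ {i | 0 < p i ⬝ᵥ z l ∧ p i ⬝ᵥ z j < 0} ⟨z l, z j, rfl⟩
        (by simpa using hpos) (by simpa using hge)
      have hgX' : g ∈ X := Finset.mem_union_left _ hgX
      have c1 := (hK2 κ' hκ' l).2 g hgX'
      have c2 := (hK2 κ' hκ' j).2 g hgX'
      have hg1 : 0 < p g ⬝ᵥ z l := hg.1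
      have hg2 : p g ⬝ᵥ z j < 0 := hg.2
      unfold sg at c1 c2
      split_ifs at c1 c2
      · linarith
      · linarith
    -- the three kinds of bad classes
    set B0 := 𝓡.filter (fun R => p (ρ R) ⬝ᵥ w = 0) with hB0
    set B1 := (univ : Finset (Fin (d + 1))).biUnion
      (fun j => 𝓡.filter (fun R => Cross p (z j) R)) with hB1
    set B2 := (univ : Finset (Fin (d + 1) × Fin (d + 1))).biUnion
      (fun jl => 𝓡.filter (fun R =>
        b - 2 * d ≤ (R ∩ F.filter (fun g => 0 < p g ⬝ᵥ z jl.2 ∧ p g ⬝ᵥ z jl.1 < 0)).card)) with hB2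
    have hB0c : B0.card ≤ d := by
      have h1 := hGP w hw
      have h2 : B0.card ≤ (F.filter (fun g => p g ⬝ᵥ w = 0)).card := by
        refine Finset.card_le_card_of_injOn ρ ?_ ?_
        · intro R hR
          have hR' := Finset.mem_filter.1 hR
          exact Finset.mem_filter.2 ⟨(h𝓡1 R hR'.1).1 (hρR R hR'.1), hR'.2⟩
        · intro R hR R' hR' h
          have hR1 := Finset.mem_filter.1 hR
          have hR1' := Finset.mem_filter.1 hR'
          by_contra hne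
          have := h𝓡2 R hR1.1 R' hR1'.1 hne
          rw [Finset.disjoint_left] at this
          exact this (hρR R hR1.1) (h ▸ hρR R' hR1'.1)
      omega
    have hB1c : B1.card ≤ (d + 1) * κ₀ := by
      calc B1.card ≤ ∑ j : Fin (d + 1), (𝓡.filter (fun R => Cross p (z j) R)).card :=
            Finset.card_biUnion_le
        _ ≤ ∑ j : Fin (d + 1), κ₀ := by
            apply Finset.sum_le_sum
            intro j _
            exact hcr (⟨κ', hκ'⟩, j)
        _ = (d + 1) * κ₀ := by simp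
    have hB2c : B2.card ≤ 4 * (d + 1) ^ 2 := by
      calc B2.card ≤ ∑ jl : Fin (d + 1) × Fin (d + 1), (𝓡.filter (fun R =>
            b - 2 * d ≤
              (R ∩ F.filter (fun g => 0 < p g ⬝ᵥ z jl.2 ∧ p g ⬝ᵥ z jl.1 < 0)).card)).card :=
            Finset.card_biUnion_le
        _ ≤ ∑ jl : Fin (d + 1) × Fin (d + 1), 4 := by
            apply Finset.sum_le_sum
            intro jl _
            set t := (𝓡.filter (fun R => b - 2 * d ≤
              (R ∩ F.filter (fun g => 0 < p g ⬝ᵥ z jl.2 ∧ p g ⬝ᵥ z jl.1 < 0)).card)) with ht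
            have h1 : t.card * (b - 2 * d) ≤
                (F.filter (fun g => 0 < p g ⬝ᵥ z jl.2 ∧ p g ⬝ᵥ z jl.1 < 0)).card := by
              apply card_mul_le
              · intro R hR
                exact (Finset.mem_filter.1 hR).2
              · intro R hR R' hR' hne
                exact h𝓡2 R (Finset.mem_filter.1 hR).1 R' (Finset.mem_filter.1 hR').1 hne
            have h2 := hzone jl.1 jl.2
            have h3 : b ≤ 2 * (b - 2 * d) := by omega
            by_contra hcon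
            push Not at hcon
            have h4 : 5 * (b * r) ≤ t.card * (b * r) := Nat.mul_le_mul_right _ hcon
            have h5 : t.card * (b * r) ≤ t.card * (2 * (b - 2 * d) * r) :=
              Nat.mul_le_mul_left _ (Nat.mul_le_mul_right _ h3)
            have h6 : t.card * (2 * (b - 2 * d) * r) = 2 * (t.card * (b - 2 * d) * r) := by ring
            have h7 : t.card * (b - 2 * d) * r ≤
                (F.filter (fun g => 0 < p g ⬝ᵥ z jl.2 ∧ p g ⬝ᵥ z jl.1 < 0)).card * r :=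
              Nat.mul_le_mul_right _ h1
            have h8 : 0 < b * r := Nat.mul_pos (by omega) hr0
            omega
        _ = 4 * (d + 1) ^ 2 := by
            simp
            ring
    have hsub : 𝓡.filter (fun R => 0 ≤ hat (c (ρ R)) ⬝ᵥ w ∧ ∃ g ∈ R, hat (c g) ⬝ᵥ w < 0) ⊆
        B0 ∪ (B1 ∪ B2) := by
      intro R hR
      obtain ⟨hR𝓡, h0, g, hgR, hgw⟩ := Finset.mem_filter.1 hR
      by_cases hR0 : R ∈ B0
      · exact Finset.mem_union_left _ hR0
      by_cases hR1 : R ∈ B1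
      · exact Finset.mem_union_right _ (Finset.mem_union_left _ hR1)
      refine Finset.mem_union_right _ (Finset.mem_union_right _ ?_)
      have hne : p (ρ R) ⬝ᵥ w ≠ 0 := fun h => hR0 (Finset.mem_filter.2 ⟨hR𝓡, h⟩)
      have hpos : 0 < p (ρ R) ⬝ᵥ w := lt_of_le_of_ne h0 (Ne.symm hne)
      have hncross : ∀ j, ¬ Cross p (z j) R := by
        intro j hj
        exact hR1 (Finset.mem_biUnion.2 ⟨j, Finset.mem_univ _, Finset.mem_filter.2 ⟨hR𝓡, hj⟩⟩)
      have hpos' := hpos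
      have hgw' : p g ⬝ᵥ w < 0 := hgw
      rw [hwa] at hpos' hgw'
      obtain ⟨l, hl⟩ := dot_sum_pos _ _ a ha hpos'
      obtain ⟨j, hj⟩ := dot_sum_neg _ _ a ha hgw'
      refine Finset.mem_biUnion.2 ⟨(j, l), Finset.mem_univ _, Finset.mem_filter.2 ⟨hR𝓡, ?_⟩⟩
      show b - 2 * d ≤ (R ∩ F.filter (fun g => 0 < p g ⬝ᵥ z l ∧ p g ⬝ᵥ z j < 0)).card
      have hRF := (h𝓡1 R hR𝓡).1
      have hcov : R ⊆ (R ∩ F.filter (fun g => 0 < p g ⬝ᵥ z l ∧ p g ⬝ᵥ z j < 0)) ∪
          (F.filter (fun g => p g ⬝ᵥ z l = 0) ∪ F.filter (fun g => p g ⬝ᵥ z j = 0)) := by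
        intro g' hg'
        have hg'F := hRF hg'
        rcases lt_trichotomy (p g' ⬝ᵥ z l) 0 with h | h | h
        · exfalso
          apply hncross l
          refine ⟨⟨ρ R, hρR R hR𝓡, ?_⟩, ⟨g', hg', ?_⟩⟩
          · rw [dotProduct_comm]; exact hl
          · rw [dotProduct_comm]; exact h
        · exact Finset.mem_union_right _ (Finset.mem_union_left _
            (Finset.mem_filter.2 ⟨hg'F, h⟩))
        · rcases lt_trichotomy (p g' ⬝ᵥ z j) 0 with h' | h' | h'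
          · exact Finset.mem_union_left _ (Finset.mem_inter.2 ⟨hg',
              Finset.mem_filter.2 ⟨hg'F, h, h'⟩⟩)
          · exact Finset.mem_union_right _ (Finset.mem_union_right _
              (Finset.mem_filter.2 ⟨hg'F, h'⟩))
          · exfalso
            apply hncross j
            refine ⟨⟨g', hg', ?_⟩, ⟨g, hgR, ?_⟩⟩
            · rw [dotProduct_comm]; exact h'
            · rw [dotProduct_comm]; exact hj
      have h1 := Finset.card_le_card hcov
      have h2 := Finset.card_union_le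
        (R ∩ F.filter (fun g => 0 < p g ⬝ᵥ z l ∧ p g ⬝ᵥ z j < 0))
        (F.filter (fun g => p g ⬝ᵥ z l = 0) ∪ F.filter (fun g => p g ⬝ᵥ z j = 0))
      have h3 := Finset.card_union_le
        (F.filter (fun g => p g ⬝ᵥ z l = 0)) (F.filter (fun g => p g ⬝ᵥ z j = 0))
      have h4 := hzeros l
      have h5 := hzeros j
      rw [(h𝓡1 R hR𝓡).2] at h1
      omega
    calc _ ≤ (B0 ∪ (B1 ∪ B2)).card := Finset.card_le_card hsub
      _ ≤ B0.card + (B1 ∪ B2).card := Finset.card_union_le _ _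
      _ ≤ B0.card + (B1.card + B2.card) := by
          have := Finset.card_union_le B1 B2
          omega
      _ ≤ κ := by omega

end MP4f30eb
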